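import Mathlib

set_option autoImplicit false

/-!
# Quadratic Hénon maps: basic definitions and facts
-/

namespace Run7.h964

open Filter Topology MeasureTheory Set

/-- The quadratic Hénon map `H_{a,c}(x,y) = (a y + x² + c, a x)`. -/
def henon (a c : ℝ) (z : ℝ × ℝ) : ℝ × ℝ := (a * z.2 + z.1 ^ 2 + c, a * z.1)

/-- `z` is non-statistical for `f`: for some compactly supported continuous function the Birkhoff
averages along the forward orbit of `z` do not converge. -/
def NonStat (f : ℝ × ℝ → ℝ × ℝ) (z : ℝ × ℝ) : Prop :=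
  ∃ φ : ℝ × ℝ → ℝ, Continuous φ ∧ HasCompactSupport φ ∧
    ¬ ∃ l : ℝ, Tendsto (fun n : ℕ => birkhoffAverage ℝ f φ n z) atTop (𝓝 l)

/-- first coordinate of the `n`-th iterate -/
def xc (a c : ℝ) (z : ℝ × ℝ) (n : ℕ) : ℝ := ((henon a c)^[n] z).1

lemma henon_continuous (a c : ℝ) : Continuous (henon a c) := by
  unfold henon
  fun_prop

lemma iter_succ (a c : ℝ) (z : ℝ × ℝ) (n : ℕ) :
    (henon a c)^[n + 1] z = henon a c ((henon a c)^[n] z) :=
  Function.iterate_succ_apply' _ _ _

lemma iter_snd (a c : ℝ) (z : ℝ × ℝ) (n : ℕ) :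
    ((henon a c)^[n + 1] z).2 = a * xc a c z n := by
  rw [iter_succ]; rfl

lemma iter_fst (a c : ℝ) (z : ℝ × ℝ) (n : ℕ) :
    xc a c z (n + 1) = a * ((henon a c)^[n] z).2 + xc a c z n ^ 2 + c := by
  unfold xc
  rw [iter_succ]; rfl

lemma xc_rec (a c : ℝ) (z : ℝ × ℝ) (n : ℕ) :
    xc a c z (n + 2) = xc a c z (n + 1) ^ 2 + c + a ^ 2 * xc a c z n := by
  rw [iter_fst, iter_snd]; ring

lemma iter_eq (a c : ℝ) (z : ℝ × ℝ) (n : ℕ) :
    (henon a c)^[n + 1] z = (xc a c z (n + 1), a * xc a c z n) := by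
  ext
  · rfl
  · exact iter_snd a c z n

/-- escape criterion for the scalar recursion -/
lemma escape {b c : ℝ} (hb : 0 ≤ b) {x : ℕ → ℝ}
    (hx : ∀ n, x (n + 2) = x (n + 1) ^ 2 + c + b * x n)
    {n : ℕ} (h1 : 2 + b + |c| ≤ |x (n + 1)|) (h2 : |x n| ≤ |x (n + 1)|) :
    ∀ k, (2 + b + |c| ≤ |x (n + 1 + k)| ∧ |x (n + k)| ≤ |x (n + 1 + k)|) ∧
      2 ^ k * |x (n + 1)| ≤ |x (n + 1 + k)| := by
  intro k
  induction k with
  | zero => simpa using ⟨h1, h2⟩
  | succ k ih =>
    obtain ⟨⟨ih1, ih2⟩, ih3⟩ := ih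
    have e : n + 1 + (k + 1) = (n + k) + 2 := by ring
    have e' : n + (k + 1) = (n + k) + 1 := by ring
    have e1 : n + 1 + k = (n + k) + 1 := by ring
    rw [e1] at ih1 ih2 ih3
    have key : 2 * |x (n + k + 1)| ≤ |x (n + k + 2)| := by
      rw [hx (n + k)]
      have t1 : |x (n + k + 1) ^ 2| ≤ |x (n + k + 1) ^ 2 + c + b * x (n + k)| + |c| +
          b * |x (n + k)| := by
        have := abs_sub (x (n + k + 1) ^ 2 + c + b * x (n + k)) (c + b * x (n + k))
        have h3 := abs_add_le c (b * x (n + k))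
        have h4 : |b * x (n + k)| = b * |x (n + k)| := by rw [abs_mul, abs_of_nonneg hb]
        have h5 : x (n + k + 1) ^ 2 + c + b * x (n + k) - (c + b * x (n + k))
            = x (n + k + 1) ^ 2 := by ring
        rw [h5] at this
        linarith
      rw [abs_pow] at t1
      have hc := abs_nonneg c
      nlinarith [mul_le_mul_of_nonneg_left ih2 hb, mul_le_mul_of_nonneg_right ih1
        (abs_nonneg (x (n + k + 1)))]
    refine ⟨⟨?_, ?_⟩, ?_⟩
    · rw [e]
      have := abs_nonneg (x (n + k + 1))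
      linarith
    · rw [e, e']
      have := abs_nonneg (x (n + k + 1))
      linarith
    · rw [e, pow_succ]
      nlinarith

/-- dichotomy: bounded or tending to infinity -/
lemma bdd_or_escape {b c : ℝ} (hb : 0 ≤ b) {x : ℕ → ℝ}
    (hx : ∀ n, x (n + 2) = x (n + 1) ^ 2 + c + b * x n) :
    (∃ M, ∀ n, |x n| ≤ M) ∨ Tendsto (fun n => |x n|) atTop atTop := by
  by_cases h : ∃ n, 2 + b + |c| ≤ |x (n + 1)| ∧ |x n| ≤ |x (n + 1)|
  · right
    obtain ⟨n, h1, h2⟩ := h
    have h3 := escape hb hx h1 h2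
    have h4 : Tendsto (fun k : ℕ => |x (k + (n + 1))|) atTop atTop := by
      have h5 : Tendsto (fun k : ℕ => (2:ℝ) ^ k * |x (n + 1)|) atTop atTop := by
        apply Tendsto.atTop_mul_const
        · have := abs_nonneg c
          linarith
        · exact tendsto_pow_atTop_atTop_of_one_lt (by norm_num)
      refine tendsto_atTop_mono (fun k => ?_) h5
      have := (h3 k).2
      rwa [add_comm (n + 1) k] at this
    exact (tendsto_add_atTop_iff_nat (n + 1)).1 h4
  · left
    push Not at h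
    refine ⟨max (2 + b + |c|) |x 0|, fun n => ?_⟩
    induction n with
    | zero => exact le_max_right _ _
    | succ n ih =>
      by_cases h1 : 2 + b + |c| ≤ |x (n + 1)|
      · exact (h n h1).le.trans ih
      · exact (not_le.1 h1).le.trans (le_max_left _ _)

/-- bounded forward orbits of the recursion eventually satisfy an explicit bound -/
lemma eventually_lt {b c : ℝ} (hb : 0 ≤ b) {x : ℕ → ℝ}
    (hx : ∀ n, x (n + 2) = x (n + 1) ^ 2 + c + b * x n) {M : ℝ} (hM : ∀ n, |x n| ≤ M) :
    ∃ N, ∀ n, N ≤ n → |x n| < 2 + b + |c| := by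
  have hno : ∀ n, 2 + b + |c| ≤ |x (n + 1)| → |x (n + 1)| < |x n| := by
    intro n h1
    by_contra h2
    push Not at h2
    have h3 := escape hb hx h1 h2
    have h5 : Tendsto (fun k : ℕ => (2:ℝ) ^ k * |x (n + 1)|) atTop atTop := by
      apply Tendsto.atTop_mul_const
      · have := abs_nonneg c
        linarith
      · exact tendsto_pow_atTop_atTop_of_one_lt (by norm_num)
    obtain ⟨k, hk⟩ := (h5.eventually (eventually_gt_atTop M)).exists
    linarith [(h3 k).2, hM (n + 1 + k)]
  have hstep : ∀ n, |x n| < 2 + b + |c| → |x (n + 1)| < 2 + b + |c| := by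
    intro n h1
    by_contra h2
    push Not at h2
    linarith [hno n h2]
  have hex : ∃ N, |x N| < 2 + b + |c| := by
    by_contra hcon
    push Not at hcon
    -- then |x| is strictly decreasing and bounded below by R0, contradiction via increments
    have hdec : ∀ n, |x (n + 1)| < |x n| := fun n => hno n (hcon (n + 1))
    have hc := abs_nonneg c
    -- |x (n+2)| ≥ |x(n+1)|^2 - |c| - b |x n|
    -- use limit
    have hanti : Antitone (fun n => |x n|) := antitone_nat_of_succ_le (fun n => (hdec n).le)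
    have hbb : BddBelow (range (fun n => |x n|)) := ⟨0, by rintro _ ⟨n, rfl⟩; exact abs_nonneg _⟩
    have hlim := tendsto_atTop_ciInf hanti hbb
    set L := ⨅ n, |x n| with hL
    have hLge : 2 + b + |c| ≤ L := le_ciInf hcon
    have h1 : Tendsto (fun n => |x (n + 1)|) atTop (𝓝 L) := hlim.comp (tendsto_add_atTop_nat 1)
    have h2 : Tendsto (fun n => |x (n + 2)|) atTop (𝓝 L) := hlim.comp (tendsto_add_atTop_nat 2)
    have h3 : ∀ n, |x (n + 1)| ^ 2 ≤ |x (n + 2)| + |c| + b * |x n| := by
      intro n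
      have := abs_sub (x (n + 1) ^ 2 + c + b * x n) (c + b * x n)
      have h3 := abs_add_le c (b * x n)
      have h4 : |b * x n| = b * |x n| := by rw [abs_mul, abs_of_nonneg hb]
      have h5 : x (n + 1) ^ 2 + c + b * x n - (c + b * x n) = x (n + 1) ^ 2 := by ring
      rw [h5, abs_pow, ← hx n] at this
      linarith
    have h4 : L ^ 2 ≤ L + |c| + b * L := by
      refine le_of_tendsto_of_tendsto' (h1.pow 2) ((h2.add tendsto_const_nhds).add
        (hlim.const_mul b)) h3
    nlinarith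
  obtain ⟨N, hN⟩ := hex
  refine ⟨N, fun n hn => ?_⟩
  induction n, hn using Nat.le_induction with
  | base => exact hN
  | succ n hn ih => exact hstep n ih

end Run7.h964
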