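import Mathlib
import Pool.Agent.Run7.h964.Base

set_option autoImplicit false

/-!
# Orbits that escape or are asymptotically periodic are statistical
-/

namespace Run7.h964

open Filter Topology MeasureTheory Set

lemma birkhoffAverage_eq (f : ℝ × ℝ → ℝ × ℝ) (φ : ℝ × ℝ → ℝ) (n : ℕ) (z : ℝ × ℝ) :
    birkhoffAverage ℝ f φ n z = (n : ℝ)⁻¹ * ∑ k ∈ Finset.range n, φ (f^[k] z) := by
  simp [birkhoffAverage, birkhoffSum, smul_eq_mul]

lemma cesaro_periodic {q : ℕ → ℝ} {p : ℕ} (hp : 0 < p) (hq : ∀ n, q (n + p) = q n) :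
    ∃ l : ℝ, Tendsto (fun n : ℕ => (n : ℝ)⁻¹ * ∑ i ∈ Finset.range n, q i) atTop (𝓝 l) := by
  set S : ℝ := ∑ i ∈ Finset.range p, q i with hS
  have hpR : (0 : ℝ) < p := by exact_mod_cast hp
  have hshift : ∀ n, ∑ i ∈ Finset.range p, q (n + i) = S := by
    intro n
    induction n with
    | zero => simp [hS]
    | succ n ih =>
      rw [← ih]
      have h1 : ∑ i ∈ Finset.range (p + 1), q (n + i) =
          ∑ i ∈ Finset.range p, q (n + i) + q (n + p) := Finset.sum_range_succ _ _
      have h2 : ∑ i ∈ Finset.range (p + 1), q (n + i) =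
          ∑ i ∈ Finset.range p, q (n + (i + 1)) + q (n + 0) := Finset.sum_range_succ' _ _
      have h3 : ∑ i ∈ Finset.range p, q (n + 1 + i) = ∑ i ∈ Finset.range p, q (n + (i + 1)) := by
        apply Finset.sum_congr rfl
        intro i _
        congr 1
        ring
      rw [h3]
      rw [hq n] at h1
      simp only [add_zero] at h2
      linarith
  set E : ℕ → ℝ := fun n => ∑ i ∈ Finset.range n, q i - n * (S / p) with hE
  have hEp : ∀ n, E (n + p) = E n := by
    intro n
    simp only [hE]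
    rw [Finset.sum_range_add]
    rw [hshift n]
    push_cast
    field_simp
    ring
  obtain ⟨B, hB⟩ : ∃ B, ∀ n, |E n| ≤ B := by
    refine ⟨∑ i ∈ Finset.range p, |E i|, fun n => ?_⟩
    have h1 : ∀ k r, E (r + k * p) = E r := by
      intro k r
      induction k with
      | zero => simp
      | succ k ih =>
        have : r + (k + 1) * p = (r + k * p) + p := by ring
        rw [this, hEp, ih]
    have h2 : E n = E (n % p) := by
      conv_lhs => rw [← Nat.mod_add_div n p, mul_comm]
      exact h1 _ _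
    rw [h2]
    exact Finset.single_le_sum (f := fun i => |E i|) (fun i _ => abs_nonneg _)
      (Finset.mem_range.2 (Nat.mod_lt n hp))
  refine ⟨S / p, ?_⟩
  have h0 : Tendsto (fun n : ℕ => (n : ℝ)⁻¹ * E n) atTop (𝓝 0) := by
    have h1 : Tendsto (fun n : ℕ => (n : ℝ)⁻¹ * B) atTop (𝓝 0) := by
      simpa using (tendsto_inv_atTop_nhds_zero_nat (𝕜 := ℝ)).mul_const B
    refine squeeze_zero_norm (fun n => ?_) h1
    rw [norm_mul, Real.norm_eq_abs, Real.norm_eq_abs, abs_of_nonneg (by positivity : (0:ℝ) ≤ (n:ℝ)⁻¹)]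
    exact mul_le_mul_of_nonneg_left (hB n) (by positivity)
  have h2 : Tendsto (fun n : ℕ => (n : ℝ)⁻¹ * E n + S / p) atTop (𝓝 (0 + S / p)) :=
    h0.add tendsto_const_nhds
  rw [zero_add] at h2
  refine h2.congr' ?_
  filter_upwards [eventually_gt_atTop 0] with n hn
  have hn' : (n : ℝ) ≠ 0 := by positivity
  simp only [hE]
  field_simp
  ring

/-- residue classes converge implies Cesàro means converge -/
lemma cesaro_of_classes {y : ℕ → ℝ} {p : ℕ} (hp : 0 < p) (L : ℕ → ℝ)
    (h : ∀ r < p, Tendsto (fun k => y (r + k * p)) atTop (𝓝 (L r))) :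
    ∃ l : ℝ, Tendsto (fun n : ℕ => (n : ℝ)⁻¹ * ∑ i ∈ Finset.range n, y i) atTop (𝓝 l) := by
  obtain ⟨l, hl⟩ := cesaro_periodic (q := fun n => L (n % p)) hp (fun n => by simp)
  refine ⟨l, ?_⟩
  have h1 : Tendsto (fun n => y n - L (n % p)) atTop (𝓝 0) := by
    rw [Metric.tendsto_atTop]
    intro ε hε
    have h2 : ∀ r, ∃ N, ∀ k ≥ N, r < p → dist (y (r + k * p)) (L r) < ε := by
      intro r
      by_cases hr : r < p
      · obtain ⟨N, hN⟩ := (Metric.tendsto_atTop.1 (h r hr)) ε hε
        exact ⟨N, fun k hk _ => hN k hk⟩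
      · exact ⟨0, fun k _ h => absurd h hr⟩
    choose N hN using h2
    refine ⟨(∑ r ∈ Finset.range p, N r) * p + p, fun n hn => ?_⟩
    have hr : n % p < p := Nat.mod_lt n hp
    have hk : N (n % p) ≤ n / p := by
      have h3 : N (n % p) ≤ ∑ r ∈ Finset.range p, N r :=
        Finset.single_le_sum (f := N) (fun i _ => Nat.zero_le _) (Finset.mem_range.2 hr)
      have h4 : ∑ r ∈ Finset.range p, N r ≤ n / p := by
        rw [Nat.le_div_iff_mul_le hp]
        omega
      exact h3.trans h4
    have := hN (n % p) (n / p) hk hr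
    have e : n % p + n / p * p = n := by
      rw [mul_comm]; exact Nat.mod_add_div n p
    rw [e] at this
    rw [Real.dist_eq] at this ⊢
    simpa using this
  have h2 := h1.cesaro
  have h3 := h2.add hl
  rw [zero_add] at h3
  refine h3.congr (fun n => ?_)
  rw [← mul_add, ← Finset.sum_add_distrib]
  congr 1
  apply Finset.sum_congr rfl
  intro i _
  ring

/-- asymptotically periodic orbits are statistical -/
lemma not_nonStat_of_classes {f : ℝ × ℝ → ℝ × ℝ} {z : ℝ × ℝ} {p : ℕ} (hp : 0 < p)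
    (P : ℕ → ℝ × ℝ) (h : ∀ r < p, Tendsto (fun k => f^[r + k * p] z) atTop (𝓝 (P r))) :
    ¬ NonStat f z := by
  rintro ⟨φ, hφ, -, hn⟩
  apply hn
  obtain ⟨l, hl⟩ := cesaro_of_classes (y := fun n => φ (f^[n] z)) hp (fun r => φ (P r))
    (fun r hr => (hφ.tendsto (P r)).comp (h r hr))
  exact ⟨l, hl.congr (fun n => (birkhoffAverage_eq f φ n z).symm)⟩

/-- escaping orbits are statistical -/
lemma not_nonStat_of_escape {f : ℝ × ℝ → ℝ × ℝ} {z : ℝ × ℝ}
    (h : Tendsto (fun n => |(f^[n] z).1|) atTop atTop) : ¬ NonStat f z := by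
  rintro ⟨φ, hφ, hc, hn⟩
  apply hn
  refine ⟨0, ?_⟩
  obtain ⟨R, hR⟩ := hc.isCompact.isBounded.subset_closedBall (0 : ℝ × ℝ)
  have h1 : Tendsto (fun n => φ (f^[n] z)) atTop (𝓝 0) := by
    apply tendsto_const_nhds.congr'
    filter_upwards [h.eventually (eventually_gt_atTop R)] with n hn
    symm
    by_contra h2
    have h3 : f^[n] z ∈ Metric.closedBall (0 : ℝ × ℝ) R := hR (subset_tsupport _ h2)
    rw [mem_closedBall_zero_iff] at h3
    have h4 : |(f^[n] z).1| ≤ ‖f^[n] z‖ := by
      rw [← Real.norm_eq_abs]; exact norm_fst_le _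
    linarith
  exact h1.cesaro.congr (fun n => (birkhoffAverage_eq f φ n z).symm)

/-- non-statistical points of a Hénon map have bounded forward orbit -/
lemma NonStat.bounded {a c : ℝ} {z : ℝ × ℝ} (h : NonStat (henon a c) z) :
    ∃ M, ∀ n, |xc a c z n| ≤ M := by
  rcases bdd_or_escape (sq_nonneg a) (xc_rec a c z) with h1 | h1
  · exact h1
  · exact absurd h (not_nonStat_of_escape h1)

/-- if the first coordinates converge along residue classes, the point is statistical -/
lemma not_nonStat_of_xc {a c : ℝ} {z : ℝ × ℝ} {p : ℕ} (hp : 0 < p)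
    (h : ∀ r, ∃ l, Tendsto (fun k => xc a c z (r + k * p)) atTop (𝓝 l)) :
    ¬ NonStat (henon a c) z := by
  choose l hl using h
  refine not_nonStat_of_classes (P := fun r => (l r, a * l (r + p - 1))) hp (fun r hr => ?_)
  have h1 : Tendsto (fun k => (xc a c z (r + k * p), a * xc a c z (r + p - 1 + (k - 1) * p))) atTop
      (𝓝 (l r, a * l (r + p - 1))) := by
    apply (hl r).prodMk_nhds
    apply Tendsto.const_mul
    exact (hl (r + p - 1)).comp (tendsto_sub_atTop_nat 1)
  refine h1.congr' ?_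
  filter_upwards [eventually_gt_atTop 0] with k hk
  obtain ⟨k, rfl⟩ := Nat.exists_eq_succ_of_ne_zero hk.ne'
  obtain ⟨q, rfl⟩ := Nat.exists_eq_succ_of_ne_zero hp.ne'
  have e : r + (k.succ) * q.succ = (r + q + k * q.succ) + 1 := by
    simp only [Nat.succ_eq_add_one]; ring
  have e2 : r + q.succ - 1 + (k.succ - 1) * q.succ = r + q + k * q.succ := by
    simp only [Nat.succ_eq_add_one]
    have : r + (q + 1) - 1 = r + q := by omega
    rw [this]
    simp
  rw [e2, e]
  exact (iter_eq a c z _).symm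

end Run7.h964
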