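import Mathlib
import Pool.Agent.Run7.h964.Stat

set_option autoImplicit false

/-!
# Lagged sums of one sign force convergence to a cycle
-/

namespace Run7.h964

open Filter Topology MeasureTheory Set

lemma conv_of_sign {x : ℕ → ℝ} {M : ℝ} (hM : ∀ n, |x n| ≤ M) {p : ℕ} (hp : 0 < p) {N : ℕ}
    {σ : ℕ → ℝ} (hσ : ∀ n, σ n = 1 ∨ σ n = -1) (hper : ∀ n, σ (n + p) = σ n)
    (h : ∀ n, N ≤ n → 0 ≤ σ n * (x (n + p) - x n)) (r : ℕ) :
    ∃ l, Tendsto (fun k => x (r + k * p)) atTop (𝓝 l) := by
  have hper' : ∀ k, σ (r + k * p) = σ r := by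
    intro k
    induction k with
    | zero => simp
    | succ k ih =>
      have : r + (k + 1) * p = (r + k * p) + p := by ring
      rw [this, hper, ih]
  have hσr : σ r * σ r = 1 := by rcases hσ r with h | h <;> rw [h] <;> norm_num
  set u : ℕ → ℝ := fun k => σ r * x (r + (k + N) * p) with hu
  have hmono : Monotone u := by
    apply monotone_nat_of_le_succ
    intro k
    simp only [hu]
    have h1 := h (r + (k + N) * p) (by nlinarith)
    rw [hper'] at h1
    have e : r + (k + 1 + N) * p = r + (k + N) * p + p := by ring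
    rw [e]
    nlinarith
  have hbdd : BddAbove (range u) := by
    refine ⟨M, ?_⟩
    rintro _ ⟨k, rfl⟩
    have h1 := abs_le.1 (hM (r + (k + N) * p))
    rcases hσ r with h | h <;> simp only [hu, h] <;> linarith
  have h1 := tendsto_atTop_ciSup hmono hbdd
  refine ⟨σ r * (⨆ i, u i), ?_⟩
  have h2 : Tendsto (fun k => σ r * u k) atTop (𝓝 (σ r * ⨆ i, u i)) := h1.const_mul _
  have h3 : Tendsto (fun k => x (r + (k + N) * p)) atTop (𝓝 (σ r * ⨆ i, u i)) := by
    refine h2.congr (fun k => ?_)
    simp only [hu]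
    rw [← mul_assoc, hσr, one_mul]
  exact (tendsto_add_atTop_iff_nat (f := fun k => x (r + k * p)) N).1 h3

/-- opposite signs persist under nonpositive coefficients -/
lemma alt_nonpos {b : ℝ} (hb : 0 ≤ b) {D s : ℕ → ℝ} {N : ℕ}
    (hD : ∀ n, N ≤ n → D (n + 2) = s (n + 1) * D (n + 1) + b * D n)
    (hs : ∀ n, N ≤ n → s n ≤ 0) {ε : ℝ} (h0 : 0 ≤ ε * D N) (h1 : ε * D (N + 1) ≤ 0) :
    ∀ j, 0 ≤ (-1) ^ j * (ε * D (N + j)) ∧ 0 ≤ (-1) ^ (j + 1) * (ε * D (N + (j + 1))) := by
  intro j
  induction j with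
  | zero => simpa using ⟨h0, h1⟩
  | succ j ih =>
    obtain ⟨ih1, ih2⟩ := ih
    refine ⟨ih2, ?_⟩
    have e : N + (j + 1 + 1) = (N + j) + 2 := by ring
    rw [e, hD (N + j) (by omega)]
    have e1 : N + j + 1 = N + (j + 1) := by ring
    rw [e1]
    have h3 := hs (N + (j + 1)) (by omega)
    have h4 : (-1 : ℝ) ^ (j + 1 + 1) = (-1) ^ j := by ring
    have h5 : (-1 : ℝ) ^ (j + 1) = - (-1) ^ j := by ring
    rw [h5] at ih2
    rw [h4]
    have h6 : (-1 : ℝ) ^ j * (ε * (s (N + (j + 1)) * D (N + (j + 1)) + b * D (N + j)))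
        = (-s (N + (j + 1))) * (-(-1) ^ j * (ε * D (N + (j + 1))))
          + b * ((-1) ^ j * (ε * D (N + j))) := by ring
    rw [h6]
    have := mul_nonneg (neg_nonneg.2 h3) ih2
    have := mul_nonneg hb ih1
    linarith

/-- equal signs persist under nonnegative coefficients -/
lemma same_nonneg {b : ℝ} (hb : 0 ≤ b) {D s : ℕ → ℝ} {N : ℕ}
    (hD : ∀ n, N ≤ n → D (n + 2) = s (n + 1) * D (n + 1) + b * D n)
    (hs : ∀ n, N ≤ n → 0 ≤ s n) {ε : ℝ} (h0 : 0 ≤ ε * D N) (h1 : 0 ≤ ε * D (N + 1)) :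
    ∀ j, 0 ≤ ε * D (N + j) ∧ 0 ≤ ε * D (N + (j + 1)) := by
  intro j
  induction j with
  | zero => simpa using ⟨h0, h1⟩
  | succ j ih =>
    obtain ⟨ih1, ih2⟩ := ih
    refine ⟨ih2, ?_⟩
    have e : N + (j + 1 + 1) = (N + j) + 2 := by ring
    rw [e, hD (N + j) (by omega)]
    have e1 : N + j + 1 = N + (j + 1) := by ring
    rw [e1]
    have h3 := hs (N + (j + 1)) (by omega)
    have h6 : ε * (s (N + (j + 1)) * D (N + (j + 1)) + b * D (N + j))
        = s (N + (j + 1)) * (ε * D (N + (j + 1))) + b * (ε * D (N + j)) := by ring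
    rw [h6]
    have := mul_nonneg h3 ih2
    have := mul_nonneg hb ih1
    linarith

lemma lag_rec {b c : ℝ} {x : ℕ → ℝ} (hx : ∀ n, x (n + 2) = x (n + 1) ^ 2 + c + b * x n)
    (p n : ℕ) : x (n + 2 + p) - x (n + 2) =
      (x (n + 1 + p) + x (n + 1)) * (x (n + 1 + p) - x (n + 1)) + b * (x (n + p) - x n) := by
  have e : n + 2 + p = (n + p) + 2 := by ring
  have e1 : n + 1 + p = (n + p) + 1 := by ring
  rw [e, e1, hx, hx]
  ring

/-- eventually nonpositive lagged sums, even lag -/
lemma conv_of_nonpos {b c : ℝ} (hb : 0 ≤ b) {x : ℕ → ℝ}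
    (hx : ∀ n, x (n + 2) = x (n + 1) ^ 2 + c + b * x n) {M : ℝ} (hM : ∀ n, |x n| ≤ M)
    {p : ℕ} (hp : 0 < p) (hev : Even p) {N : ℕ} (hs : ∀ n, N ≤ n → x (n + p) + x n ≤ 0) (r : ℕ) :
    ∃ l, Tendsto (fun k => x (r + k * p)) atTop (𝓝 l) := by
  have halt : ∀ n, N ≤ n → ∀ ε : ℝ, (ε = 1 ∨ ε = -1) → 0 ≤ ε * (x (n + p) - x n) →
      ε * (x (n + 1 + p) - x (n + 1)) ≤ 0 →
      ∃ l, Tendsto (fun k => x (r + k * p)) atTop (𝓝 l) := by
    intro n hn ε hε h0 h1
    have h2 := alt_nonpos (D := fun n => x (n + p) - x n) (s := fun n => x (n + p) + x n) hb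
      (N := n) (fun m _ => lag_rec hx p m) (fun m hm => hs m (hn.trans hm)) h0 h1
    refine conv_of_sign hM hp (N := n) (σ := fun m => (-1) ^ (m + n) * ε) ?_ ?_ ?_ r
    · intro m
      rcases neg_one_pow_eq_or ℝ (m + n) with h | h <;> rcases hε with h' | h' <;>
        simp [h, h']
    · intro m
      have : (-1 : ℝ) ^ (m + p + n) = (-1) ^ (m + n) := by
        have e : m + p + n = (m + n) + p := by ring
        rw [e, pow_add, hev.neg_one_pow, mul_one]
      simp only [this]
    · intro m hm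
      obtain ⟨j, rfl⟩ := Nat.exists_eq_add_of_le hm
      have h3 := (h2 j).1
      have e : (-1 : ℝ) ^ (n + j + n) = (-1) ^ j := by
        have e : n + j + n = j + 2 * n := by ring
        rw [e, pow_add, pow_mul]; norm_num
      simp only [e]
      rw [mul_assoc]
      exact h3
  by_cases hA : ∃ n, N ≤ n ∧ 0 ≤ x (n + p) - x n ∧ x (n + 1 + p) - x (n + 1) ≤ 0
  · obtain ⟨n, hn, h0, h1⟩ := hA
    exact halt n hn 1 (Or.inl rfl) (by linarith) (by linarith)
  by_cases hB : ∃ n, N ≤ n ∧ x (n + p) - x n ≤ 0 ∧ 0 ≤ x (n + 1 + p) - x (n + 1)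
  · obtain ⟨n, hn, h0, h1⟩ := hB
    exact halt n hn (-1) (Or.inr rfl) (by linarith) (by linarith)
  push Not at hA hB
  rcases le_total 0 (x (N + p) - x N) with h0 | h0
  · have : ∀ j, 0 ≤ x (N + j + p) - x (N + j) := by
      intro j
      induction j with
      | zero => simpa using h0
      | succ j ih =>
        have := hA (N + j) (by omega) ih
        have e : N + j + 1 = N + (j + 1) := by ring
        rw [e] at this
        exact this.le
    refine conv_of_sign hM hp (N := N) (σ := fun _ => 1) (fun _ => Or.inl rfl) (fun _ => rfl) ?_ r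
    intro n hn
    obtain ⟨j, rfl⟩ := Nat.exists_eq_add_of_le hn
    have := this j
    linarith
  · have : ∀ j, x (N + j + p) - x (N + j) ≤ 0 := by
      intro j
      induction j with
      | zero => simpa using h0
      | succ j ih =>
        have := hB (N + j) (by omega) ih
        have e : N + j + 1 = N + (j + 1) := by ring
        rw [e] at this
        exact this.le
    refine conv_of_sign hM hp (N := N) (σ := fun _ => -1) (fun _ => Or.inr rfl) (fun _ => rfl) ?_ r
    intro n hn
    obtain ⟨j, rfl⟩ := Nat.exists_eq_add_of_le hn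
    have := this j
    linarith

/-- eventually nonnegative lagged sums -/
lemma conv_of_nonneg {b c : ℝ} (hb : 0 ≤ b) {x : ℕ → ℝ}
    (hx : ∀ n, x (n + 2) = x (n + 1) ^ 2 + c + b * x n) {M : ℝ} (hM : ∀ n, |x n| ≤ M)
    {p : ℕ} (hp : 0 < p) (hev : Even p ∨ b < 1) {N : ℕ}
    (hs : ∀ n, N ≤ n → 0 ≤ x (n + p) + x n) (r : ℕ) :
    ∃ l, Tendsto (fun k => x (r + k * p)) atTop (𝓝 l) := by
  have hsame : ∀ n, N ≤ n → ∀ ε : ℝ, (ε = 1 ∨ ε = -1) → 0 ≤ ε * (x (n + p) - x n) →
      0 ≤ ε * (x (n + 1 + p) - x (n + 1)) →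
      ∃ l, Tendsto (fun k => x (r + k * p)) atTop (𝓝 l) := by
    intro n hn ε hε h0 h1
    have h2 := same_nonneg (D := fun n => x (n + p) - x n) (s := fun n => x (n + p) + x n) hb
      (N := n) (fun m _ => lag_rec hx p m) (fun m hm => hs m (hn.trans hm)) h0 h1
    refine conv_of_sign hM hp (N := n) (σ := fun m => ε) (fun _ => hε) (fun _ => rfl) ?_ r
    intro m hm
    obtain ⟨j, rfl⟩ := Nat.exists_eq_add_of_le hm
    exact (h2 j).1
  by_cases hA : ∃ n, N ≤ n ∧ 0 ≤ x (n + p) - x n ∧ 0 ≤ x (n + 1 + p) - x (n + 1)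
  · obtain ⟨n, hn, h0, h1⟩ := hA
    exact hsame n hn 1 (Or.inl rfl) (by linarith) (by linarith)
  by_cases hB : ∃ n, N ≤ n ∧ x (n + p) - x n ≤ 0 ∧ x (n + 1 + p) - x (n + 1) ≤ 0
  · obtain ⟨n, hn, h0, h1⟩ := hB
    exact hsame n hn (-1) (Or.inr rfl) (by linarith) (by linarith)
  push Not at hA hB
  -- strictly alternating signs
  have halt : ∀ n, N ≤ n → (0 < x (n + p) - x n ∧ x (n + 1 + p) - x (n + 1) < 0) ∨
      (x (n + p) - x n < 0 ∧ 0 < x (n + 1 + p) - x (n + 1)) := by
    intro n hn
    rcases lt_trichotomy 0 (x (n + p) - x n) with h | h | h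
    · exact Or.inl ⟨h, hA n hn h.le⟩
    · have h1 := hA n hn h.le
      have h2 := hB n hn h.symm.le
      linarith
    · exact Or.inr ⟨h, hB n hn h.le⟩
  rcases hev with hev | hb1
  · -- even lag: classes are monotone
    obtain ⟨ε, hε, h0⟩ : ∃ ε : ℝ, (ε = 1 ∨ ε = -1) ∧ 0 < ε * (x (N + p) - x N) := by
      rcases halt N le_rfl with h | h
      · exact ⟨1, Or.inl rfl, by linarith [h.1]⟩
      · exact ⟨-1, Or.inr rfl, by linarith [h.1]⟩
    have h2 : ∀ j, 0 < (-1) ^ j * (ε * (x (N + j + p) - x (N + j))) := by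
      intro j
      induction j with
      | zero => simpa using h0
      | succ j ih =>
        have e : N + (j + 1) = N + j + 1 := by ring
        rw [e, pow_succ]
        rcases halt (N + j) (by omega) with h | h <;> rcases hε with h' | h' <;>
          rcases neg_one_pow_eq_or ℝ j with h'' | h'' <;> rw [h', h''] at ih ⊢ <;> nlinarith [h.1, h.2]
    refine conv_of_sign hM hp (N := N) (σ := fun m => (-1) ^ (m + N) * ε) ?_ ?_ ?_ r
    · intro m
      rcases neg_one_pow_eq_or ℝ (m + N) with h | h <;> rcases hε with h' | h' <;>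
        simp [h, h']
    · intro m
      have : (-1 : ℝ) ^ (m + p + N) = (-1) ^ (m + N) := by
        have e : m + p + N = (m + N) + p := by ring
        rw [e, pow_add, hev.neg_one_pow, mul_one]
      simp only [this]
    · intro m hm
      obtain ⟨j, rfl⟩ := Nat.exists_eq_add_of_le hm
      have h3 := (h2 j).le
      have e : (-1 : ℝ) ^ (N + j + N) = (-1) ^ j := by
        have e : N + j + N = j + 2 * N := by ring
        rw [e, pow_add, pow_mul]; norm_num
      simp only [e]
      rw [mul_assoc]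
      exact h3
  · -- geometric decay
    have hdec : ∀ n, N ≤ n → |x (n + 2 + p) - x (n + 2)| ≤ b * |x (n + p) - x n| := by
      intro n hn
      have h1 := lag_rec hx p n
      have hsn := hs (n + 1) (by omega)
      rcases halt n hn with h | h
      · have h' := halt (n + 1) (by omega)
        have h2 : 0 < x (n + 2 + p) - x (n + 2) := by
          rcases h' with h' | h'
          · linarith [h'.1, h.2]
          · exact h'.2
        rw [abs_of_pos h2, abs_of_pos h.1, h1]
        have h3 := mul_nonneg hsn (neg_pos.2 h.2).le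
        nlinarith
      · have h' := halt (n + 1) (by omega)
        have h2 : x (n + 2 + p) - x (n + 2) < 0 := by
          rcases h' with h' | h'
          · exact h'.2
          · linarith [h'.1, h.2]
        rw [abs_of_neg h2, abs_of_neg h.1, h1]
        have h3 := mul_nonneg hsn h.2.le
        nlinarith
    -- bound by geometric sequence with ratio √b
    set q : ℝ := Real.sqrt b with hq
    have hq0 : 0 ≤ q := Real.sqrt_nonneg b
    have hqq : q * q = b := Real.mul_self_sqrt hb
    have hq1 : q < 1 := by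
      rw [hq, Real.sqrt_lt' one_pos]; simpa using hb1
    by_cases hqz : q = 0
    · -- b = 0
      have hb0 : b = 0 := by rw [← hqq, hqz]; ring
      have h4 : ∀ n, N + 2 ≤ n → x (n + p) - x n = 0 := by
        intro n hn
        obtain ⟨m, rfl⟩ := Nat.exists_eq_add_of_le hn
        have h5 := hdec (N + m) (by omega)
        rw [hb0, zero_mul] at h5
        have e : N + 2 + m = N + m + 2 := by ring
        rw [e]
        exact abs_nonpos_iff.1 h5
      refine conv_of_sign hM hp (N := N + 2) (σ := fun _ => 1) (fun _ => Or.inl rfl)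
        (fun _ => rfl) ?_ r
      intro n hn
      rw [h4 n hn]; simp
    have hqpos : 0 < q := lt_of_le_of_ne hq0 (Ne.symm hqz)
    obtain ⟨C, hC0, hC⟩ : ∃ C, 0 ≤ C ∧ ∀ j, |x (N + j + p) - x (N + j)| ≤ C * q ^ j := by
      refine ⟨|x (N + p) - x N| + |x (N + 1 + p) - x (N + 1)| / q, by positivity, ?_⟩
      intro j
      induction j using Nat.twoStepInduction with
      | zero => simp; positivity
      | one =>
        have : |x (N + 1 + p) - x (N + 1)| / q * q = |x (N + 1 + p) - x (N + 1)| := by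
          field_simp
        rw [pow_one, add_mul, this]
        have : 0 ≤ |x (N + p) - x N| * q := by positivity
        linarith
      | more j ih1 ih2 =>
        have h5 := hdec (N + j) (by omega)
        have e : N + (j + 2) = N + j + 2 := by ring
        rw [e]
        calc |x (N + j + 2 + p) - x (N + j + 2)| ≤ b * |x (N + j + p) - x (N + j)| := h5
          _ ≤ b * ((|x (N + p) - x N| + |x (N + 1 + p) - x (N + 1)| / q) * q ^ j) :=
              mul_le_mul_of_nonneg_left ih1 hb
          _ = _ := by rw [← hqq]; ring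
    have hqp1 : q ^ p < 1 := pow_lt_one₀ hq0 hq1 hp.ne'
    have hcau : CauchySeq (fun k => x (r + (k + N) * p)) := by
      refine cauchySeq_of_le_geometric (q ^ p) C hqp1 (fun k => ?_)
      have e : r + (k + 1 + N) * p = r + (k + N) * p + p := by ring
      rw [e, Real.dist_eq, abs_sub_comm]
      have hge : N + k * p ≤ r + (k + N) * p := by nlinarith
      obtain ⟨m, hm⟩ := Nat.exists_eq_add_of_le hge
      have h6 := hC (k * p + m)
      have e2 : N + (k * p + m) = r + (k + N) * p := by omega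
      rw [e2] at h6
      refine h6.trans ?_
      rw [← pow_mul, mul_comm p k]
      apply mul_le_mul_of_nonneg_left _ hC0
      exact pow_le_pow_of_le_one hq0 hq1.le (Nat.le_add_right _ _)
    obtain ⟨l, hl⟩ := cauchySeq_tendsto_of_complete hcau
    exact ⟨l, (tendsto_add_atTop_iff_nat (f := fun k => x (r + k * p)) N).1 hl⟩

end Run7.h964
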