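import Mathlib
import Pool.Agent.Run7.h964.Lag

set_option autoImplicit false

/-!
# The parameter region `c > -(1-a²)²`
-/

namespace Run7.h964

open Filter Topology MeasureTheory Set

section

variable {b c : ℝ} {x : ℕ → ℝ}

/-- lower bound for all orbits -/
lemma lower_bound (hb : 0 ≤ b) (hb1 : b < 1)
    (hx : ∀ n, x (n + 2) = x (n + 1) ^ 2 + c + b * x n) {ε : ℝ} (hε : 0 < ε) :
    ∀ᶠ n in atTop, c / (1 - b) - ε < x n := by
  set m := c / (1 - b) with hm
  have hmb : c + b * m = m := by
    rw [hm]; field_simp [(by linarith : (1:ℝ) - b ≠ 0)]; ring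
  have h1 : ∀ n k, b ^ k * (x n - m) ≤ x (n + 2 * k) - m := by
    intro n k
    induction k with
    | zero => simp
    | succ k ih =>
      have e : n + 2 * (k + 1) = (n + 2 * k) + 2 := by ring
      rw [e, hx, pow_succ]
      have := mul_le_mul_of_nonneg_left ih hb
      nlinarith [sq_nonneg (x (n + 2 * k + 1))]
  have h2 : Tendsto (fun k : ℕ => b ^ k * (-(|x 0 - m| + |x 1 - m|))) atTop (𝓝 0) := by
    simpa using (tendsto_pow_atTop_nhds_zero_of_lt_one hb hb1).mul_const (-(|x 0 - m| + |x 1 - m|))
  have h3 : ∀ᶠ k : ℕ in atTop, -ε < b ^ k * (-(|x 0 - m| + |x 1 - m|)) :=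
    h2.eventually (lt_mem_nhds (by linarith))
  obtain ⟨K, hK⟩ := eventually_atTop.1 h3
  rw [eventually_atTop]
  refine ⟨2 * K + 2, fun n hn => ?_⟩
  rcases Nat.even_or_odd' n with ⟨k, hk | hk⟩
  · have h4 := h1 0 k
    have h5 := hK k (by omega)
    have e : 0 + 2 * k = n := by omega
    rw [e] at h4
    have h6 : b ^ k * (-(|x 0 - m| + |x 1 - m|)) ≤ b ^ k * (x 0 - m) := by
      apply mul_le_mul_of_nonneg_left _ (pow_nonneg hb k)
      have := neg_abs_le (x 0 - m)
      have := abs_nonneg (x 1 - m)
      linarith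
    linarith
  · have h4 := h1 1 k
    have h5 := hK k (by omega)
    have e : 1 + 2 * k = n := by omega
    rw [e] at h4
    have h6 : b ^ k * (-(|x 0 - m| + |x 1 - m|)) ≤ b ^ k * (x 1 - m) := by
      apply mul_le_mul_of_nonneg_left _ (pow_nonneg hb k)
      have := neg_abs_le (x 1 - m)
      have := abs_nonneg (x 0 - m)
      linarith
    linarith

/-- orbits above the larger fixed point converge to it when bounded -/
lemma above_fixed (hb : 0 ≤ b) (hx : ∀ n, x (n + 2) = x (n + 1) ^ 2 + c + b * x n)
    {M : ℝ} (hM : ∀ n, |x n| ≤ M) {T : ℝ} (hT : T ^ 2 = (1 - b) * T - c) (hT1 : 1 - b < 2 * T)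
    (hT0 : 0 ≤ T) {n : ℕ} (h0 : T ≤ x n) (h1 : T ≤ x (n + 1)) : Tendsto x atTop (𝓝 T) := by
  have hge : ∀ k, T ≤ x (n + k) ∧ T ≤ x (n + k + 1) := by
    intro k
    induction k with
    | zero => exact ⟨h0, h1⟩
    | succ k ih =>
      refine ⟨ih.2, ?_⟩
      have e : n + (k + 1) + 1 = (n + k) + 2 := by ring
      rw [e, hx]
      nlinarith [mul_le_mul_of_nonneg_left ih.1 hb, ih.2]
  set V : ℕ → ℝ := fun k => x (n + k + 1) + b * x (n + k) with hV
  have hinc : ∀ k, V (k + 1) - V k = (x (n + k + 1) - T) * (x (n + k + 1) + T - (1 - b)) := by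
    intro k
    simp only [hV]
    have e : n + (k + 1) + 1 = (n + k) + 2 := by ring
    have e1 : n + (k + 1) = n + k + 1 := by ring
    rw [e, e1, hx]
    linear_combination hT
  have hinc' : ∀ k, (2 * T - (1 - b)) * (x (n + k + 1) - T) ≤ V (k + 1) - V k := by
    intro k
    rw [hinc]
    nlinarith [(hge k).2]
  have hmono : Monotone V := by
    apply monotone_nat_of_le_succ
    intro k
    have := hinc' k
    nlinarith [(hge k).2]
  have hbdd : BddAbove (range V) := by
    refine ⟨M + b * M, ?_⟩
    rintro _ ⟨k, rfl⟩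
    simp only [hV]
    have h3 := (abs_le.1 (hM (n + k + 1))).2
    have h4 := (abs_le.1 (hM (n + k))).2
    nlinarith
  have h2 := tendsto_atTop_ciSup hmono hbdd
  have h3 : Tendsto (fun k => V (k + 1) - V k) atTop (𝓝 0) := by
    have := (h2.comp (tendsto_add_atTop_nat 1)).sub h2
    simpa using this
  have h4 : Tendsto (fun k => x (n + k + 1) - T) atTop (𝓝 0) := by
    have h5 : Tendsto (fun k => (2 * T - (1 - b))⁻¹ * (V (k + 1) - V k)) atTop (𝓝 0) := by
      simpa using h3.const_mul ((2 * T - (1 - b))⁻¹)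
    refine squeeze_zero (fun k => by linarith [(hge k).2]) (fun k => ?_) h5
    rw [le_inv_mul_iff₀ (by linarith)]
    exact hinc' k
  have h5 : Tendsto (fun k => x (n + k + 1)) atTop (𝓝 T) := by
    have := h4.add_const T
    simpa using this
  have h6 : Tendsto (fun k => x (k + (n + 1))) atTop (𝓝 T) := by
    refine h5.congr (fun k => ?_)
    congr 1
    ring
  exact (tendsto_add_atTop_iff_nat (n + 1)).1 h6

/-- bounded orbits, case `-(1-b)² < c ≤ 0` -/
lemma region_nonpos (hb : 0 < b) (hb1 : b < 1) (hc : -(1 - b) ^ 2 < c) (hc0 : c ≤ 0)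
    (hx : ∀ n, x (n + 2) = x (n + 1) ^ 2 + c + b * x n) {M₀ : ℝ} (hM₀ : ∀ n, |x n| ≤ M₀) :
    (∃ l, Tendsto x atTop (𝓝 l)) ∨ ∀ᶠ n in atTop, x n ≤ 0 := by
  set m := c / (1 - b) with hm
  have h1b : 0 < 1 - b := by linarith
  have hmb : c = (1 - b) * m := by rw [hm]; field_simp
  have hm0 : m ≤ 0 := div_nonpos_of_nonpos_of_nonneg hc0 h1b.le
  have hm1 : -(1 - b) < m := by
    have : -(1 - b) ^ 2 < (1 - b) * m := hmb ▸ hc
    nlinarith
  set s := Real.sqrt ((1 - b) ^ 2 - 4 * c) with hs
  have hdisc : 0 ≤ (1 - b) ^ 2 - 4 * c := by nlinarith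
  have hs2 : s ^ 2 = (1 - b) ^ 2 - 4 * c := Real.sq_sqrt hdisc
  have hs0 : 0 ≤ s := Real.sqrt_nonneg _
  have hs1 : 1 - b ≤ s := by
    apply Real.le_sqrt_of_sq_le
    linarith
  set T := ((1 - b) + s) / 2 with hT
  have hT2 : T ^ 2 = (1 - b) * T - c := by
    rw [hT]; nlinarith
  have hT1 : 1 - b ≤ T := by rw [hT]; linarith
  have hTpos : 0 < T := by linarith
  -- limsup
  obtain ⟨M, hMup, hMfr⟩ : ∃ M, (∀ ε > 0, ∀ᶠ n in atTop, x n < M + ε) ∧
      (∀ ε > 0, ∃ᶠ n in atTop, M - ε < x n) := by
    have hbd1 : IsBoundedUnder (· ≤ ·) atTop x :=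
      ⟨M₀, eventually_map.2 (Eventually.of_forall fun n => (abs_le.1 (hM₀ n)).2)⟩
    have hbd2 : IsBoundedUnder (· ≥ ·) atTop x :=
      ⟨-M₀, eventually_map.2 (Eventually.of_forall fun n => (abs_le.1 (hM₀ n)).1)⟩
    refine ⟨limsup x atTop, fun ε hε => ?_, fun ε hε => ?_⟩
    · exact eventually_lt_of_limsup_lt (by linarith) hbd1
    · exact frequently_lt_of_lt_limsup (hbd2.isCoboundedUnder_le) (by linarith)
  have hlow : ∀ ε > 0, ∀ᶠ n in atTop, m - ε < x n := fun ε hε => lower_bound hb.le hb1 hx hε
  have shift1 : ∀ {P : ℕ → Prop}, (∀ᶠ n in atTop, P n) → ∀ᶠ n in atTop, P (n + 1) := fun h =>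
    (tendsto_add_atTop_nat 1).eventually h
  have shift2 : ∀ {P : ℕ → Prop}, (∀ᶠ n in atTop, P n) → ∀ᶠ n in atTop, P (n + 2) := fun h =>
    (tendsto_add_atTop_nat 2).eventually h
  have freq2 : ∀ {P : ℕ → Prop}, (∃ᶠ n in atTop, P n) → ∃ᶠ n in atTop, P (n + 2) := by
    intro P h
    rw [frequently_atTop] at h ⊢
    intro a
    obtain ⟨n, hn, hP⟩ := h (a + 2)
    refine ⟨n - 2, by omega, ?_⟩
    have : n - 2 + 2 = n := by omega
    rwa [this]
  by_cases hab : ∃ n, T ≤ x n ∧ T ≤ x (n + 1)
  · obtain ⟨n, h0, h1⟩ := hab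
    exact Or.inl ⟨T, above_fixed hb.le hx hM₀ hT2 (by linarith) hTpos.le h0 h1⟩
  push Not at hab
  -- M ≤ T
  have hMT : M ≤ T := by
    by_contra hcon
    push Not at hcon
    -- choose ε
    obtain ⟨ε, hε, hε1, hε2, hε3⟩ : ∃ ε : ℝ, 0 < ε ∧ ε < M - T ∧ (1 + b) * ε < (1 - b) * (M - T) ∧
        ε < T + m := by
      refine ⟨min (min ((M - T) / 2) ((1 - b) * (M - T) / (2 * (1 + b)))) ((T + m) / 2), ?_, ?_, ?_, ?_⟩
      · have h1 : 0 < (M - T) / 2 := by linarith
        have h2 : 0 < (1 - b) * (M - T) / (2 * (1 + b)) :=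
          div_pos (mul_pos h1b (by linarith)) (by linarith)
        have h3 : 0 < (T + m) / 2 := by linarith
        exact lt_min (lt_min h1 h2) h3
      · have := min_le_left (min ((M - T) / 2) ((1 - b) * (M - T) / (2 * (1 + b)))) ((T + m) / 2)
        have := min_le_left ((M - T) / 2) ((1 - b) * (M - T) / (2 * (1 + b)))
        linarith
      · have h1 := min_le_left (min ((M - T) / 2) ((1 - b) * (M - T) / (2 * (1 + b)))) ((T + m) / 2)
        have h2 := min_le_right ((M - T) / 2) ((1 - b) * (M - T) / (2 * (1 + b)))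
        have h3 : (1 + b) * ((1 - b) * (M - T) / (2 * (1 + b))) = (1 - b) * (M - T) / 2 := by
          field_simp
        have h4 : 0 < (1 - b) * (M - T) := mul_pos h1b (by linarith)
        have h5 := mul_le_mul_of_nonneg_left (h1.trans h2) (by linarith : (0:ℝ) ≤ 1 + b)
        linarith
      · have := min_le_right (min ((M - T) / 2) ((1 - b) * (M - T) / (2 * (1 + b)))) ((T + m) / 2)
        linarith
    have hf := freq2 (hMfr ε hε)
    obtain ⟨n, hn1, hn2, hn3⟩ := (hf.and_eventually
      ((hMup ε hε).and (shift1 (hlow ε hε)))).exists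
    have e := hx n
    have h5 : T ^ 2 < x (n + 1) ^ 2 := by nlinarith
    have h6 : T < x (n + 1) := by
      by_contra h7
      push Not at h7
      nlinarith
    have h8 : T < x (n + 2) := by linarith
    have := hab (n + 1) h6.le
    linarith
  rcases lt_or_eq_of_le hMT with hlt | heq
  · -- M < T
    have key : ∀ ε > 0, M - ε ≤ max ((M + ε) ^ 2) ((m - ε) ^ 2) + c + b * (M + ε) := by
      intro ε hε
      have hf := freq2 (hMfr ε hε)
      obtain ⟨n, hn1, hn2, hn3, hn4⟩ := (hf.and_eventually
        ((hMup ε hε).and ((shift1 (hlow ε hε)).and (shift1 (hMup ε hε))))).exists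
      have e := hx n
      have h5 : x (n + 1) ^ 2 ≤ max ((M + ε) ^ 2) ((m - ε) ^ 2) := by
        rcases le_total 0 (x (n + 1)) with h | h
        · refine le_max_of_le_left ?_
          nlinarith
        · refine le_max_of_le_right ?_
          nlinarith
      nlinarith
    have key2 : M ≤ max (M ^ 2) (m ^ 2) + c + b * M := by
      have h1 : Tendsto (fun ε : ℝ => M - ε) (𝓝[>] 0) (𝓝 (M - 0)) :=
        ((continuous_const.sub continuous_id).tendsto 0).mono_left nhdsWithin_le_nhds
      have h2 : Tendsto (fun ε : ℝ => max ((M + ε) ^ 2) ((m - ε) ^ 2) + c + b * (M + ε)) (𝓝[>] 0)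
          (𝓝 (max ((M + 0) ^ 2) ((m - 0) ^ 2) + c + b * (M + 0))) := by
        have : Continuous (fun ε : ℝ => max ((M + ε) ^ 2) ((m - ε) ^ 2) + c + b * (M + ε)) := by
          fun_prop
        exact (this.tendsto 0).mono_left nhdsWithin_le_nhds
      have h3 := le_of_tendsto_of_tendsto h1 h2 (by
        filter_upwards [self_mem_nhdsWithin] with ε hε
        exact key ε hε)
      simpa using h3
    have hfact : M ^ 2 - (1 - b) * M + c = (M - T) * (M - ((1 - b) - T)) := by
      linear_combination hT2
    rcases lt_or_eq_of_le hc0 with hcneg | hc00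
    · -- c < 0
      have hTx : (1 - b) - T < 0 := by
        have : 1 - b < s := by
          apply Real.lt_sqrt_of_sq_lt
          linarith
        rw [hT]; linarith
      have hMneg : M < 0 := by
        rcases le_total (m ^ 2) (M ^ 2) with h | h
        · rw [max_eq_left h] at key2
          have h1 : 0 ≤ (M - T) * (M - ((1 - b) - T)) := by rw [← hfact]; linarith
          by_contra h2
          push Not at h2
          have : (M - T) * (M - ((1 - b) - T)) < 0 :=
            mul_neg_of_neg_of_pos (by linarith) (by linarith)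
          linarith
        · rw [max_eq_right h] at key2
          have h1 : m ^ 2 + c < 0 := by
            have : m ^ 2 + c = m * (m + (1 - b)) := by rw [hmb]; ring
            rw [this]
            have hmneg : m < 0 := div_neg_of_neg_of_pos hcneg h1b
            exact mul_neg_of_neg_of_pos hmneg (by linarith)
          by_contra h2
          push Not at h2
          nlinarith
      right
      filter_upwards [hMup (-M) (by linarith)] with n hn
      linarith
    · -- c = 0
      have hm00 : m = 0 := by rw [hm, hc00]; simp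
      have hM0 : M ≤ 0 := by
        have h : m ^ 2 ≤ M ^ 2 := by rw [hm00]; nlinarith [sq_nonneg M]
        rw [max_eq_left h] at key2
        have hTe : T = 1 - b := by
          have : T * (T - (1 - b)) = 0 := by rw [hc00] at hT2; linarith
          rcases mul_eq_zero.1 this with h | h
          · linarith
          · linarith
        have h1 : 0 ≤ (M - T) * (M - ((1 - b) - T)) := by rw [← hfact]; linarith
        by_contra h2
        push Not at h2
        have : (M - T) * (M - ((1 - b) - T)) < 0 :=
          mul_neg_of_neg_of_pos (by linarith) (by linarith)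
        linarith
      left
      refine ⟨0, ?_⟩
      rw [tendsto_order]
      constructor
      · intro y hy
        filter_upwards [hlow (-y) (by linarith)] with n hn
        linarith
      · intro y hy
        filter_upwards [hMup y hy] with n hn
        linarith
  · -- M = T : convergence to T
    left
    refine ⟨T, ?_⟩
    -- for t < T close, eventually max > t
    have hmax : ∀ t, t < T → 0 < t → ∀ᶠ n in atTop, t < x n ∨ t < x (n + 1) := by
      intro t ht ht0
      by_contra hcon
      rw [not_eventually] at hcon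
      obtain ⟨η, hη, hη1⟩ : ∃ η : ℝ, 0 < η ∧ (m - η) ^ 2 + c ≤ (1 - b) * t := by
        have h1 : Tendsto (fun η : ℝ => (m - η) ^ 2 + c) (𝓝[>] 0) (𝓝 ((m - 0) ^ 2 + c)) := by
          have : Continuous (fun η : ℝ => (m - η) ^ 2 + c) := by fun_prop
          exact (this.tendsto 0).mono_left nhdsWithin_le_nhds
        have h2 : (m - 0) ^ 2 + c < (1 - b) * t := by
          have : (m - 0) ^ 2 + c = m * (m + (1 - b)) := by rw [hmb]; ring
          rw [this]
          have h3 : m * (m + (1 - b)) ≤ 0 := mul_nonpos_of_nonpos_of_nonneg hm0 (by linarith)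
          have := mul_pos h1b ht0
          linarith
        obtain ⟨η, h3, h4⟩ := ((h1.eventually (gt_mem_nhds h2)).and self_mem_nhdsWithin).exists
        exact ⟨η, h4, h3.le⟩
      obtain ⟨n₀, hn₀⟩ := eventually_atTop.1 (hlow η hη)
      obtain ⟨n₁, hn₁, hP⟩ := (frequently_atTop.1 hcon) n₀
      push Not at hP
      have hinv : ∀ k, x (n₁ + k) ≤ t ∧ x (n₁ + k + 1) ≤ t := by
        intro k
        induction k with
        | zero => exact hP
        | succ k ih =>
          refine ⟨ih.2, ?_⟩
          have e : n₁ + (k + 1) + 1 = (n₁ + k) + 2 := by ring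
          rw [e, hx]
          have hl := hn₀ (n₁ + k + 1) (by omega)
          have hb' := mul_le_mul_of_nonneg_left ih.1 hb.le
          rcases le_total 0 (x (n₁ + k + 1)) with h | h
          · have h5 : x (n₁ + k + 1) ^ 2 ≤ t ^ 2 := by nlinarith [ih.2]
            have h6 : t ^ 2 - (1 - b) * t + c ≤ 0 := by
              have : t ^ 2 - (1 - b) * t + c = (t - T) * (t - ((1 - b) - T)) := by
                linear_combination hT2
              rw [this]
              exact mul_nonpos_of_nonpos_of_nonneg (by linarith) (by linarith)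
            linarith
          · have h5 : x (n₁ + k + 1) ^ 2 ≤ (m - η) ^ 2 := by nlinarith
            linarith
      obtain ⟨n, hn, hn'⟩ := (frequently_atTop.1 (hMfr (T - t) (by linarith))) n₁
      obtain ⟨k, rfl⟩ := Nat.exists_eq_add_of_le hn
      have := (hinv k).1
      rw [heq] at hn'
      linarith
    rw [tendsto_order]
    constructor
    · intro y hy
      -- choose t and ε
      have h1 : (max y 0) ^ 2 < T ^ 2 := by
        have h2 : max y 0 < T := max_lt hy hTpos
        have h3 : 0 ≤ max y 0 := le_max_right _ _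
        exact pow_lt_pow_left₀ h2 h3 two_ne_zero
      have h1' : (m - 0) ^ 2 < (T - 0) - c - b * (T + 0) := by
        have h2 : (T - 0) - c - b * (T + 0) = T ^ 2 := by rw [hT2]; ring
        rw [h2]
        exact sq_lt_sq' (by linarith) (by linarith)
      have hcont : Tendsto (fun ε : ℝ => (T - ε) - c - b * (T + ε)) (𝓝[>] 0)
          (𝓝 ((T - 0) - c - b * (T + 0))) := by
        have : Continuous (fun ε : ℝ => (T - ε) - c - b * (T + ε)) := by fun_prop
        exact (this.tendsto 0).mono_left nhdsWithin_le_nhds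
      have hcont' : Tendsto (fun ε : ℝ => (m - ε) ^ 2) (𝓝[>] 0) (𝓝 ((m - 0) ^ 2)) := by
        have : Continuous (fun ε : ℝ => (m - ε) ^ 2) := by fun_prop
        exact (this.tendsto 0).mono_left nhdsWithin_le_nhds
      have h4 : (max y 0) ^ 2 < (T - 0) - c - b * (T + 0) := by
        have : (T - 0) - c - b * (T + 0) = T ^ 2 := by rw [hT2]; ring
        rwa [this]
      have hc1 : Tendsto (fun ε : ℝ => ε) (𝓝[>] (0:ℝ)) (𝓝 0) := nhdsWithin_le_nhds
      obtain ⟨ε, h5, h6, h7, h8, h9⟩ := ((hcont.eventually (lt_mem_nhds h4)).and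
        ((hc1.eventually (gt_mem_nhds hTpos)).and
        ((hc1.eventually (gt_mem_nhds (show 0 < T - y by linarith))).and
        ((hcont'.eventually_lt hcont h1').and self_mem_nhdsWithin)))).exists
      have hε : (0:ℝ) < ε := h9
      have htT : T - ε < T := by linarith
      have ht0 : 0 < T - ε := by linarith
      filter_upwards [hmax _ htT ht0, shift1 (hlow ε hε), (tendsto_sub_atTop_nat 1).eventually
          ((hmax _ htT ht0).and ((hMup ε hε).and (shift1 (hlow ε hε)))), eventually_gt_atTop 0]
        with n h10 h11 h12 hn0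
      obtain ⟨k, rfl⟩ := Nat.exists_eq_succ_of_ne_zero hn0.ne'
      simp only [Nat.succ_eq_add_one, Nat.add_sub_cancel] at h10 h11 h12 ⊢
      obtain ⟨h13, h14, h15⟩ := h12
      by_contra hcon
      push Not at hcon
      -- x (k+1) ≤ y < t, so x k > t and x (k+2) > t
      have h17 : T - ε < x (k + 2) := by rcases h10 with h | h <;> linarith
      have e := hx k
      rw [heq] at h14
      have hbx : b * x k ≤ b * (T + ε) := mul_le_mul_of_nonneg_left h14.le hb.le
      have h18 : (T - ε) - c - b * (T + ε) < x (k + 1) ^ 2 := by linarith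
      rcases le_or_gt 0 (x (k + 1)) with h | h
      · have h19 : x (k + 1) ≤ max y 0 := hcon.trans (le_max_left _ _)
        have h20 : x (k + 1) ^ 2 ≤ (max y 0) ^ 2 := pow_le_pow_left₀ h h19 2
        linarith
      · have h20 : x (k + 1) ^ 2 ≤ (m - ε) ^ 2 := by
          rw [← neg_sq (x (k + 1)), ← neg_sq (m - ε)]
          exact pow_le_pow_left₀ (by linarith) (by linarith) 2
        linarith
    · intro y hy
      filter_upwards [hMup (y - T) (by linarith)] with n hn
      rw [heq] at hn
      linarith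

end

end Run7.h964
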