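import Mathlib
import Pool.Agent.Run7.h964.Node

set_option autoImplicit false

/-!
# The parameter region `c > -(1-a²)²`: complete description of the asymptotics
-/

namespace Run7.h964

open Filter Topology MeasureTheory Set

/-- bounded orbits of the recursion converge along even and odd times -/
lemma region_classes {b c : ℝ} {x : ℕ → ℝ} (hb : 0 < b) (hb1 : b < 1) (hc : -(1 - b) ^ 2 < c)
    (hx : ∀ n, x (n + 2) = x (n + 1) ^ 2 + c + b * x n) {M₀ : ℝ} (hM₀ : ∀ n, |x n| ≤ M₀) (r : ℕ) :
    ∃ l, Tendsto (fun k => x (r + k * 2)) atTop (𝓝 l) := by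
  rcases le_or_gt c 0 with hc0 | hc0
  · rcases region_nonpos hb hb1 hc hc0 hx hM₀ with ⟨l, hl⟩ | h
    · refine ⟨l, hl.comp ?_⟩
      apply tendsto_atTop_mono (fun k => ?_) tendsto_id
      simp only [id]
      omega
    · obtain ⟨N, hN⟩ := eventually_atTop.1 h
      refine conv_of_nonpos hb.le hx hM₀ two_pos even_two (N := N) (fun n hn => ?_) r
      have := hN n hn
      have := hN (n + 2) (by omega)
      linarith
  · have h1b : 0 < 1 - b := by linarith
    have hm : 0 < c / (1 - b) := div_pos hc0 h1b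
    obtain ⟨N, hN⟩ := eventually_atTop.1 (lower_bound hb.le hb1 hx hm)
    refine conv_of_nonneg hb.le hx hM₀ two_pos (Or.inl even_two) (N := N) (fun n hn => ?_) r
    have := hN n hn
    have := hN (n + 2) (by omega)
    linarith

theorem region_trichotomy (a c : ℝ) (ha : a ≠ 0) (ha1 : |a| < 1) (hc : -(1 - a ^ 2) ^ 2 < c)
    (z : ℝ × ℝ) :
    Tendsto (fun n => ‖(henon a c)^[n] z‖) atTop atTop ∨
    ∃ P : ℝ × ℝ, henon a c (henon a c P) = P ∧
      Tendsto (fun k => (henon a c)^[2 * k] z) atTop (𝓝 P) ∧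
      Tendsto (fun k => (henon a c)^[2 * k + 1] z) atTop (𝓝 (henon a c P)) := by
  have hb : 0 < a ^ 2 := by positivity
  have hb1 : a ^ 2 < 1 := by
    rw [← sq_abs]
    have := abs_nonneg a
    nlinarith
  rcases bdd_or_escape hb.le (xc_rec a c z) with ⟨M, hM⟩ | h
  · right
    have h1 := region_classes hb hb1 hc (xc_rec a c z) hM
    obtain ⟨l0, hl0⟩ := h1 0
    obtain ⟨l1, hl1⟩ := h1 1
    have hodd : Tendsto (fun k => (henon a c)^[2 * k + 1] z) atTop (𝓝 (l1, a * l0)) := by
      have h2 : Tendsto (fun k => (xc a c z (1 + k * 2), a * xc a c z (0 + k * 2))) atTop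
          (𝓝 (l1, a * l0)) := hl1.prodMk_nhds (hl0.const_mul a)
      refine h2.congr (fun k => ?_)
      rw [iter_eq]
      have e1 : 1 + k * 2 = 2 * k + 1 := by ring
      have e2 : 0 + k * 2 = 2 * k := by ring
      rw [e1, e2]
    have heven : Tendsto (fun k => (henon a c)^[2 * (k + 1)] z) atTop (𝓝 (l0, a * l1)) := by
      have h2 : Tendsto (fun k => (xc a c z (0 + (k + 1) * 2), a * xc a c z (1 + k * 2))) atTop
          (𝓝 (l0, a * l1)) := (hl0.comp (tendsto_add_atTop_nat 1)).prodMk_nhds (hl1.const_mul a)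
      refine h2.congr (fun k => ?_)
      have e1 : 1 + k * 2 = 2 * k + 1 := by ring
      have e2 : 0 + (k + 1) * 2 = 2 * k + 1 + 1 := by ring
      have e3 : 2 * (k + 1) = 2 * k + 1 + 1 := by ring
      rw [e1, e2, e3, iter_eq]
    have heven' : Tendsto (fun k => (henon a c)^[2 * k] z) atTop (𝓝 (l0, a * l1)) :=
      (tendsto_add_atTop_iff_nat (f := fun k => (henon a c)^[2 * k] z) 1).1 heven
    have hcont := henon_continuous a c
    have h3 : henon a c (l0, a * l1) = (l1, a * l0) := by
      have h4 : Tendsto (fun k => (henon a c)^[2 * k + 1] z) atTop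
          (𝓝 (henon a c (l0, a * l1))) := by
        refine ((hcont.tendsto _).comp heven').congr (fun k => ?_)
        simp only [Function.comp]
        rw [iter_succ]
      exact tendsto_nhds_unique h4 hodd
    have h5 : henon a c (l1, a * l0) = (l0, a * l1) := by
      have h4 : Tendsto (fun k => (henon a c)^[2 * (k + 1)] z) atTop
          (𝓝 (henon a c (l1, a * l0))) := by
        refine ((hcont.tendsto _).comp hodd).congr (fun k => ?_)
        have e3 : 2 * (k + 1) = 2 * k + 1 + 1 := by ring
        simp only [Function.comp]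
        rw [e3]
        exact (iter_succ a c z (2 * k + 1)).symm
      exact tendsto_nhds_unique h4 heven
    refine ⟨(l0, a * l1), by rw [h3, h5], heven', by rw [h3]; exact hodd⟩
  · left
    refine tendsto_atTop_mono (fun n => ?_) h
    rw [← Real.norm_eq_abs]
    exact norm_fst_le _

theorem region_statistical (a c : ℝ) (ha : a ≠ 0) (ha1 : |a| < 1) (hc : -(1 - a ^ 2) ^ 2 < c)
    (z : ℝ × ℝ) : ¬ NonStat (henon a c) z := by
  intro hz
  have hb : 0 < a ^ 2 := by positivity
  have hb1 : a ^ 2 < 1 := by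
    rw [← sq_abs]
    have := abs_nonneg a
    nlinarith
  obtain ⟨M, hM⟩ := hz.bounded
  exact not_nonStat_of_xc two_pos (region_classes hb hb1 hc (xc_rec a c z) hM) hz

end Run7.h964
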