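import Mathlib
import Pool.Agent.Run7.h964.Node2

set_option autoImplicit false

/-!
# Alternating orbits: the region `-(5/4)(1-a²)² ≤ c ≤ -(1-a²)²`

Normalised recursion `X (n+2) = (1-b) (X (n+1)² + γ) + b X n`.
-/

namespace Run7.h964

open Filter Topology MeasureTheory Set

lemma sq_le_sq_neg {a b : ℝ} (h : a ≤ b) (hb : b ≤ 0) : b ^ 2 ≤ a ^ 2 := by nlinarith

lemma alg1 {γ x : ℝ} (h2 : γ ≤ -1) (hx1 : -1 < x) (hx0 : x < 0) (h : x ^ 2 - x + γ < 0) :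
    x < (x ^ 2 + γ) ^ 2 + γ := by
  have h5 : (x ^ 2 + γ) ^ 2 + γ - x = (x ^ 2 - x + γ) * (x ^ 2 + x + 1 + γ) := by ring
  have h7 : x ^ 2 + x + 1 + γ < 0 := by nlinarith
  have h8 := mul_pos_of_neg_of_neg h h7
  linarith

lemma mu_bounds {γ : ℝ} (h1 : -(5/4) ≤ γ) (h2 : γ ≤ -1) :
    0 ≤ γ ^ 2 + γ ∧ γ ^ 2 + γ ≤ 5 / 16 := by
  constructor <;> nlinarith

lemma alg2 {γ : ℝ} (h1 : -(5/4) ≤ γ) (h2 : γ ≤ -1) :
    0 ≤ ((γ ^ 2 + γ) ^ 2 + γ) ^ 2 + γ := by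
  obtain ⟨hm0, hm1⟩ := mu_bounds h1 h2
  have e : ((γ ^ 2 + γ) ^ 2 + γ) ^ 2 + γ =
      (γ ^ 2 + γ) * (1 + 2 * γ * (γ ^ 2 + γ) + (γ ^ 2 + γ) ^ 3) := by ring
  rw [e]
  apply mul_nonneg hm0
  have h15 : 0 ≤ (γ ^ 2 + γ) ^ 3 := by positivity
  have h16 : -(γ * (γ ^ 2 + γ)) ≤ (5/4) * (5/16) := by
    have : -(γ * (γ ^ 2 + γ)) = (-γ) * (γ ^ 2 + γ) := by ring
    rw [this]
    exact mul_le_mul (by linarith) hm1 hm0 (by norm_num)
  linarith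

/-- in the relevant range the second iterate is moved further in the same direction -/
lemma alg3 {γ x y : ℝ} (h1 : -(5/4) ≤ γ) (h2 : γ ≤ -1) (hx0 : 0 ≤ x) (hx1 : x ≤ 5/16)
    (hy : y = (x ^ 2 + γ) ^ 2 + γ) (hxy : x < y) : x < (y ^ 2 + γ) ^ 2 + γ := by
  have h9 : (y ^ 2 + γ) ^ 2 + γ - x = (y - x) * (1 + (x + y) * (x ^ 2 + y ^ 2 + 2 * γ)) := by
    have e : (y ^ 2 + γ) ^ 2 + γ - x - (y - x) * (1 + (x + y) * (x ^ 2 + y ^ 2 + 2 * γ)) =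
      (x ^ 2 + γ) ^ 2 + γ - y := by ring
    linarith
  set t := (Real.sqrt 2 - 1) / 2 with ht
  have hs2 : Real.sqrt 2 ^ 2 = 2 := Real.sq_sqrt (by norm_num)
  have hs0 : 0 ≤ Real.sqrt 2 := Real.sqrt_nonneg 2
  have hs1 : Real.sqrt 2 < 3 / 2 := by nlinarith
  have hs3 : 7 / 5 < Real.sqrt 2 := by nlinarith
  have ht2 : 4 * t ^ 2 + 4 * t - 1 = 0 := by rw [ht]; nlinarith
  have ht0 : 1/5 < t := by rw [ht]; linarith
  have ht1 : t < 1/4 := by rw [ht]; linarith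
  have h10 : x + y ≤ 2 * t := by
    have hx2 : x ^ 2 ≤ (5/16) ^ 2 := pow_le_pow_left₀ hx0 hx1 2
    have h11 : y ≤ (x ^ 2 - 5/4) ^ 2 - 5/4 := by
      have h3 : (x ^ 2 - 5/4) ^ 2 - 5/4 - y = (γ + 5/4) * (-(2 * x ^ 2 + γ - 5/4) - 1) := by
        rw [hy]; ring
      have h4 : 0 ≤ (γ + 5/4) * (-(2 * x ^ 2 + γ - 5/4) - 1) :=
        mul_nonneg (by linarith) (by linarith)
      linarith
    have h12 : x + ((x ^ 2 - 5/4) ^ 2 - 5/4) - 2 * t =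
        (x - t) ^ 2 * (x ^ 2 + 2 * t * x + (3 * t ^ 2 - 5/2)) := by
      have h13 : t ^ 2 = 1/4 - t := by linarith
      have h14 : t ^ 3 = 5/4 * t - 1/4 := by
        have : t ^ 3 = t * t ^ 2 := by ring
        rw [this, h13]
        have : t * (1/4 - t) = t / 4 - t ^ 2 := by ring
        rw [this, h13]; ring
      have h15 : t ^ 4 = 5/16 - 3/2 * t := by
        have : t ^ 4 = t * t ^ 3 := by ring
        rw [this, h14]
        have : t * (5/4 * t - 1/4) = 5/4 * t ^ 2 - t / 4 := by ring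
        rw [this, h13]; ring
      have e : x + ((x ^ 2 - 5/4) ^ 2 - 5/4) - 2 * t -
          (x - t) ^ 2 * (x ^ 2 + 2 * t * x + (3 * t ^ 2 - 5/2)) =
          x + 5/16 - 2 * t + 4 * x * t ^ 3 - 5 * x * t - 3 * t ^ 4 + 5/2 * t ^ 2 := by ring
      have e2 : x + 5/16 - 2 * t + 4 * x * t ^ 3 - 5 * x * t - 3 * t ^ 4 + 5/2 * t ^ 2 = 0 := by
        rw [h14, h15, h13]; ring
      linarith
    have h16 : (x - t) ^ 2 * (x ^ 2 + 2 * t * x + (3 * t ^ 2 - 5/2)) ≤ 0 := by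
      apply mul_nonpos_of_nonneg_of_nonpos (sq_nonneg _)
      have h20 : 2 * t * x ≤ 2 * (1/4) * (5/16) := by
        have := mul_le_mul ht1.le hx1 hx0 (by norm_num)
        linarith
      have h21 : t ^ 2 ≤ (1/4) ^ 2 := pow_le_pow_left₀ (by linarith) ht1.le 2
      linarith
    linarith
  set s := x + y with hs
  have hspos : 0 < s := by linarith
  have h17 : s ^ 2 / 2 < x ^ 2 + y ^ 2 := by
    have : 0 < (y - x) ^ 2 := by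
      have : 0 < y - x := by linarith
      positivity
    have e : s ^ 2 = 2 * (x ^ 2 + y ^ 2) - (y - x) ^ 2 := by rw [hs]; ring
    linarith
  have h18 : 0 < 1 + s * (x ^ 2 + y ^ 2 + 2 * γ) := by
    have h19 : s * (s ^ 2 / 2 - 5/2) < s * (x ^ 2 + y ^ 2 + 2 * γ) :=
      mul_lt_mul_of_pos_left (by linarith) hspos
    have h20 : 0 ≤ 1 + s * (s ^ 2 / 2 - 5/2) := by
      have h21 : 1 + s * (s ^ 2 / 2 - 5/2) = (2 - s) * (1 - 2 * s - s ^ 2) / 2 := by ring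
      rw [h21]
      have h22 : 0 ≤ 1 - 2 * s - s ^ 2 := by
        have : s ^ 2 ≤ (2 * t) ^ 2 := pow_le_pow_left₀ hspos.le h10 2
        have e : (2 * t) ^ 2 = 4 * t ^ 2 := by ring
        linarith
      have h23 : 0 ≤ 2 - s := by linarith
      positivity
    linarith
  have h24 : 0 < (y - x) * (1 + s * (x ^ 2 + y ^ 2 + 2 * γ)) :=
    mul_pos (by linarith) h18
  linarith

/-- final algebra for the hull argument -/
lemma hull_alg {γ α U₁ U₂ V₁ V₂ : ℝ} (h1 : -(5/4) ≤ γ) (h2 : γ ≤ -1) (hα : α ^ 2 = α - γ)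
    (hα0 : α < 0) (hU : U₁ ≤ U₂) (hV : V₁ ≤ V₂) (hU1 : α < U₁) (hV2 : V₂ < 0)
    (ha : U₂ ≤ V₁ ^ 2 + γ) (hb : V₂ ^ 2 + γ ≤ U₁) (hc : V₂ ≤ max (U₁ ^ 2) (U₂ ^ 2) + γ)
    (hd : γ ≤ V₁) (hd' : 0 ≤ U₁ → U₁ ^ 2 + γ ≤ V₁) : U₁ = U₂ ∧ V₁ = V₂ := by
  have hV1 : V₁ < 0 := by linarith
  have hα1 : -1 < α := by
    by_contra h
    push Not at h
    have : α * α ≥ 1 := by nlinarith
    nlinarith
  obtain ⟨hm0, hm1⟩ := mu_bounds h1 h2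
  have hV1sq : V₁ ^ 2 ≤ γ ^ 2 := sq_le_sq_neg hd hV1.le
  have hU2μ : U₂ ≤ γ ^ 2 + γ := by linarith
  have hU1nn : 0 ≤ U₁ := by
    by_contra hcon
    push Not at hcon
    rcases le_or_gt (U₂ ^ 2) (U₁ ^ 2) with h | h
    · rw [max_eq_left h] at hc
      have hsq : U₁ ^ 2 ≤ α ^ 2 := sq_le_sq_neg hU1.le hcon.le
      have h3 : U₁ ^ 2 + γ < 0 := by linarith
      have h4 : (U₁ ^ 2 + γ) ^ 2 ≤ V₂ ^ 2 := sq_le_sq_neg hc h3.le
      have h6 : U₁ ^ 2 - U₁ + γ < 0 := by linarith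
      have := alg1 h2 (by linarith) hcon h6
      linarith
    · rw [max_eq_right h.le] at hc
      have h3 : 0 < U₂ := by
        by_contra h9
        push Not at h9
        have := sq_le_sq_neg hU h9
        linarith
      have h10 : U₂ ^ 2 ≤ (γ ^ 2 + γ) ^ 2 := pow_le_pow_left₀ h3.le hU2μ 2
      have h11 : (γ ^ 2 + γ) ^ 2 ≤ (5/16) ^ 2 := pow_le_pow_left₀ hm0 hm1 2
      have h12 : ((γ ^ 2 + γ) ^ 2 + γ) ^ 2 ≤ V₂ ^ 2 :=
        sq_le_sq_neg (by linarith) (by linarith)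
      have h13 := alg2 h1 h2
      linarith
  have h3 := hd' hU1nn
  have hU2nn : 0 ≤ U₂ := by linarith
  have hU1s : U₁ ^ 2 ≤ U₂ ^ 2 := pow_le_pow_left₀ hU1nn hU 2
  have hU2s : U₂ ^ 2 ≤ (5/16) ^ 2 := pow_le_pow_left₀ hU2nn (by linarith) 2
  rw [max_eq_right hU1s] at hc
  have h4 : V₁ ^ 2 ≤ (U₁ ^ 2 + γ) ^ 2 := sq_le_sq_neg h3 hV1.le
  have h5 : (U₂ ^ 2 + γ) ^ 2 ≤ V₂ ^ 2 := sq_le_sq_neg hc (by linarith)
  have hEq : U₁ = U₂ := by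
    by_contra hne
    have hlt : U₁ < U₂ := lt_of_le_of_ne hU hne
    obtain ⟨y, hy⟩ : ∃ y, y = (U₁ ^ 2 + γ) ^ 2 + γ := ⟨_, rfl⟩
    have h6 : U₂ ≤ y := by linarith
    have h7 : y ≤ 5 / 16 := by
      have : (U₁ ^ 2 + γ) ^ 2 ≤ γ ^ 2 :=
        sq_le_sq_neg (by linarith [sq_nonneg U₁]) (by linarith)
      linarith
    have h8 : (y ^ 2 + γ) ^ 2 + γ ≤ U₁ := by
      have h10 : U₂ ^ 2 ≤ y ^ 2 := pow_le_pow_left₀ hU2nn h6 2
      have h11 : y ^ 2 ≤ (5/16) ^ 2 := pow_le_pow_left₀ (by linarith) h7 2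
      have h9 : (y ^ 2 + γ) ^ 2 ≤ (U₂ ^ 2 + γ) ^ 2 :=
        sq_le_sq_neg (by linarith) (by linarith)
      linarith
    have := alg3 h1 h2 hU1nn (by linarith) hy (by linarith)
    linarith
  refine ⟨hEq, ?_⟩
  rw [hEq] at h3
  linarith

end Run7.h964
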