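import Mathlib
import Pool.Agent.Run7.h964.Alt

set_option autoImplicit false

/-!
# Upper and lower limits along ultrafilters; the hull argument
-/

namespace Run7.h964

open Filter Topology MeasureTheory Set

/-- `U` is the upper limit of `y` -/
def IsLimsup (y : ℕ → ℝ) (U : ℝ) : Prop :=
  (∀ ε > 0, ∀ᶠ k in atTop, y k < U + ε) ∧ (∀ ε > 0, ∃ᶠ k in atTop, U - ε < y k)

/-- `U` is the lower limit of `y` -/
def IsLiminf (y : ℕ → ℝ) (U : ℝ) : Prop :=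
  (∀ ε > 0, ∀ᶠ k in atTop, U - ε < y k) ∧ (∀ ε > 0, ∃ᶠ k in atTop, y k < U + ε)

lemma exists_isLimsup {y : ℕ → ℝ} {M : ℝ} (h : ∀ k, |y k| ≤ M) : ∃ U, IsLimsup y U := by
  have hbd1 : IsBoundedUnder (· ≤ ·) atTop y :=
    ⟨M, eventually_map.2 (Eventually.of_forall fun n => (abs_le.1 (h n)).2)⟩
  have hbd2 : IsBoundedUnder (· ≥ ·) atTop y :=
    ⟨-M, eventually_map.2 (Eventually.of_forall fun n => (abs_le.1 (h n)).1)⟩
  refine ⟨limsup y atTop, fun ε hε => ?_, fun ε hε => ?_⟩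
  · exact eventually_lt_of_limsup_lt (by linarith) hbd1
  · exact frequently_lt_of_lt_limsup (hbd2.isCoboundedUnder_le) (by linarith)

lemma isLiminf_iff {y : ℕ → ℝ} {U : ℝ} : IsLiminf y U ↔ IsLimsup (fun k => -y k) (-U) := by
  constructor
  · rintro ⟨h1, h2⟩
    refine ⟨fun ε hε => ?_, fun ε hε => ?_⟩
    · filter_upwards [h1 ε hε] with k hk
      linarith
    · exact (h2 ε hε).mono (fun k hk => by linarith)
  · rintro ⟨h1, h2⟩
    refine ⟨fun ε hε => ?_, fun ε hε => ?_⟩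
    · filter_upwards [h1 ε hε] with k hk
      linarith
    · exact (h2 ε hε).mono (fun k hk => by linarith)

lemma exists_isLiminf {y : ℕ → ℝ} {M : ℝ} (h : ∀ k, |y k| ≤ M) : ∃ U, IsLiminf y U := by
  obtain ⟨U, hU⟩ := exists_isLimsup (y := fun k => -y k) (M := M) (fun k => by
    rw [abs_neg]; exact h k)
  exact ⟨-U, by rw [isLiminf_iff, neg_neg]; exact hU⟩

lemma frequently_shift {P : ℕ → Prop} (h : ∃ᶠ n in atTop, P n) (d : ℕ) :
    ∃ᶠ n in atTop, P (n + d) := by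
  rw [frequently_atTop] at h ⊢
  intro a
  obtain ⟨n, hn, hP⟩ := h (a + d)
  refine ⟨n - d, by omega, ?_⟩
  have : n - d + d = n := by omega
  rwa [this]

lemma eventually_shift {P : ℕ → Prop} (h : ∀ᶠ n in atTop, P n) (d : ℕ) :
    ∀ᶠ n in atTop, P (n + d) := (tendsto_add_atTop_nat d).eventually h

lemma IsLimsup.ultra {y : ℕ → ℝ} {U : ℝ} (h : IsLimsup y U) (d : ℕ) :
    ∃ 𝒰 : Ultrafilter ℕ, (𝒰 : Filter ℕ) ≤ atTop ∧ Tendsto (fun k => y (k + d)) 𝒰 (𝓝 U) := by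
  have h1 : MapClusterPt U atTop (fun k => y (k + d)) := by
    rw [mapClusterPt_iff_frequently]
    intro s hs
    obtain ⟨ε, hε, hball⟩ := Metric.mem_nhds_iff.1 hs
    refine ((frequently_shift (h.2 ε hε) d).and_eventually
      (eventually_shift (h.1 ε hε) d)).mono (fun k hk => hball ?_)
    rw [Metric.mem_ball, Real.dist_eq, abs_lt]
    constructor <;> linarith [hk.1, hk.2]
  exact mapClusterPt_iff_ultrafilter.1 h1

lemma IsLiminf.ultra {y : ℕ → ℝ} {U : ℝ} (h : IsLiminf y U) (d : ℕ) :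
    ∃ 𝒰 : Ultrafilter ℕ, (𝒰 : Filter ℕ) ≤ atTop ∧ Tendsto (fun k => y (k + d)) 𝒰 (𝓝 U) := by
  obtain ⟨𝒰, h1, h2⟩ := (isLiminf_iff.1 h).ultra d
  refine ⟨𝒰, h1, ?_⟩
  simpa using h2.neg

lemma ultra_lim (𝒰 : Ultrafilter ℕ) {z : ℕ → ℝ} {M : ℝ} (h : ∀ k, |z k| ≤ M) :
    ∃ ζ, Tendsto z 𝒰 (𝓝 ζ) := by
  have hc : IsCompact (Icc (-M) M) := isCompact_Icc
  obtain ⟨ζ, -, hζ⟩ := hc.ultrafilter_le_nhds (𝒰.map z) (by
    rw [le_principal_iff]
    show z ⁻¹' (Icc (-M) M) ∈ 𝒰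
    have : z ⁻¹' (Icc (-M) M) = univ := by
      ext k
      simp only [mem_preimage, mem_Icc, mem_univ, iff_true]
      exact abs_le.1 (h k)
    rw [this]
    exact univ_mem)
  exact ⟨ζ, hζ⟩

lemma IsLimsup.le {z : ℕ → ℝ} {V ζ : ℝ} (h : IsLimsup z V) {𝒰 : Ultrafilter ℕ}
    (h1 : (𝒰 : Filter ℕ) ≤ atTop) {d : ℕ} (h2 : Tendsto (fun k => z (k + d)) 𝒰 (𝓝 ζ)) :
    ζ ≤ V := by
  apply le_of_forall_pos_le_add
  intro ε hε
  refine le_of_tendsto h2 ?_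
  exact ((eventually_shift (h.1 ε hε) d).filter_mono h1).mono (fun k hk => hk.le)

lemma IsLiminf.le {z : ℕ → ℝ} {V ζ : ℝ} (h : IsLiminf z V) {𝒰 : Ultrafilter ℕ}
    (h1 : (𝒰 : Filter ℕ) ≤ atTop) {d : ℕ} (h2 : Tendsto (fun k => z (k + d)) 𝒰 (𝓝 ζ)) :
    V ≤ ζ := by
  have h3 := (isLiminf_iff.1 h).le h1 h2.neg
  linarith

lemma tendsto_of_isLim {y : ℕ → ℝ} {U : ℝ} (h1 : IsLiminf y U) (h2 : IsLimsup y U) :
    Tendsto y atTop (𝓝 U) := by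
  rw [tendsto_order]
  constructor
  · intro a ha
    filter_upwards [h1.1 (U - a) (by linarith)] with k hk
    linarith
  · intro a ha
    filter_upwards [h2.1 (a - U) (by linarith)] with k hk
    linarith

lemma IsLiminf.le_limsup {y : ℕ → ℝ} {U V : ℝ} (h1 : IsLiminf y U) (h2 : IsLimsup y V) :
    U ≤ V := by
  apply le_of_forall_pos_le_add
  intro ε hε
  obtain ⟨k, hk1, hk2⟩ := ((h1.1 (ε/2) (by linarith)).and (h2.1 (ε/2) (by linarith))).exists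
  linarith

/-- the hull argument: alternating orbits that keep away from the fixed point converge -/
lemma hull_conv {b γ α ρ M : ℝ} (hb : 0 < b) (hb1 : b < 1) (h1 : -(5/4) ≤ γ) (h2 : γ ≤ -1)
    (hα : α ^ 2 = α - γ) (hα0 : α < 0) (hρ : 0 < ρ) {y z : ℕ → ℝ}
    (hy : ∀ k, y (k + 1) = (1 - b) * (z k ^ 2 + γ) + b * y k)
    (hz : ∀ k, z (k + 1) = (1 - b) * (y (k + 1) ^ 2 + γ) + b * z k)
    (hyM : ∀ k, |y k| ≤ M) (hzM : ∀ k, |z k| ≤ M)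
    (hyα : ∀ k, α + ρ ≤ y k) (hzα : ∀ k, z k ≤ α - ρ) :
    ∃ l₀ l₁, Tendsto y atTop (𝓝 l₀) ∧ Tendsto z atTop (𝓝 l₁) := by
  have hβ : 0 < 1 - b := by linarith
  obtain ⟨U₂, hU₂⟩ := exists_isLimsup hyM
  obtain ⟨U₁, hU₁⟩ := exists_isLiminf hyM
  obtain ⟨V₂, hV₂⟩ := exists_isLimsup hzM
  obtain ⟨V₁, hV₁⟩ := exists_isLiminf hzM
  have hU1α : α < U₁ := by
    obtain ⟨𝒰, hle, ht⟩ := hU₁.ultra 0
    have := ge_of_tendsto ht (Eventually.of_forall fun k => hyα (k + 0))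
    linarith
  have hV2α : V₂ < α := by
    obtain ⟨𝒰, hle, ht⟩ := hV₂.ultra 0
    have := le_of_tendsto ht (Eventually.of_forall fun k => hzα (k + 0))
    linarith
  have hUU := hU₁.le_limsup hU₂
  have hVV := hV₁.le_limsup hV₂
  -- inequality for U₂
  have ha : U₂ ≤ V₁ ^ 2 + γ := by
    obtain ⟨𝒰, hle, ht⟩ := hU₂.ultra 1
    obtain ⟨ζ, hζ⟩ := ultra_lim 𝒰 hzM
    obtain ⟨η, hη⟩ := ultra_lim 𝒰 hyM
    have hζ1 := hV₁.le hle (d := 0) hζ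
    have hζ2 := hV₂.le hle (d := 0) hζ
    have hη2 := hU₂.le hle (d := 0) hη
    have e : U₂ = (1 - b) * (ζ ^ 2 + γ) + b * η := by
      refine tendsto_nhds_unique ht ?_
      have := (((hζ.pow 2).add_const γ).const_mul (1 - b)).add (hη.const_mul b)
      exact this.congr (fun k => (hy k).symm)
    have hsq : ζ ^ 2 ≤ V₁ ^ 2 := sq_le_sq_neg hζ1 (by linarith)
    have h3 : (1 - b) * (ζ ^ 2 + γ) ≤ (1 - b) * (V₁ ^ 2 + γ) :=
      mul_le_mul_of_nonneg_left (by linarith) hβ.le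
    have h4 : b * η ≤ b * U₂ := mul_le_mul_of_nonneg_left hη2 hb.le
    have h5 : (1 - b) * U₂ ≤ (1 - b) * (V₁ ^ 2 + γ) := by linarith
    exact le_of_mul_le_mul_left h5 hβ
  have hbb : V₂ ^ 2 + γ ≤ U₁ := by
    obtain ⟨𝒰, hle, ht⟩ := hU₁.ultra 1
    obtain ⟨ζ, hζ⟩ := ultra_lim 𝒰 hzM
    obtain ⟨η, hη⟩ := ultra_lim 𝒰 hyM
    have hζ2 := hV₂.le hle (d := 0) hζ
    have hη2 := hU₁.le hle (d := 0) hη
    have e : U₁ = (1 - b) * (ζ ^ 2 + γ) + b * η := by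
      refine tendsto_nhds_unique ht ?_
      have := (((hζ.pow 2).add_const γ).const_mul (1 - b)).add (hη.const_mul b)
      exact this.congr (fun k => (hy k).symm)
    have hsq : V₂ ^ 2 ≤ ζ ^ 2 := sq_le_sq_neg hζ2 (by linarith)
    have h3 : (1 - b) * (V₂ ^ 2 + γ) ≤ (1 - b) * (ζ ^ 2 + γ) :=
      mul_le_mul_of_nonneg_left (by linarith) hβ.le
    have h4 : b * U₁ ≤ b * η := mul_le_mul_of_nonneg_left hη2 hb.le
    have h5 : (1 - b) * (V₂ ^ 2 + γ) ≤ (1 - b) * U₁ := by linarith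
    exact le_of_mul_le_mul_left h5 hβ
  have hyM' : ∀ k, |y (k + 1)| ≤ M := fun k => hyM (k + 1)
  have hc : V₂ ≤ max (U₁ ^ 2) (U₂ ^ 2) + γ := by
    obtain ⟨𝒰, hle, ht⟩ := hV₂.ultra 1
    obtain ⟨ζ, hζ⟩ := ultra_lim 𝒰 hzM
    obtain ⟨η, hη⟩ := ultra_lim 𝒰 hyM'
    have hζ2 := hV₂.le hle (d := 0) hζ
    have hη1 := hU₁.le hle (d := 1) hη
    have hη2 := hU₂.le hle (d := 1) hη
    have e : V₂ = (1 - b) * (η ^ 2 + γ) + b * ζ := by
      refine tendsto_nhds_unique ht ?_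
      have := (((hη.pow 2).add_const γ).const_mul (1 - b)).add (hζ.const_mul b)
      exact this.congr (fun k => (hz k).symm)
    have hsq : η ^ 2 ≤ max (U₁ ^ 2) (U₂ ^ 2) := by
      rcases le_total 0 η with h | h
      · exact le_max_of_le_right (pow_le_pow_left₀ h hη2 2)
      · exact le_max_of_le_left (sq_le_sq_neg hη1 h)
    have h3 : (1 - b) * (η ^ 2 + γ) ≤ (1 - b) * (max (U₁ ^ 2) (U₂ ^ 2) + γ) :=
      mul_le_mul_of_nonneg_left (by linarith) hβ.le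
    have h4 : b * ζ ≤ b * V₂ := mul_le_mul_of_nonneg_left hζ2 hb.le
    have h5 : (1 - b) * V₂ ≤ (1 - b) * (max (U₁ ^ 2) (U₂ ^ 2) + γ) := by linarith
    exact le_of_mul_le_mul_left h5 hβ
  have hdd : γ ≤ V₁ ∧ (0 ≤ U₁ → U₁ ^ 2 + γ ≤ V₁) := by
    obtain ⟨𝒰, hle, ht⟩ := hV₁.ultra 1
    obtain ⟨ζ, hζ⟩ := ultra_lim 𝒰 hzM
    obtain ⟨η, hη⟩ := ultra_lim 𝒰 hyM'
    have hζ2 := hV₁.le hle (d := 0) hζ
    have hη1 := hU₁.le hle (d := 1) hη
    have e : V₁ = (1 - b) * (η ^ 2 + γ) + b * ζ := by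
      refine tendsto_nhds_unique ht ?_
      have := (((hη.pow 2).add_const γ).const_mul (1 - b)).add (hζ.const_mul b)
      exact this.congr (fun k => (hz k).symm)
    have h4 : b * V₁ ≤ b * ζ := mul_le_mul_of_nonneg_left hζ2 hb.le
    constructor
    · have h3 : (1 - b) * γ ≤ (1 - b) * (η ^ 2 + γ) :=
        mul_le_mul_of_nonneg_left (by linarith [sq_nonneg η]) hβ.le
      have h5 : (1 - b) * γ ≤ (1 - b) * V₁ := by linarith
      exact le_of_mul_le_mul_left h5 hβ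
    · intro h0
      have hsq : U₁ ^ 2 ≤ η ^ 2 := pow_le_pow_left₀ h0 hη1 2
      have h3 : (1 - b) * (U₁ ^ 2 + γ) ≤ (1 - b) * (η ^ 2 + γ) :=
        mul_le_mul_of_nonneg_left (by linarith) hβ.le
      have h5 : (1 - b) * (U₁ ^ 2 + γ) ≤ (1 - b) * V₁ := by linarith
      exact le_of_mul_le_mul_left h5 hβ
  obtain ⟨e1, e2⟩ := hull_alg h1 h2 hα hα0 hUU hVV hU1α (by linarith) ha hbb hc hdd.1 hdd.2
  refine ⟨U₂, V₂, tendsto_of_isLim (by rw [← e1]; exact hU₁) hU₂,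
    tendsto_of_isLim (by rw [← e2]; exact hV₁) hV₂⟩

end Run7.h964
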