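import Mathlib
import Pool.Agent.Run7.h964.Alt2

set_option autoImplicit false

/-!
# Bounded orbits below `-α` either converge or alternate around the fixed point `α`
-/

namespace Run7.h964

open Filter Topology MeasureTheory Set

lemma classes_of_tail {X : ℕ → ℝ} {N : ℕ} {l₀ l₁ : ℝ}
    (h0 : Tendsto (fun k => X (N + 2 * k)) atTop (𝓝 l₀))
    (h1 : Tendsto (fun k => X (N + 2 * k + 1)) atTop (𝓝 l₁)) (r : ℕ) :
    ∃ l, Tendsto (fun k => X (r + k * 2)) atTop (𝓝 l) := by
  rcases Nat.even_or_odd' (r + N) with ⟨j, hj | hj⟩
  · refine ⟨l₀, (tendsto_add_atTop_iff_nat (f := fun k => X (r + k * 2)) N).1 ?_⟩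
    have := h0.comp (tendsto_add_atTop_nat j)
    refine this.congr (fun k => ?_)
    simp only [Function.comp]
    congr 1
    omega
  · refine ⟨l₁, (tendsto_add_atTop_iff_nat (f := fun k => X (r + k * 2)) N).1 ?_⟩
    have := h1.comp (tendsto_add_atTop_nat j)
    refine this.congr (fun k => ?_)
    simp only [Function.comp]
    congr 1
    omega

lemma alt_or_conv {b γ α M' : ℝ} (hb : 0 < b) (hb1 : b < 1) (hα : α ^ 2 = α - γ)
    (hα0 : α < -(1/2)) {X : ℕ → ℝ}
    (hX : ∀ n, X (n + 2) = (1 - b) * (X (n + 1) ^ 2 + γ) + b * X n)
    (hM' : M' < -α) (hev : ∀ᶠ n in atTop, X n ≤ M') :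
    (∀ r, ∃ l, Tendsto (fun k => X (r + k * 2)) atTop (𝓝 l)) ∨
    ∃ (N : ℕ) (ρ : ℝ), 0 < ρ ∧ ∀ k, α + ρ ≤ X (N + 2 * k) ∧ X (N + 2 * k + 1) ≤ α - ρ := by
  have hβ : 0 < 1 - b := by linarith
  obtain ⟨N, hN⟩ := eventually_atTop.1 hev
  obtain ⟨e, hedef⟩ : ∃ e : ℕ → ℝ, ∀ n, e n = X n - α := ⟨fun n => X n - α, fun _ => rfl⟩
  obtain ⟨f, hfdef⟩ : ∃ f : ℕ → ℝ, ∀ n, f n = -(1 - b) * (X n + α) :=
    ⟨fun n => -(1 - b) * (X n + α), fun _ => rfl⟩
  have he : ∀ n, e (n + 2) = -(f (n + 1)) * e (n + 1) + b * e n := by
    intro n
    rw [hedef, hedef, hedef, hfdef, hX]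
    linear_combination (1 - b) * hα
  set f₀ := (1 - b) * (-(M' + α)) with hf₀
  have hf₀pos : 0 < f₀ := mul_pos hβ (by linarith)
  have hf : ∀ n, N ≤ n → f₀ ≤ f n := by
    intro n hn
    rw [hfdef, hf₀]
    have := hN n hn
    nlinarith
  by_cases hsame : ∀ n, N ≤ n → 0 < e n * e (n + 1)
  · left
    have hdec : ∀ n, N ≤ n → |e (n + 2)| ≤ b * |e n| := by
      intro n hn
      have h1 := hsame n hn
      have h2 := hsame (n + 1) (by omega)
      have h3 := hf (n + 1) (by omega)
      have h4 := he n
      rcases lt_trichotomy (e (n + 1)) 0 with h | h | h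
      · have h5 : e n < 0 := by
          by_contra hc
          push Not at hc
          nlinarith
        have h6 : e (n + 2) < 0 := by
          by_contra hc
          push Not at hc
          nlinarith
        rw [abs_of_neg h6, abs_of_neg h5, h4]
        nlinarith
      · rw [h] at h1; simp at h1
      · have h5 : 0 < e n := by
          by_contra hc
          push Not at hc
          nlinarith
        have h6 : 0 < e (n + 2) := by
          by_contra hc
          push Not at hc
          nlinarith
        rw [abs_of_pos h6, abs_of_pos h5, h4]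
        nlinarith
    have hgeo : ∀ d k, |e (N + 2 * k + d)| ≤ b ^ k * |e (N + d)| := by
      intro d k
      induction k with
      | zero => simp
      | succ k ih =>
        have h1 := hdec (N + 2 * k + d) (by omega)
        have e1 : N + 2 * (k + 1) + d = N + 2 * k + d + 2 := by ring
        rw [e1, pow_succ]
        have := mul_le_mul_of_nonneg_left ih hb.le
        linarith
    have hlim : ∀ d, Tendsto (fun k => X (N + 2 * k + d)) atTop (𝓝 α) := by
      intro d
      have h1 : Tendsto (fun k : ℕ => b ^ k * |e (N + d)|) atTop (𝓝 0) := by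
        simpa using (tendsto_pow_atTop_nhds_zero_of_lt_one hb.le hb1).mul_const |e (N + d)|
      have h2 : Tendsto (fun k : ℕ => e (N + 2 * k + d)) atTop (𝓝 0) :=
        squeeze_zero_norm (fun k => by rw [Real.norm_eq_abs]; exact hgeo d k) h1
      have h3 := h2.add_const α
      rw [zero_add] at h3
      refine h3.congr (fun k => ?_)
      rw [hedef]; ring
    exact classes_of_tail (hlim 0) (hlim 1)
  · push Not at hsame
    obtain ⟨n₀, hn₀, hs₀⟩ := hsame
    have halt : ∀ n, n₀ ≤ n → e n * e (n + 1) ≤ 0 := by
      intro n hn
      induction n, hn using Nat.le_induction with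
      | base => exact hs₀
      | succ n hn ih =>
        have h3 := hf (n + 1) (by omega)
        have h4 := he n
        have h5 : e (n + 1) * e (n + 1 + 1) = -(f (n + 1)) * (e (n + 1)) ^ 2 +
            b * (e n * e (n + 1)) := by
          have : e (n + 1 + 1) = e (n + 2) := rfl
          rw [this, h4]; ring
        rw [h5]
        have h6 : 0 ≤ f (n + 1) * (e (n + 1)) ^ 2 := mul_nonneg (by linarith) (sq_nonneg _)
        nlinarith
    have habs : ∀ n, n₀ ≤ n → |e (n + 2)| = f (n + 1) * |e (n + 1)| + b * |e n| := by
      intro n hn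
      have h3 := hf (n + 1) (by omega)
      have h4 := he n
      have h5 := halt n hn
      rcases le_total 0 (e (n + 1)) with h | h
      · rcases h.eq_or_lt with h0 | h0
        · rw [h4, ← h0]; simp [abs_mul, abs_of_pos hb]
        · have h6 : e n ≤ 0 := by
            by_contra hc
            push Not at hc
            nlinarith
          rw [abs_of_nonneg h, abs_of_nonpos h6, h4, abs_of_nonpos (by nlinarith)]
          ring
      · rcases h.eq_or_lt with h0 | h0
        · rw [h4, h0]; simp [abs_mul, abs_of_pos hb]
        · have h6 : 0 ≤ e n := by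
            by_contra hc
            push Not at hc
            nlinarith
          rw [abs_of_nonpos h, abs_of_nonneg h6, h4, abs_of_nonneg (by nlinarith)]
          ring
    by_cases hzero : |e (n₀ + 1)| + b * |e n₀| = 0
    · -- the orbit is eventually constant
      left
      have h1 : e n₀ = 0 ∧ e (n₀ + 1) = 0 := by
        have h2 := abs_nonneg (e n₀)
        have h3 := abs_nonneg (e (n₀ + 1))
        have h4 : |e (n₀ + 1)| = 0 := by nlinarith
        have h5 : b * |e n₀| = 0 := by linarith
        rcases mul_eq_zero.1 h5 with h | h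
        · exact absurd h hb.ne'
        · exact ⟨abs_eq_zero.1 h, abs_eq_zero.1 h4⟩
      have h2 : ∀ k, e (n₀ + k) = 0 ∧ e (n₀ + k + 1) = 0 := by
        intro k
        induction k with
        | zero => exact h1
        | succ k ih =>
          refine ⟨ih.2, ?_⟩
          have e1 : n₀ + (k + 1) + 1 = n₀ + k + 2 := by ring
          rw [e1, he, ih.1, ih.2]; ring
      have h3 : ∀ d, Tendsto (fun k => X (n₀ + 2 * k + d)) atTop (𝓝 α) := by
        intro d
        refine tendsto_const_nhds.congr (fun k => ?_)
        have := (h2 (2 * k + d)).1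
        rw [hedef] at this
        have e1 : n₀ + (2 * k + d) = n₀ + 2 * k + d := by ring
        rw [e1] at this
        linarith
      exact classes_of_tail (h3 0) (h3 1)
    · right
      have hE0 : 0 < |e (n₀ + 1)| + b * |e n₀| :=
        lt_of_le_of_ne (by positivity) (Ne.symm hzero)
      set g := -(2 * α) - 1 with hg
      have hg0 : 0 < g := by rw [hg]; linarith
      set ρ₁ := min (|e (n₀ + 1)| + b * |e n₀|) (b * g) with hρ₁
      have hρ₁pos : 0 < ρ₁ := lt_min hE0 (by positivity)
      have hE : ∀ n, n₀ ≤ n → ρ₁ ≤ |e (n + 1)| + b * |e n| := by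
        intro n hn
        induction n, hn using Nat.le_induction with
        | base => exact min_le_left _ _
        | succ n hn ih =>
          have h1 := habs n hn
          have e1 : e (n + 1 + 1) = e (n + 2) := rfl
          rw [e1, h1]
          have h3 := hf (n + 1) (by omega)
          have h5 := abs_nonneg (e (n + 1))
          rcases le_or_gt (e (n + 1)) g with h | h
          · have h4 : 1 ≤ f (n + 1) + b := by
              have : f (n + 1) = (1 - b) * (-(2 * α) - e (n + 1)) := by
                rw [hfdef, hedef]; ring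
              rw [this]
              have h6 : 1 ≤ -(2 * α) - e (n + 1) := by rw [hg] at h; linarith
              nlinarith
            have h7 : |e (n + 1)| ≤ (f (n + 1) + b) * |e (n + 1)| := by nlinarith
            linarith
          · have h4 : b * g ≤ b * |e (n + 1)| :=
              mul_le_mul_of_nonneg_left (h.le.trans (le_abs_self _)) hb.le
            have h6 : 0 ≤ f (n + 1) * |e (n + 1)| := mul_nonneg (by linarith) h5
            have h7 : 0 ≤ b * |e n| := by positivity
            have h8 := min_le_right (|e (n₀ + 1)| + b * |e n₀|) (b * g)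
            linarith
      set ρ := min f₀ 1 * ρ₁ with hρ
      have hρpos : 0 < ρ := mul_pos (lt_min hf₀pos one_pos) hρ₁pos
      have hbig : ∀ n, n₀ + 2 ≤ n → ρ ≤ |e n| := by
        intro n hn
        obtain ⟨m, rfl⟩ : ∃ m, n = m + 2 := ⟨n - 2, by omega⟩
        rw [habs m (by omega)]
        have h1 := hE m (by omega)
        have h3 := hf (m + 1) (by omega)
        have h4 : min f₀ 1 * |e (m + 1)| ≤ f (m + 1) * |e (m + 1)| :=
          mul_le_mul_of_nonneg_right ((min_le_left _ _).trans h3) (abs_nonneg _)
        have h5 : min f₀ 1 * (b * |e m|) ≤ 1 * (b * |e m|) :=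
          mul_le_mul_of_nonneg_right (min_le_right _ _) (by positivity)
        have h6 : min f₀ 1 * ρ₁ ≤ min f₀ 1 * (|e (m + 1)| + b * |e m|) :=
          mul_le_mul_of_nonneg_left h1 (lt_min hf₀pos one_pos).le
        linarith
      -- choose a starting time with positive sign
      obtain ⟨n₁, hn₁, hpos⟩ : ∃ n₁, n₀ + 2 ≤ n₁ ∧ 0 < e n₁ := by
        by_cases h : 0 < e (n₀ + 2)
        · exact ⟨n₀ + 2, le_rfl, h⟩
        · refine ⟨n₀ + 3, by omega, ?_⟩
          push Not at h
          have h1 := hbig (n₀ + 2) le_rfl
          have h2 := hbig (n₀ + 3) (by omega)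
          have h3 := halt (n₀ + 2) (by omega)
          have h4 : e (n₀ + 2) < 0 := by
            rcases h.eq_or_lt with h0 | h0
            · rw [h0] at h1; simp at h1; linarith
            · exact h0
          by_contra hc
          push Not at hc
          rcases hc.eq_or_lt with h0 | h0
          · rw [h0] at h2; simp at h2; linarith
          · have : 0 < e (n₀ + 2) * e (n₀ + 2 + 1) := mul_pos_of_neg_of_neg h4 h0
            linarith
      have hstep : ∀ n, n₁ ≤ n → 0 < e n → e (n + 1) < 0 := by
        intro n hn h
        have h1 := hbig (n + 1) (by omega)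
        have h2 := halt n (by omega)
        by_contra hc
        push Not at hc
        rcases hc.eq_or_lt with h0 | h0
        · rw [← h0] at h1; simp at h1; linarith
        · have := mul_pos h h0
          linarith
      have hstep' : ∀ n, n₁ ≤ n → e n < 0 → 0 < e (n + 1) := by
        intro n hn h
        have h1 := hbig (n + 1) (by omega)
        have h2 := halt n (by omega)
        by_contra hc
        push Not at hc
        rcases hc.eq_or_lt with h0 | h0
        · rw [h0] at h1; simp at h1; linarith
        · have := mul_pos_of_neg_of_neg h h0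
          linarith
      have hall : ∀ k, 0 < e (n₁ + 2 * k) := by
        intro k
        induction k with
        | zero => exact hpos
        | succ k ih =>
          have h1 := hstep _ (by omega) ih
          have h2 := hstep' _ (by omega) h1
          exact h2
      refine ⟨n₁, ρ, hρpos, fun k => ⟨?_, ?_⟩⟩
      · have h1 := hall k
        have h2 := hbig (n₁ + 2 * k) (by omega)
        rw [abs_of_pos h1, hedef] at h2
        linarith
      · have h1 := hstep _ (by omega) (hall k)
        have h2 := hbig (n₁ + 2 * k + 1) (by omega)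
        rw [abs_of_neg h1, hedef] at h2
        linarith

end Run7.h964
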