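import Mathlib
import Pool.Agent.Run7.h964.Alt3

set_option autoImplicit false

/-!
# The upper limit of a bounded orbit
-/

namespace Run7.h964

open Filter Topology MeasureTheory Set

/-- lower bound, normalised -/
lemma norm_lower {b γ : ℝ} (hb : 0 ≤ b) (hb1 : b < 1) {X : ℕ → ℝ}
    (hX : ∀ n, X (n + 2) = (1 - b) * (X (n + 1) ^ 2 + γ) + b * X n) {ε : ℝ} (hε : 0 < ε) :
    ∀ᶠ n in atTop, γ - ε < X n := by
  have hβ : 0 < 1 - b := by linarith
  have hx : ∀ n, (1 - b) * X (n + 2) = ((1 - b) * X (n + 1)) ^ 2 + (1 - b) ^ 2 * γ +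
      b * ((1 - b) * X n) := by
    intro n; rw [hX]; ring
  have h := lower_bound (x := fun n => (1 - b) * X n) hb hb1 hx (ε := (1 - b) * ε)
    (mul_pos hβ hε)
  filter_upwards [h] with n hn
  have e : (1 - b) ^ 2 * γ / (1 - b) - (1 - b) * ε = (1 - b) * (γ - ε) := by
    field_simp
  rw [e] at hn
  exact lt_of_mul_lt_mul_left hn hβ.le

lemma norm_above {b γ τ : ℝ} (hb : 0 ≤ b) (hb1 : b < 1) {X : ℕ → ℝ}
    (hX : ∀ n, X (n + 2) = (1 - b) * (X (n + 1) ^ 2 + γ) + b * X n) {M : ℝ} (hM : ∀ n, |X n| ≤ M)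
    (hτ : τ ^ 2 = τ - γ) (hτ1 : 1 ≤ τ) {n : ℕ} (h0 : τ ≤ X n) (h1 : τ ≤ X (n + 1)) :
    Tendsto X atTop (𝓝 τ) := by
  have hβ : 0 < 1 - b := by linarith
  have hx : ∀ n, (1 - b) * X (n + 2) = ((1 - b) * X (n + 1)) ^ 2 + (1 - b) ^ 2 * γ +
      b * ((1 - b) * X n) := by
    intro n; rw [hX]; ring
  have h := above_fixed (x := fun n => (1 - b) * X n) hb hx (M := (1 - b) * M)
    (fun n => by rw [abs_mul, abs_of_pos hβ]; exact mul_le_mul_of_nonneg_left (hM n) hβ.le)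
    (T := (1 - b) * τ) (by linear_combination (1 - b) ^ 2 * hτ) (by nlinarith)
    (by positivity) (n := n) (mul_le_mul_of_nonneg_left h0 hβ.le)
    (mul_le_mul_of_nonneg_left h1 hβ.le)
  have h2 := h.const_mul (1 - b)⁻¹
  have e : (1 - b)⁻¹ * ((1 - b) * τ) = τ := by field_simp
  rw [e] at h2
  refine h2.congr (fun k => ?_)
  field_simp

lemma limsup_dich {b γ τ : ℝ} (hb : 0 < b) (hb1 : b < 1) {X : ℕ → ℝ}
    (hX : ∀ n, X (n + 2) = (1 - b) * (X (n + 1) ^ 2 + γ) + b * X n) {M₀ : ℝ}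
    (hM₀ : ∀ n, |X n| ≤ M₀) (hτ : τ ^ 2 = τ - γ) (hτ1 : 1 ≤ τ) (hτ2 : τ < 2) :
    (∃ l, Tendsto X atTop (𝓝 l)) ∨
      ∃ M, IsLimsup X M ∧ M < τ ∧ M ≤ max (M ^ 2) (γ ^ 2) + γ := by
  have hβ : 0 < 1 - b := by linarith
  have hγτ : -τ < γ := by nlinarith
  by_cases hab : ∃ n, τ ≤ X n ∧ τ ≤ X (n + 1)
  · obtain ⟨n, h0, h1⟩ := hab
    exact Or.inl ⟨τ, norm_above hb.le hb1 hX hM₀ hτ hτ1 h0 h1⟩
  push Not at hab
  obtain ⟨M, hM⟩ := exists_isLimsup hM₀
  have hge : ∀ {𝒰 : Ultrafilter ℕ}, (𝒰 : Filter ℕ) ≤ atTop → ∀ {d : ℕ} {ζ : ℝ},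
      Tendsto (fun k => X (k + d)) 𝒰 (𝓝 ζ) → γ ≤ ζ := by
    intro 𝒰 h1 d ζ h2
    apply le_of_forall_pos_le_add
    intro ε hε
    have h3 : γ - ε ≤ ζ := by
      refine ge_of_tendsto h2 ?_
      exact ((eventually_shift (norm_lower hb.le hb1 hX hε) d).filter_mono h1).mono
        (fun k hk => hk.le)
    linarith
  have hrec : ∀ {𝒰 : Ultrafilter ℕ} {ξ ζ η : ℝ}, Tendsto (fun k => X (k + 2)) 𝒰 (𝓝 ξ) →
      Tendsto (fun k => X (k + 1)) 𝒰 (𝓝 ζ) → Tendsto (fun k => X (k + 0)) 𝒰 (𝓝 η) →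
      ξ = (1 - b) * (ζ ^ 2 + γ) + b * η := by
    intro 𝒰 ξ ζ η h1 h2 h3
    refine tendsto_nhds_unique h1 ?_
    have := (((h2.pow 2).add_const γ).const_mul (1 - b)).add (h3.const_mul b)
    exact this.congr (fun k => (hX k).symm)
  obtain ⟨𝒰, hle, ht⟩ := hM.ultra 2
  obtain ⟨ζ, hζ⟩ := ultra_lim 𝒰 (z := fun k => X (k + 1)) (fun k => hM₀ (k + 1))
  obtain ⟨η, hη⟩ := ultra_lim 𝒰 (z := fun k => X (k + 0)) (fun k => hM₀ (k + 0))
  have e := hrec ht hζ hη
  have hζ1 := hM.le hle hζ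
  have hη1 := hM.le hle hη
  have hζ0 := hge hle hζ
  have hbη : b * η ≤ b * M := mul_le_mul_of_nonneg_left hη1 hb.le
  have hkey : M ≤ ζ ^ 2 + γ := by
    have : (1 - b) * M ≤ (1 - b) * (ζ ^ 2 + γ) := by linarith
    exact le_of_mul_le_mul_left this hβ
  have hMτ : M ≤ τ := by
    by_contra hcon
    push Not at hcon
    have h1 : τ ^ 2 < ζ ^ 2 := by linarith
    have h2 : τ < ζ := by
      by_contra hc
      push Not at hc
      nlinarith
    obtain ⟨k, hk1, hk2⟩ := ((hζ.eventually (lt_mem_nhds h2)).and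
      (ht.eventually (lt_mem_nhds hcon))).exists
    have := hab (k + 1) hk1.le
    exact absurd hk2 (not_lt.2 this.le)
  rcases lt_or_eq_of_le hMτ with hlt | heq
  · right
    refine ⟨M, hM, hlt, ?_⟩
    have hsq : ζ ^ 2 ≤ max (M ^ 2) (γ ^ 2) := by
      rcases le_total 0 ζ with h | h
      · exact le_max_of_le_left (pow_le_pow_left₀ h hζ1 2)
      · exact le_max_of_le_right (sq_le_sq_neg hζ0 h)
    linarith
  · left
    refine ⟨τ, ?_⟩
    rw [heq] at hM
    -- pairs of consecutive small values cannot occur late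
    have ht₀ : max 0 (γ ^ 2 + γ) < τ := by
      apply max_lt (by linarith)
      have hγ0 : γ ≤ 0 := by nlinarith
      have h1 : γ ^ 2 < τ ^ 2 := sq_lt_sq' hγτ (by linarith)
      linarith
    have hmax : ∀ t, max 0 (γ ^ 2 + γ) < t → t < τ → ∀ᶠ n in atTop, t < X n ∨ t < X (n + 1) := by
      intro t ht0 htτ
      have ht0' : 0 < t := lt_of_le_of_lt (le_max_left _ _) ht0
      have ht0'' : γ ^ 2 + γ < t := lt_of_le_of_lt (le_max_right _ _) ht0
      by_contra hcon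
      rw [not_eventually] at hcon
      obtain ⟨η', hη', hη1'⟩ : ∃ η' : ℝ, 0 < η' ∧ (γ - η') ^ 2 + γ ≤ t := by
        have h1 : Tendsto (fun η : ℝ => (γ - η) ^ 2 + γ) (𝓝[>] 0) (𝓝 ((γ - 0) ^ 2 + γ)) := by
          have : Continuous (fun η : ℝ => (γ - η) ^ 2 + γ) := by fun_prop
          exact (this.tendsto 0).mono_left nhdsWithin_le_nhds
        have h2 : (γ - 0) ^ 2 + γ < t := by simpa using ht0''
        obtain ⟨η', h3, h4⟩ := ((h1.eventually (gt_mem_nhds h2)).and self_mem_nhdsWithin).exists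
        exact ⟨η', h4, h3.le⟩
      obtain ⟨n₀, hn₀⟩ := eventually_atTop.1 (norm_lower hb.le hb1 hX hη')
      obtain ⟨n₁, hn₁, hP⟩ := (frequently_atTop.1 hcon) n₀
      push Not at hP
      have hinv : ∀ k, X (n₁ + k) ≤ t ∧ X (n₁ + k + 1) ≤ t := by
        intro k
        induction k with
        | zero => exact hP
        | succ k ih =>
          refine ⟨ih.2, ?_⟩
          have e : n₁ + (k + 1) + 1 = (n₁ + k) + 2 := by ring
          rw [e, hX]
          have hl := hn₀ (n₁ + k + 1) (by omega)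
          have hb' := mul_le_mul_of_nonneg_left ih.1 hb.le
          have h5 : X (n₁ + k + 1) ^ 2 + γ ≤ t := by
            rcases le_total 0 (X (n₁ + k + 1)) with h | h
            · have h5 : X (n₁ + k + 1) ^ 2 ≤ t ^ 2 := pow_le_pow_left₀ h ih.2 2
              nlinarith
            · have h5 : X (n₁ + k + 1) ^ 2 ≤ (γ - η') ^ 2 := sq_le_sq_neg hl.le h
              linarith
          have h6 := mul_le_mul_of_nonneg_left h5 hβ.le
          linarith
      obtain ⟨n, hn, hn'⟩ := (frequently_atTop.1 (hM.2 (τ - t) (by linarith))) n₁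
      obtain ⟨k, rfl⟩ := Nat.exists_eq_add_of_le hn
      have := (hinv k).1
      linarith
    have hmax2 : ∀ {𝒱 : Ultrafilter ℕ}, (𝒱 : Filter ℕ) ≤ atTop → ∀ {d : ℕ} {p q : ℝ},
        Tendsto (fun k => X (k + d)) 𝒱 (𝓝 p) → Tendsto (fun k => X (k + d + 1)) 𝒱 (𝓝 q) →
        τ ≤ p ∨ τ ≤ q := by
      intro 𝒱 hv d p q hp hq
      by_contra hcon
      push Not at hcon
      obtain ⟨t, ht1, ht2⟩ := exists_between (max_lt ht₀ (max_lt hcon.1 hcon.2))
      have h3 := (eventually_shift (hmax t (lt_of_le_of_lt (le_max_left _ _) ht1) ht2) d).filter_mono hv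
      have hpt : p < t := lt_of_le_of_lt ((le_max_left _ _).trans (le_max_right _ _)) ht1
      have hqt : q < t := lt_of_le_of_lt ((le_max_right _ _).trans (le_max_right _ _)) ht1
      obtain ⟨k, hk1, hk2, hk3⟩ := (h3.and ((hp.eventually (gt_mem_nhds hpt)).and
        (hq.eventually (gt_mem_nhds hqt)))).exists
      rcases hk1 with h | h <;> linarith
    obtain ⟨L, hL⟩ := exists_isLiminf hM₀
    have hLτ : L = τ := by
      obtain ⟨𝒱, hv, hv1⟩ := hL.ultra 1
      obtain ⟨p, hp⟩ := ultra_lim 𝒱 (z := fun k => X (k + 0)) (fun k => hM₀ (k + 0))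
      obtain ⟨q, hq⟩ := ultra_lim 𝒱 (z := fun k => X (k + 2)) (fun k => hM₀ (k + 2))
      have hp1 := hM.le hv hp
      have hq1 := hM.le hv hq
      have hL1 := hM.le hv hv1
      have hL0 := hge hv hv1
      have e1 := hrec hq hv1 hp
      rcases hmax2 hv (d := 0) hp hv1 with h | h
      · rcases hmax2 hv (d := 1) hv1 hq with h' | h'
        · linarith
        · have hpe : p = τ := le_antisymm hp1 h
          have hqe : q = τ := le_antisymm hq1 h'
          rw [hpe, hqe] at e1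
          have h3 : (1 - b) * (L ^ 2 + γ - τ) = 0 := by linarith
          rcases mul_eq_zero.1 h3 with h4 | h4
          · exact absurd h4 hβ.ne'
          · have h5 : (L - τ) * (L + τ) = 0 := by nlinarith
            rcases mul_eq_zero.1 h5 with h6 | h6
            · linarith
            · linarith
      · linarith
    exact tendsto_of_isLim (by rw [← hLτ]; exact hL) hM

end Run7.h964
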