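import Mathlib
import Pool.Agent.Run7.h964.Alt4

set_option autoImplicit false

/-!
# The parameter region `c ≥ -(5/4)(1-a²)²`
-/

namespace Run7.h964

open Filter Topology MeasureTheory Set

lemma norm_classes {b γ : ℝ} (hb : 0 < b) (hb1 : b < 1) (h1 : -(5/4) ≤ γ) (h2 : γ ≤ -1)
    {X : ℕ → ℝ} (hX : ∀ n, X (n + 2) = (1 - b) * (X (n + 1) ^ 2 + γ) + b * X n) {M₀ : ℝ}
    (hM₀ : ∀ n, |X n| ≤ M₀) (r : ℕ) : ∃ l, Tendsto (fun k => X (r + k * 2)) atTop (𝓝 l) := by
  obtain ⟨τ, hτ, hτ1, hτ2⟩ : ∃ τ : ℝ, τ ^ 2 = τ - γ ∧ 3 / 2 < τ ∧ τ < 2 := by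
    have hs2 := Real.sq_sqrt (show 0 ≤ 1 - 4 * γ by linarith)
    have hs0 := Real.sqrt_nonneg (1 - 4 * γ)
    have h3 : 2 < Real.sqrt (1 - 4 * γ) := by
      rw [Real.lt_sqrt (by norm_num)]; linarith
    have h4 : Real.sqrt (1 - 4 * γ) < 3 := by
      rw [Real.sqrt_lt' (by norm_num)]; linarith
    exact ⟨(1 + Real.sqrt (1 - 4 * γ)) / 2, by nlinarith, by linarith, by linarith⟩
  rcases limsup_dich hb hb1 hX hM₀ hτ (by linarith) hτ2 with ⟨l, hl⟩ | ⟨M, hM, hMτ, hM2⟩
  · refine ⟨l, hl.comp ?_⟩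
    apply tendsto_atTop_mono (fun k => ?_) tendsto_id
    simp only [id]
    omega
  · have hα : (1 - τ) ^ 2 = (1 - τ) - γ := by linear_combination hτ
    have hMα : M < -(1 - τ) := by
      rcases le_total (γ ^ 2) (M ^ 2) with h | h
      · rw [max_eq_left h] at hM2
        have h3 : 0 ≤ (M - τ) * (M - (1 - τ)) := by
          have : (M - τ) * (M - (1 - τ)) = M ^ 2 - M + γ := by linear_combination -hτ
          rw [this]; linarith
        have h4 : M ≤ 1 - τ := by
          by_contra hc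
          push Not at hc
          have : (M - τ) * (M - (1 - τ)) < 0 :=
            mul_neg_of_neg_of_pos (by linarith) (by linarith)
          linarith
        linarith
      · rw [max_eq_right h] at hM2
        have := (mu_bounds h1 h2).2
        linarith
    have hev : ∀ᶠ n in atTop, X n ≤ (M + (-(1 - τ))) / 2 := by
      filter_upwards [hM.1 ((-(1 - τ) - M) / 2) (by linarith)] with n hn
      linarith
    rcases alt_or_conv (α := 1 - τ) (M' := (M + (-(1 - τ))) / 2) hb hb1 hα (by linarith) hX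
      (by linarith) hev with h | ⟨N, ρ, hρ, h⟩
    · exact h r
    · obtain ⟨l₀, l₁, h3, h4⟩ := hull_conv (y := fun k => X (N + 2 * k))
        (z := fun k => X (N + 2 * k + 1)) hb hb1 h1 h2 hα (by linarith) hρ
        (fun k => by
          show X (N + 2 * (k + 1)) = _
          have e : N + 2 * (k + 1) = N + 2 * k + 2 := by ring
          rw [e, hX])
        (fun k => by
          show X (N + 2 * (k + 1) + 1) = (1 - b) * (X (N + 2 * (k + 1)) ^ 2 + γ) + _
          have e : N + 2 * (k + 1) + 1 = N + 2 * k + 1 + 2 := by ring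
          have e2 : N + 2 * (k + 1) = N + 2 * k + 1 + 1 := by ring
          rw [e, e2, hX])
        (fun k => hM₀ _) (fun k => hM₀ _) (fun k => (h k).1) (fun k => (h k).2)
      exact classes_of_tail h3 h4 r

/-- bounded orbits of the recursion converge along even and odd times -/
lemma region_classes' {b c : ℝ} {x : ℕ → ℝ} (hb : 0 < b) (hb1 : b < 1)
    (hc : -(5 / 4) * (1 - b) ^ 2 ≤ c)
    (hx : ∀ n, x (n + 2) = x (n + 1) ^ 2 + c + b * x n) {M₀ : ℝ} (hM₀ : ∀ n, |x n| ≤ M₀) (r : ℕ) :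
    ∃ l, Tendsto (fun k => x (r + k * 2)) atTop (𝓝 l) := by
  have hβ : 0 < 1 - b := by linarith
  rcases lt_or_ge (-(1 - b) ^ 2) c with h | h
  · exact region_classes hb hb1 h hx hM₀ r
  · have hγ1 : -(5/4) ≤ c / (1 - b) ^ 2 := by
      rw [le_div_iff₀ (by positivity)]; exact hc
    have hγ2 : c / (1 - b) ^ 2 ≤ -1 := by
      rw [div_le_iff₀ (by positivity)]; linarith
    obtain ⟨l, hl⟩ := norm_classes (X := fun n => x n / (1 - b)) hb hb1 hγ1 hγ2 (fun n => by
      show x (n + 2) / (1 - b) = _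
      rw [hx]
      field_simp) (M₀ := M₀ / (1 - b)) (fun n => by
      show |x n / (1 - b)| ≤ _
      rw [abs_div, abs_of_pos hβ]
      exact div_le_div_of_nonneg_right (hM₀ n) hβ.le) r
    refine ⟨(1 - b) * l, (hl.const_mul (1 - b)).congr (fun k => ?_)⟩
    field_simp

theorem region_trichotomy' (a c : ℝ) (ha : a ≠ 0) (ha1 : |a| < 1)
    (hc : -(5 / 4) * (1 - a ^ 2) ^ 2 ≤ c) (z : ℝ × ℝ) :
    Tendsto (fun n => ‖(henon a c)^[n] z‖) atTop atTop ∨
    ∃ P : ℝ × ℝ, henon a c (henon a c P) = P ∧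
      Tendsto (fun k => (henon a c)^[2 * k] z) atTop (𝓝 P) ∧
      Tendsto (fun k => (henon a c)^[2 * k + 1] z) atTop (𝓝 (henon a c P)) := by
  have hb : 0 < a ^ 2 := by positivity
  have hb1 : a ^ 2 < 1 := by
    rw [← sq_abs]
    have := abs_nonneg a
    nlinarith
  rcases bdd_or_escape hb.le (xc_rec a c z) with ⟨M, hM⟩ | h
  · right
    have h1 := region_classes' hb hb1 hc (xc_rec a c z) hM
    obtain ⟨l0, hl0⟩ := h1 0
    obtain ⟨l1, hl1⟩ := h1 1
    have hodd : Tendsto (fun k => (henon a c)^[2 * k + 1] z) atTop (𝓝 (l1, a * l0)) := by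
      have h2 : Tendsto (fun k => (xc a c z (1 + k * 2), a * xc a c z (0 + k * 2))) atTop
          (𝓝 (l1, a * l0)) := hl1.prodMk_nhds (hl0.const_mul a)
      refine h2.congr (fun k => ?_)
      rw [iter_eq]
      have e1 : 1 + k * 2 = 2 * k + 1 := by ring
      have e2 : 0 + k * 2 = 2 * k := by ring
      rw [e1, e2]
    have heven : Tendsto (fun k => (henon a c)^[2 * (k + 1)] z) atTop (𝓝 (l0, a * l1)) := by
      have h2 : Tendsto (fun k => (xc a c z (0 + (k + 1) * 2), a * xc a c z (1 + k * 2))) atTop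
          (𝓝 (l0, a * l1)) := (hl0.comp (tendsto_add_atTop_nat 1)).prodMk_nhds (hl1.const_mul a)
      refine h2.congr (fun k => ?_)
      have e1 : 1 + k * 2 = 2 * k + 1 := by ring
      have e2 : 0 + (k + 1) * 2 = 2 * k + 1 + 1 := by ring
      have e3 : 2 * (k + 1) = 2 * k + 1 + 1 := by ring
      rw [e1, e2, e3, iter_eq]
    have heven' : Tendsto (fun k => (henon a c)^[2 * k] z) atTop (𝓝 (l0, a * l1)) :=
      (tendsto_add_atTop_iff_nat (f := fun k => (henon a c)^[2 * k] z) 1).1 heven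
    have hcont := henon_continuous a c
    have h3 : henon a c (l0, a * l1) = (l1, a * l0) := by
      have h4 : Tendsto (fun k => (henon a c)^[2 * k + 1] z) atTop
          (𝓝 (henon a c (l0, a * l1))) := by
        refine ((hcont.tendsto _).comp heven').congr (fun k => ?_)
        simp only [Function.comp]
        rw [iter_succ]
      exact tendsto_nhds_unique h4 hodd
    have h5 : henon a c (l1, a * l0) = (l0, a * l1) := by
      have h4 : Tendsto (fun k => (henon a c)^[2 * (k + 1)] z) atTop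
          (𝓝 (henon a c (l1, a * l0))) := by
        refine ((hcont.tendsto _).comp hodd).congr (fun k => ?_)
        have e3 : 2 * (k + 1) = 2 * k + 1 + 1 := by ring
        simp only [Function.comp]
        rw [e3]
        exact (iter_succ a c z (2 * k + 1)).symm
      exact tendsto_nhds_unique h4 heven
    refine ⟨(l0, a * l1), by rw [h3, h5], heven', by rw [h3]; exact hodd⟩
  · left
    refine tendsto_atTop_mono (fun n => ?_) h
    rw [← Real.norm_eq_abs]
    exact norm_fst_le _

theorem region_statistical' (a c : ℝ) (ha : a ≠ 0) (ha1 : |a| < 1)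
    (hc : -(5 / 4) * (1 - a ^ 2) ^ 2 ≤ c) (z : ℝ × ℝ) : ¬ NonStat (henon a c) z := by
  intro hz
  have hb : 0 < a ^ 2 := by positivity
  have hb1 : a ^ 2 < 1 := by
    rw [← sq_abs]
    have := abs_nonneg a
    nlinarith
  obtain ⟨M, hM⟩ := hz.bounded
  exact not_nonStat_of_xc two_pos (region_classes' hb hb1 hc (xc_rec a c z) hM) hz

end Run7.h964
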