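import Mathlib
import Pool.Agent.Run7.h964.Alt5

set_option autoImplicit false

/-!
# Averages tending to zero and the potential argument
-/

namespace Run7.h964

open Filter Topology MeasureTheory Set

/-- the Cesàro averages of `f` tend to zero -/
def Avg0 (f : ℕ → ℝ) : Prop :=
  Tendsto (fun n : ℕ => (∑ k ∈ Finset.range n, f k) / n) atTop (𝓝 0)

lemma Avg0.add {f g : ℕ → ℝ} (hf : Avg0 f) (hg : Avg0 g) : Avg0 (fun k => f k + g k) := by
  have := Tendsto.add hf hg
  rw [add_zero] at this
  refine this.congr (fun n => ?_)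
  rw [Finset.sum_add_distrib, add_div]

lemma Avg0.const_mul {f : ℕ → ℝ} (hf : Avg0 f) (C : ℝ) : Avg0 (fun k => C * f k) := by
  have := Tendsto.const_mul C hf
  rw [mul_zero] at this
  refine this.congr (fun n => ?_)
  rw [← Finset.mul_sum, mul_div_assoc]

lemma Avg0.mono {f g : ℕ → ℝ} (hf : Avg0 f) (h0 : ∀ k, 0 ≤ g k) (h : ∀ k, g k ≤ f k) :
    Avg0 g := by
  refine squeeze_zero (fun n => ?_) (fun n => ?_) hf
  · exact div_nonneg (Finset.sum_nonneg fun k _ => h0 k) (Nat.cast_nonneg n)
  · exact div_le_div_of_nonneg_right (Finset.sum_le_sum fun k _ => h k) (Nat.cast_nonneg n)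

lemma Avg0.of_bound {f g : ℕ → ℝ} (hf : Avg0 f) (h0 : ∀ k, 0 ≤ g k) {C : ℝ}
    (h : ∀ n, ∑ k ∈ Finset.range n, g k ≤ C * (1 + ∑ k ∈ Finset.range (n + 1), f k)) {B : ℝ}
    (hB : ∀ k, |f k| ≤ B) (hC : 0 ≤ C) : Avg0 g := by
  have h1 : Tendsto (fun n : ℕ => C * (1 + B) / n) atTop (𝓝 0) :=
    tendsto_const_div_atTop_nhds_zero_nat _
  have h2 := h1.add (Tendsto.const_mul C hf)
  rw [mul_zero, add_zero] at h2
  refine squeeze_zero (fun n => ?_) (fun n => ?_) h2
  · exact div_nonneg (Finset.sum_nonneg fun k _ => h0 k) (Nat.cast_nonneg n)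
  · rw [← mul_div_assoc, ← add_div]
    apply div_le_div_of_nonneg_right _ (Nat.cast_nonneg n)
    refine (h n).trans ?_
    rw [Finset.sum_range_succ]
    have := (abs_le.1 (hB n)).2
    nlinarith

lemma Avg0.shift1 {f : ℕ → ℝ} (hf : Avg0 f) (h0 : ∀ k, 0 ≤ f k) {B : ℝ} (hB : ∀ k, f k ≤ B) :
    Avg0 (fun k => f (k + 1)) := by
  have h1 : Tendsto (fun n : ℕ => B / n) atTop (𝓝 0) :=
    tendsto_const_div_atTop_nhds_zero_nat _
  have h2 := Tendsto.add hf h1
  rw [add_zero] at h2
  refine squeeze_zero (fun n => ?_) (fun n => ?_) h2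
  · exact div_nonneg (Finset.sum_nonneg fun k _ => h0 _) (Nat.cast_nonneg n)
  · rw [← add_div]
    apply div_le_div_of_nonneg_right _ (Nat.cast_nonneg n)
    have h3 := Finset.sum_range_succ' f n
    rw [Finset.sum_range_succ] at h3
    have := h0 0
    have := hB n
    linarith

lemma Avg0.shift {f : ℕ → ℝ} (hf : Avg0 f) (h0 : ∀ k, 0 ≤ f k) {B : ℝ} (hB : ∀ k, f k ≤ B)
    (d : ℕ) : Avg0 (fun k => f (k + d)) := by
  induction d with
  | zero => exact hf
  | succ d ih =>
    have := Avg0.shift1 ih (fun k => h0 _) (fun k => hB _)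
    refine this.congr (fun n => ?_)
    congr 1
    apply Finset.sum_congr rfl
    intro k _
    show f (k + 1 + d) = f (k + (d + 1))
    rw [show k + 1 + d = k + (d + 1) by ring]

lemma Avg0.sum {f : ℕ → ℕ → ℝ} (m : ℕ) (hf : ∀ i < m, Avg0 (f i)) :
    Avg0 (fun k => ∑ i ∈ Finset.range m, f i k) := by
  induction m with
  | zero =>
    refine tendsto_const_nhds.congr (fun n => ?_)
    simp
  | succ m ih =>
    have h1 := Avg0.add (ih (fun i hi => hf i (by omega))) (hf m (by omega))
    refine h1.congr (fun n => ?_)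
    congr 1
    apply Finset.sum_congr rfl
    intro k _
    simp only [Finset.sum_range_succ]

/-- bounded sequence, deviations of density zero: Cesàro convergence -/
lemma cesaro_of_avg0 {g : ℕ → ℝ} {L : ℝ} (h : ∀ ε > 0, ∃ f : ℕ → ℝ, Avg0 f ∧
    ∀ k, |g k - L| ≤ ε + f k) :
    Tendsto (fun n : ℕ => (n : ℝ)⁻¹ * ∑ k ∈ Finset.range n, g k) atTop (𝓝 L) := by
  rw [Metric.tendsto_atTop]
  intro ε hε
  obtain ⟨f, hf, hfk⟩ := h (ε / 3) (by linarith)
  obtain ⟨N, hN⟩ := (Metric.tendsto_atTop.1 hf) (ε / 3) (by linarith)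
  refine ⟨N + 1, fun n hn => ?_⟩
  have hn0 : (0 : ℝ) < n := by exact_mod_cast (by omega : 0 < n)
  have h1 := hN n (by omega)
  rw [Real.dist_eq, sub_zero] at h1
  rw [Real.dist_eq]
  have h2 : (n : ℝ)⁻¹ * ∑ k ∈ Finset.range n, g k - L =
      (n : ℝ)⁻¹ * ∑ k ∈ Finset.range n, (g k - L) := by
    rw [Finset.sum_sub_distrib, Finset.sum_const, Finset.card_range, nsmul_eq_mul]
    field_simp
  rw [h2, abs_mul, abs_of_pos (inv_pos.2 hn0)]
  have h3 : |∑ k ∈ Finset.range n, (g k - L)| ≤ n * (ε / 3) + ∑ k ∈ Finset.range n, f k := by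
    refine (Finset.abs_sum_le_sum_abs _ _).trans ?_
    refine (Finset.sum_le_sum fun k _ => hfk k).trans ?_
    rw [Finset.sum_add_distrib, Finset.sum_const, Finset.card_range, nsmul_eq_mul]
  have h4 : (∑ k ∈ Finset.range n, f k) / n < ε / 3 := lt_of_le_of_lt (le_abs_self _) h1
  have h5 : (n : ℝ)⁻¹ * |∑ k ∈ Finset.range n, (g k - L)| ≤
      (n : ℝ)⁻¹ * (n * (ε / 3) + ∑ k ∈ Finset.range n, f k) :=
    mul_le_mul_of_nonneg_left h3 (inv_nonneg.2 hn0.le)
  have h6 : (n : ℝ)⁻¹ * (n * (ε / 3) + ∑ k ∈ Finset.range n, f k) =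
      ε / 3 + (∑ k ∈ Finset.range n, f k) / n := by
    field_simp
  linarith

/-- the potential argument: total variation is controlled by the number of bad times -/
lemma potential {b K D₀ : ℝ} (hb : 0 < b) (hb1 : b < 1) {u σ Ψ : ℕ → ℝ}
    (hu : ∀ k, u (k + 2) = σ (k + 1) * u (k + 1) + b * u k) (hΨ : ∀ k, Ψ (k + 1) - Ψ k = u k)
    (hK : ∀ k, |Ψ k| ≤ K) (hD : ∀ k, |u k| ≤ D₀) :
    ∃ C, 0 ≤ C ∧ ∀ n, ∑ k ∈ Finset.range n, |u k| ≤
      C * (1 + ∑ k ∈ Finset.range (n + 1), {k | σ k < 0}.indicator (fun _ => (1 : ℝ)) k) := by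
  classical
  have hβ : 0 < 1 - b := by linarith
  have hK0 : 0 ≤ K := (abs_nonneg _).trans (hK 0)
  have hD0 : 0 ≤ D₀ := (abs_nonneg _).trans (hD 0)
  obtain ⟨P, hP⟩ : ∃ P : ℕ → ℝ, ∀ k, P k = if (0 ≤ u k ∧ 0 ≤ u (k + 1)) then K - Ψ k else
      if (u k ≤ 0 ∧ u (k + 1) ≤ 0) then K + Ψ k else (|u k| + |u (k + 1)|) / (1 - b) + 3 * K :=
    ⟨_, fun k => rfl⟩
  set C₀ := 2 * D₀ / (1 - b) + 3 * K with hC₀
  have hC₀0 : 0 ≤ C₀ := by positivity
  have hP0 : ∀ k, 0 ≤ P k := by
    intro k
    have h1 := abs_le.1 (hK k)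
    rw [hP]
    split_ifs
    · linarith
    · linarith
    · positivity
  have hPC : ∀ k, P k ≤ C₀ := by
    intro k
    have h1 := abs_le.1 (hK k)
    have h4 : 0 ≤ 2 * D₀ / (1 - b) := by positivity
    rw [hP]
    split_ifs
    · rw [hC₀]; linarith
    · rw [hC₀]; linarith
    · rw [hC₀]
      have h2 := hD k
      have h3 := hD (k + 1)
      have : (|u k| + |u (k + 1)|) / (1 - b) ≤ 2 * D₀ / (1 - b) :=
        div_le_div_of_nonneg_right (by linarith) hβ.le
      linarith
  have hgood : ∀ k, 0 ≤ σ (k + 1) → |u k| ≤ P k - P (k + 1) := by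
    intro k hs
    have h2 := hu k
    have hΨ1 := hΨ k
    have hK1 := abs_le.1 (hK k)
    have hK2 := abs_le.1 (hK (k + 1))
    have e2 : k + 1 + 1 = k + 2 := rfl
    by_cases hA : 0 ≤ u k ∧ 0 ≤ u (k + 1)
    · have hA' : 0 ≤ u (k + 1) ∧ 0 ≤ u (k + 1 + 1) := by
        refine ⟨hA.2, ?_⟩
        rw [e2, h2]
        have := mul_nonneg hs hA.2
        have := mul_nonneg hb.le hA.1
        linarith
      rw [hP k, hP (k + 1), if_pos hA, if_pos hA', abs_of_nonneg hA.1]
      linarith
    · by_cases hB : u k ≤ 0 ∧ u (k + 1) ≤ 0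
      · have hB' : u (k + 1) ≤ 0 ∧ u (k + 1 + 1) ≤ 0 := by
          refine ⟨hB.2, ?_⟩
          rw [e2, h2]
          have := mul_nonpos_of_nonneg_of_nonpos hs hB.2
          have := mul_nonpos_of_nonneg_of_nonpos hb.le hB.1
          linarith
        have hA' : ¬ (0 ≤ u (k + 1) ∧ 0 ≤ u (k + 1 + 1)) := by
          rintro ⟨h3, h4⟩
          have h5 : u (k + 1) = 0 := le_antisymm hB'.1 h3
          have h6 : u (k + 2) = 0 := le_antisymm hB'.2 h4
          rw [h5, h6, mul_zero, zero_add] at h2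
          have h7 : u k = 0 := by
            rcases mul_eq_zero.1 h2.symm with h | h
            · exact absurd h hb.ne'
            · exact h
          exact hA ⟨h7.ge, h5.ge⟩
        rw [hP k, hP (k + 1), if_neg hA, if_pos hB, if_neg hA', if_pos hB', abs_of_nonpos hB.1]
        linarith
      · rw [hP k, if_neg hA, if_neg hB]
        have hdiv1 : |u k| ≤ |u k| / (1 - b) := by
          rw [le_div_iff₀ hβ]
          have := abs_nonneg (u k)
          nlinarith
        have hdiv2 : 0 ≤ |u (k + 1)| / (1 - b) := by positivity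
        rw [add_div]
        rw [hP (k + 1)]
        split_ifs with h3 h4
        · linarith
        · linarith
        · -- both strictly opposite
          rw [e2] at h3 h4 ⊢
          have hdec : |u (k + 2)| ≤ b * |u k| := by
            rcases lt_trichotomy (u (k + 1)) 0 with h | h | h
            · have h5 : 0 < u k := by
                by_contra hc
                push Not at hc
                exact hB ⟨hc, h.le⟩
              have h6 : 0 < u (k + 2) := by
                by_contra hc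
                push Not at hc
                exact h4 ⟨h.le, hc⟩
              rw [abs_of_pos h6, abs_of_pos h5, h2]
              have := mul_nonpos_of_nonneg_of_nonpos hs h.le
              linarith
            · exfalso
              rcases le_total 0 (u k) with h5 | h5
              · exact hA ⟨h5, h.ge⟩
              · exact hB ⟨h5, h.le⟩
            · have h5 : u k < 0 := by
                by_contra hc
                push Not at hc
                exact hA ⟨hc, h.le⟩
              have h6 : u (k + 2) < 0 := by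
                by_contra hc
                push Not at hc
                exact h3 ⟨h.le, hc⟩
              rw [abs_of_neg h6, abs_of_neg h5, h2]
              have := mul_nonneg hs h.le
              linarith
          have h7 : |u k| = (|u k| - b * |u k|) / (1 - b) := by
            field_simp
          have h8 : |u k| / (1 - b) - |u (k + 2)| / (1 - b) =
              (|u k| - |u (k + 2)|) / (1 - b) := by rw [sub_div]
          have h9 : (|u k| - b * |u k|) / (1 - b) ≤ (|u k| - |u (k + 2)|) / (1 - b) :=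
            div_le_div_of_nonneg_right (by linarith) hβ.le
          rw [add_div]
          linarith
  refine ⟨C₀ + D₀, by linarith, fun n => ?_⟩
  have hstep : ∀ k, |u k| ≤ P k - P (k + 1) +
      (C₀ + D₀) * {k | σ k < 0}.indicator (fun _ => (1 : ℝ)) (k + 1) := by
    intro k
    by_cases hs : 0 ≤ σ (k + 1)
    · have : (k + 1) ∉ {k | σ k < 0} := by simpa using hs
      rw [indicator_of_notMem this, mul_zero, add_zero]
      exact hgood k hs
    · push Not at hs
      have : (k + 1) ∈ {k | σ k < 0} := hs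
      rw [indicator_of_mem this, mul_one]
      have h1 := hD k
      have h2 := hP0 k
      have h3 := hPC (k + 1)
      linarith
  have hsum : ∑ k ∈ Finset.range n, |u k| ≤ P 0 - P n +
      (C₀ + D₀) * ∑ k ∈ Finset.range n, {k | σ k < 0}.indicator (fun _ => (1 : ℝ)) (k + 1) := by
    induction n with
    | zero => simp
    | succ n ih =>
      rw [Finset.sum_range_succ, Finset.sum_range_succ, mul_add]
      have := hstep n
      linarith
  have h4 : ∑ k ∈ Finset.range n, {k | σ k < 0}.indicator (fun _ => (1 : ℝ)) (k + 1) ≤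
      ∑ k ∈ Finset.range (n + 1), {k | σ k < 0}.indicator (fun _ => (1 : ℝ)) k := by
    rw [Finset.sum_range_succ']
    have : 0 ≤ {k | σ k < 0}.indicator (fun _ => (1 : ℝ)) 0 :=
      indicator_nonneg (fun _ _ => zero_le_one) _
    linarith
  have h5 := mul_le_mul_of_nonneg_left h4 (by linarith : 0 ≤ C₀ + D₀)
  have h6 := hP0 n
  have h7 := hPC 0
  linarith

end Run7.h964
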