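import Mathlib
import Pool.Agent.Run7.h964.Stat

set_option autoImplicit false

/-!
# Hénon maps and Lebesgue measure
-/

namespace Run7.h964

open Filter Topology MeasureTheory Set

/-- a horizontal shear of the plane -/
def shear (g : ℝ → ℝ) (hg : Continuous g) : (ℝ × ℝ) ≃ₜ (ℝ × ℝ) where
  toFun z := (z.1 + g z.2, z.2)
  invFun z := (z.1 - g z.2, z.2)
  left_inv z := by simp
  right_inv z := by simp
  continuous_toFun := by fun_prop
  continuous_invFun := by fun_prop

lemma shear_mp (g : ℝ → ℝ) (hg : Continuous g) :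
    MeasurePreserving (shear g hg) (volume : Measure (ℝ × ℝ)) volume := by
  have h1 : MeasurePreserving (fun p : ℝ × ℝ => (p.1, p.2 + g p.1))
      ((volume : Measure ℝ).prod volume) ((volume : Measure ℝ).prod volume) := by
    refine MeasurePreserving.skew_product (f := id) (g := fun v u => u + g v)
      (MeasurePreserving.id volume) ?_ ?_
    · have : Continuous (Function.uncurry fun v u : ℝ => u + g v) := by
        unfold Function.uncurry
        fun_prop
      exact this.measurable
    · filter_upwards with v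
      exact (measurePreserving_add_right volume (g v)).map_eq
  have h2 : MeasurePreserving (Prod.swap : ℝ × ℝ → ℝ × ℝ)
      ((volume : Measure ℝ).prod volume) ((volume : Measure ℝ).prod volume) :=
    Measure.measurePreserving_swap
  have h3 := (h2.comp h1).comp h2
  rw [← Measure.volume_eq_prod] at h3
  have heq : ⇑(shear g hg) = (Prod.swap ∘ fun p : ℝ × ℝ => (p.1, p.2 + g p.1)) ∘ Prod.swap := by
    funext z
    rfl
  rw [heq]
  exact h3

/-- the linear part -/
def linPart (a : ℝ) : (ℝ × ℝ) →ₗ[ℝ] (ℝ × ℝ) where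
  toFun z := (a * z.2, a * z.1)
  map_add' u v := by ext <;> simp <;> ring
  map_smul' r u := by ext <;> simp <;> ring

lemma linPart_det (a : ℝ) : LinearMap.det (linPart a) = -(a ^ 2) := by
  rw [← LinearMap.det_toMatrix (Module.Basis.finTwoProd ℝ), Matrix.det_fin_two]
  simp [LinearMap.toMatrix_apply, linPart]
  ring

lemma henon_factor (a c : ℝ) (ha : a ≠ 0) (z : ℝ × ℝ) :
    henon a c z = shear (fun v => (v / a) ^ 2 + c) (by fun_prop) (linPart a z) := by
  ext
  · simp only [henon, shear, linPart, Homeomorph.homeomorph_mk_coe, Equiv.coe_fn_mk,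
      LinearMap.coe_mk, AddHom.coe_mk]
    field_simp
    ring
  · simp [henon, shear, linPart]

/-- scaling of Lebesgue measure under preimages, for arbitrary sets -/
lemma volume_preimage (a c : ℝ) (ha : a ≠ 0) (S : Set (ℝ × ℝ)) :
    volume (henon a c ⁻¹' S) = ENNReal.ofReal ((a ^ 2)⁻¹) * volume S := by
  have h1 : henon a c ⁻¹' S =
      (linPart a) ⁻¹' (shear (fun v => (v / a) ^ 2 + c) (by fun_prop) ⁻¹' S) := by
    ext z
    simp only [mem_preimage]
    rw [henon_factor a c ha]
  rw [h1]
  have hdet : LinearMap.det (linPart a) ≠ 0 := by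
    rw [linPart_det]
    have : a ^ 2 ≠ 0 := by positivity
    simpa using this
  rw [Measure.addHaar_preimage_linearMap volume hdet, linPart_det]
  have h2 : volume (shear (fun v => (v / a) ^ 2 + c) (by fun_prop) ⁻¹' S) = volume S :=
    MeasurePreserving.measure_preimage_equiv
      (f := (shear (fun v => (v / a) ^ 2 + c) (by fun_prop)).toMeasurableEquiv)
      (shear_mp (fun v => (v / a) ^ 2 + c) (by fun_prop)) S
  have h3 : |(-(a ^ 2))⁻¹| = (a ^ 2)⁻¹ := by
    rw [abs_inv, abs_neg, abs_of_nonneg (sq_nonneg a)]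
  rw [h3, h2]

lemma volume_preimage_iter (a c : ℝ) (ha : a ≠ 0) (S : Set (ℝ × ℝ)) (n : ℕ) :
    volume ((henon a c)^[n] ⁻¹' S) = ENNReal.ofReal ((a ^ 2)⁻¹) ^ n * volume S := by
  induction n generalizing S with
  | zero => simp
  | succ n ih =>
    have : (henon a c)^[n + 1] ⁻¹' S = (henon a c)^[n] ⁻¹' (henon a c ⁻¹' S) := by
      ext z
      simp only [mem_preimage]
      rw [iter_succ]
    rw [this, ih, volume_preimage a c ha, pow_succ]
    ring

lemma henon_measurable (a c : ℝ) : Measurable (henon a c) := (henon_continuous a c).measurable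

/-- the set of non-statistical points -/
def nonStatSet (a c : ℝ) : Set (ℝ × ℝ) := {z | NonStat (henon a c) z}

lemma nonStat_apply_iff (f : ℝ × ℝ → ℝ × ℝ) (z : ℝ × ℝ) : NonStat f (f z) ↔ NonStat f z := by
  have key : ∀ φ : ℝ × ℝ → ℝ, Continuous φ → HasCompactSupport φ →
      Tendsto (fun n => birkhoffAverage ℝ f φ n (f z) - birkhoffAverage ℝ f φ n z) atTop (𝓝 0) := by
    intro φ hφ hc
    apply tendsto_birkhoffAverage_apply_sub_birkhoffAverage
    exact (hc.isCompact_range hφ).isBounded.subset (by rintro _ ⟨n, rfl⟩; exact ⟨_, rfl⟩)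
  constructor
  · rintro ⟨φ, hφ, hc, hn⟩
    refine ⟨φ, hφ, hc, fun ⟨l, hl⟩ => hn ⟨l, ?_⟩⟩
    have := (key φ hφ hc).add hl
    simpa using this
  · rintro ⟨φ, hφ, hc, hn⟩
    refine ⟨φ, hφ, hc, fun ⟨l, hl⟩ => hn ⟨l, ?_⟩⟩
    have := hl.sub (key φ hφ hc)
    simpa using this

lemma nonStatSet_preimage (a c : ℝ) : henon a c ⁻¹' nonStatSet a c = nonStatSet a c := by
  ext z
  exact nonStat_apply_iff _ z

lemma nonStatSet_preimage_iter (a c : ℝ) (n : ℕ) :
    (henon a c)^[n] ⁻¹' nonStatSet a c = nonStatSet a c := by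
  induction n with
  | zero => rfl
  | succ n ih =>
    have : (henon a c)^[n + 1] ⁻¹' nonStatSet a c =
        (henon a c)^[n] ⁻¹' (henon a c ⁻¹' nonStatSet a c) := by
      ext z
      simp only [mem_preimage]
      rw [iter_succ]
    rw [this, nonStatSet_preimage, ih]

end Run7.h964
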