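import Mathlib
import Pool.Agent.Run7.h964.Dens
import Pool.Agent.Run7.h964.Meas

set_option autoImplicit false

/-!
# Orbits whose lagged sums have the wrong sign with density zero
-/

namespace Run7.h964

open Filter Topology MeasureTheory Set

section

variable {b c M A ω : ℝ} {x : ℕ → ℝ} {p : ℕ}

/-- the local weight -/
noncomputable def wt (x : ℕ → ℝ) (p : ℕ) (ω : ℝ) (k : ℕ) : ℝ :=
  ∑ i ∈ Finset.range (p + 1), (|x (k + i + p) - x (k + i)| +
    {j | ω * (x (j + p) + x j) < 0}.indicator (fun _ => (1 : ℝ)) (k + i))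

lemma wt_term_nonneg (x : ℕ → ℝ) (p : ℕ) (ω : ℝ) (k i : ℕ) :
    0 ≤ |x (k + i + p) - x (k + i)| +
    {j | ω * (x (j + p) + x j) < 0}.indicator (fun _ => (1 : ℝ)) (k + i) :=
  add_nonneg (abs_nonneg _) (indicator_nonneg (fun _ _ => zero_le_one) _)

lemma compact_step (hx : ∀ n, x (n + 2) = x (n + 1) ^ 2 + c + b * x n) (hM : ∀ n, |x n| ≤ M)
    (hp : 0 < p)
    (H : ∀ X : ℕ → ℝ, (∀ n, X (n + 2) = X (n + 1) ^ 2 + c + b * X n) → (∀ n, |X n| ≤ M) →
      (∀ n, X (n + p) = X n) → (∀ n, 0 ≤ ω * X n) → X 0 = A) {ε : ℝ} (hε : 0 < ε) :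
    ∃ C, 0 ≤ C ∧ ∀ k, ε < |x k - A| → 1 ≤ C * wt x p ω k := by
  by_contra hcon
  push Not at hcon
  have hcon' : ∀ m : ℕ, ∃ k, ε < |x k - A| ∧ ((m : ℝ) + 1) * wt x p ω k < 1 :=
    fun m => hcon (m + 1) (by positivity)
  choose κ hκ1 hκ2 using hcon'
  set 𝒰 : Ultrafilter ℕ := hyperfilter ℕ with h𝒰
  have hle : (𝒰 : Filter ℕ) ≤ atTop := by
    rw [h𝒰, ← Nat.cofinite_eq_atTop]
    exact hyperfilter_le_cofinite
  have hlim : ∀ i, ∃ ζ, Tendsto (fun m => x (κ m + i)) 𝒰 (𝓝 ζ) := fun i =>
    ultra_lim 𝒰 (fun m => hM _)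
  choose X hX using hlim
  have hrec : ∀ n, X (n + 2) = X (n + 1) ^ 2 + c + b * X n := by
    intro n
    refine tendsto_nhds_unique (hX (n + 2)) ?_
    have := (((hX (n + 1)).pow 2).add_const c).add ((hX n).const_mul b)
    exact this.congr (fun k => (hx (κ k + n)).symm)
  have hXM : ∀ n, |X n| ≤ M := fun n =>
    le_of_tendsto (hX n).abs (Eventually.of_forall fun m => hM _)
  have hwt : ∀ m, wt x p ω (κ m) < 1 / ((m : ℝ) + 1) := by
    intro m
    rw [lt_div_iff₀ (by positivity), mul_comm]
    exact hκ2 m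
  have hterm : ∀ m i, i ≤ p → |x (κ m + i + p) - x (κ m + i)| +
      {j | ω * (x (j + p) + x j) < 0}.indicator (fun _ => (1 : ℝ)) (κ m + i) ≤
      wt x p ω (κ m) := by
    intro m i hi
    unfold wt
    exact Finset.single_le_sum (f := fun i => |x (κ m + i + p) - x (κ m + i)| +
      {j | ω * (x (j + p) + x j) < 0}.indicator (fun _ => (1 : ℝ)) (κ m + i))
      (fun i _ => wt_term_nonneg x p ω (κ m) i) (Finset.mem_range.2 (by omega))
  have hD : ∀ i, i ≤ p → X (i + p) = X i := by
    intro i hi
    have h1 : Tendsto (fun m => x (κ m + (i + p)) - x (κ m + i)) 𝒰 (𝓝 (X (i + p) - X i)) :=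
      (hX (i + p)).sub (hX i)
    have h2 : Tendsto (fun m => x (κ m + (i + p)) - x (κ m + i)) 𝒰 (𝓝 0) := by
      refine squeeze_zero_norm (fun m => ?_)
        ((tendsto_one_div_add_atTop_nhds_zero_nat (𝕜 := ℝ)).mono_left hle)
      have h3 := hterm m i hi
      have h4 := hwt m
      have h5 : 0 ≤ {j | ω * (x (j + p) + x j) < 0}.indicator (fun _ => (1 : ℝ)) (κ m + i) :=
        indicator_nonneg (fun _ _ => zero_le_one) _
      rw [Real.norm_eq_abs, ← add_assoc]
      linarith
    have := tendsto_nhds_unique h1 h2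
    linarith
  have hsg : ∀ i, i ≤ p → 0 ≤ ω * (X (i + p) + X i) := by
    intro i hi
    have h1 : Tendsto (fun m => ω * (x (κ m + (i + p)) + x (κ m + i))) 𝒰
        (𝓝 (ω * (X (i + p) + X i))) := ((hX (i + p)).add (hX i)).const_mul ω
    refine ge_of_tendsto h1 (Eventually.of_forall fun m => ?_)
    by_contra hc
    push Not at hc
    have h3 := hterm m i hi
    have h4 := hwt m
    have h5 : κ m + i ∈ {j | ω * (x (j + p) + x j) < 0} := by
      show ω * (x (κ m + i + p) + x (κ m + i)) < 0
      rw [add_assoc]; exact hc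
    rw [indicator_of_mem h5] at h3
    have h6 := abs_nonneg (x (κ m + i + p) - x (κ m + i))
    have h7 : 1 / ((m : ℝ) + 1) ≤ 1 := by
      rw [div_le_one (by positivity)]
      have : (0 : ℝ) ≤ m := Nat.cast_nonneg m
      linarith
    linarith
  have hper : ∀ n, X (n + p) = X n := by
    intro n
    induction n using Nat.twoStepInduction with
    | zero => exact hD 0 (by omega)
    | one => exact hD 1 (by omega)
    | more n ih1 ih2 =>
      have e : n + 2 + p = (n + p) + 2 := by ring
      have e1 : n + p + 1 = n + 1 + p := by ring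
      rw [e, hrec, hrec n, e1, ih1, ih2]
  have hnn : ∀ n, 0 ≤ ω * X n := by
    have hsm : ∀ i, i ≤ p → 0 ≤ ω * X i := by
      intro i hi
      have := hsg i hi
      rw [hper i] at this
      linarith
    intro n
    induction n using Nat.strong_induction_on with
    | _ n ih =>
      rcases le_or_gt n p with h | h
      · exact hsm n h
      · obtain ⟨m, rfl⟩ := Nat.exists_eq_add_of_le h.le
        rw [add_comm p m, hper m]
        exact ih m (by omega)
  have hX0 := H X hrec hXM hper hnn
  have h1 : Tendsto (fun m => |x (κ m + 0) - A|) 𝒰 (𝓝 |X 0 - A|) := ((hX 0).sub_const A).abs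
  have h2 : ε ≤ |X 0 - A| :=
    ge_of_tendsto h1 (Eventually.of_forall fun m => (hκ1 m).le)
  rw [hX0, sub_self, abs_zero] at h2
  linarith

lemma avg0_far (hb : 0 < b) (hb1 : b < 1)
    (hx : ∀ n, x (n + 2) = x (n + 1) ^ 2 + c + b * x n) (hM : ∀ n, |x n| ≤ M)
    (hp : 0 < p) (hω : ω = 1 ∨ ω = -1) (hωp : ω ^ p = 1)
    (H : ∀ X : ℕ → ℝ, (∀ n, X (n + 2) = X (n + 1) ^ 2 + c + b * X n) → (∀ n, |X n| ≤ M) →
      (∀ n, X (n + p) = X n) → (∀ n, 0 ≤ ω * X n) → X 0 = A)
    (hdens : Avg0 ({j | ω * (x (j + p) + x j) < 0}.indicator (fun _ => (1 : ℝ))))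
    {ε : ℝ} (hε : 0 < ε) : Avg0 ({k | ε < |x k - A|}.indicator (fun _ => (1 : ℝ))) := by
  have hω2 : ω ^ 2 = 1 := by rcases hω with h | h <;> rw [h] <;> norm_num
  have hωabs : ∀ k : ℕ, |ω ^ k| = 1 := by
    intro k
    rw [abs_pow]
    rcases hω with h | h <;> rw [h] <;> simp
  have hM0 : 0 ≤ M := (abs_nonneg _).trans (hM 0)
  -- total variation
  have hvar : Avg0 (fun k => |x (k + p) - x k|) := by
    obtain ⟨C, hC, hsum⟩ := potential (u := fun k => ω ^ k * (x (k + p) - x k))
      (σ := fun k => ω * (x (k + p) + x k))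
      (Ψ := fun k => ∑ i ∈ Finset.range p, ω ^ (k + i) * x (k + i)) (K := p * M) (D₀ := 2 * M)
      hb hb1 (by
        intro k
        show ω ^ (k + 2) * (x (k + 2 + p) - x (k + 2)) = ω * (x (k + 1 + p) + x (k + 1)) *
          (ω ^ (k + 1) * (x (k + 1 + p) - x (k + 1))) + b * (ω ^ k * (x (k + p) - x k))
        rw [lag_rec hx p k]
        have e1 : ω ^ (k + 2) = ω ^ k := by rw [pow_add, hω2, mul_one]
        have e2 : ω * ω ^ (k + 1) = ω ^ k := by
          have : ω * ω ^ (k + 1) = ω ^ k * ω ^ 2 := by ring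
          rw [this, hω2, mul_one]
        rw [e1]
        linear_combination (-(x (k + 1 + p) + x (k + 1)) * (x (k + 1 + p) - x (k + 1))) * e2)
      (by
        intro k
        show ∑ i ∈ Finset.range p, ω ^ (k + 1 + i) * x (k + 1 + i) -
          ∑ i ∈ Finset.range p, ω ^ (k + i) * x (k + i) = ω ^ k * (x (k + p) - x k)
        have h1 := Finset.sum_range_succ (fun i => ω ^ (k + i) * x (k + i)) p
        have h2 := Finset.sum_range_succ' (fun i => ω ^ (k + i) * x (k + i)) p
        have h3 : ∑ i ∈ Finset.range p, ω ^ (k + (i + 1)) * x (k + (i + 1)) =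
            ∑ i ∈ Finset.range p, ω ^ (k + 1 + i) * x (k + 1 + i) := by
          apply Finset.sum_congr rfl
          intro i _
          rw [show k + (i + 1) = k + 1 + i by ring]
        rw [h3] at h2
        have e : ω ^ (k + p) = ω ^ k := by rw [pow_add, hωp, mul_one]
        rw [e] at h1
        simp only [add_zero] at h2
        linarith)
      (by
        intro k
        refine (Finset.abs_sum_le_sum_abs _ _).trans ?_
        refine (Finset.sum_le_sum (g := fun _ => M) fun i _ => ?_).trans ?_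
        · rw [abs_mul, hωabs, one_mul]; exact hM _
        · rw [Finset.sum_const, Finset.card_range, nsmul_eq_mul])
      (by
        intro k
        show |ω ^ k * (x (k + p) - x k)| ≤ 2 * M
        rw [abs_mul, hωabs, one_mul]
        have h1 := abs_le.1 (hM (k + p))
        have h2 := abs_le.1 (hM k)
        rw [abs_le]
        constructor <;> linarith)
    refine Avg0.of_bound hdens (fun k => abs_nonneg _) (C := C) (fun n => ?_) (B := 1)
      (fun k => ?_) hC
    · refine le_trans (le_of_eq ?_) (hsum n)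
      apply Finset.sum_congr rfl
      intro k _
      rw [abs_mul, hωabs, one_mul]
    · by_cases h : k ∈ {j | ω * (x (j + p) + x j) < 0}
      · rw [indicator_of_mem h]; simp
      · rw [indicator_of_notMem h]; simp
  have hwt : Avg0 (wt x p ω) := by
    have h1 : ∀ i < p + 1, Avg0 (fun k => |x (k + i + p) - x (k + i)| +
        {j | ω * (x (j + p) + x j) < 0}.indicator (fun _ => (1 : ℝ)) (k + i)) := by
      intro i _
      apply Avg0.add
      · exact Avg0.shift hvar (fun k => abs_nonneg _) (B := 2 * M) (fun k => by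
          have h1 := abs_le.1 (hM (k + p))
          have h2 := abs_le.1 (hM k)
          rw [abs_le]
          constructor <;> linarith) i
      · exact Avg0.shift hdens (fun k => indicator_nonneg (fun _ _ => zero_le_one) _) (B := 1)
          (fun k => indicator_le_self' (fun _ _ => zero_le_one) _) i
    exact Avg0.sum (p + 1) h1
  obtain ⟨C, hC, hCk⟩ := compact_step hx hM hp H hε
  refine (hwt.const_mul C).mono (fun k => indicator_nonneg (fun _ _ => zero_le_one) _)
    (fun k => ?_)
  by_cases h : k ∈ {k | ε < |x k - A|}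
  · rw [indicator_of_mem h]
    exact hCk k h
  · rw [indicator_of_notMem h]
    apply mul_nonneg hC
    exact Finset.sum_nonneg fun i _ => wt_term_nonneg x p ω k i

end

/-- if the orbit is close to a fixed point at all times outside a set of density zero, the point
is statistical -/
lemma not_nonStat_of_far {a c A : ℝ} {z : ℝ × ℝ}
    (h : ∀ ε > 0, Avg0 ({k | ε < |xc a c z k - A|}.indicator (fun _ => (1 : ℝ)))) :
    ¬ NonStat (henon a c) z := by
  rw [← nonStat_apply_iff (henon a c) z]
  rintro ⟨φ, hφ, hc, hn⟩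
  apply hn
  refine ⟨φ (A, a * A), ?_⟩
  obtain ⟨B, hB⟩ := (hc.isCompact_range hφ).isBounded.subset_closedBall (0 : ℝ)
  have hB' : ∀ w, |φ w| ≤ B := by
    intro w
    have := hB ⟨w, rfl⟩
    rwa [mem_closedBall_zero_iff, Real.norm_eq_abs] at this
  have hB0 : 0 ≤ B := (abs_nonneg _).trans (hB' 0)
  have hiter : ∀ k, (henon a c)^[k] (henon a c z) = (xc a c z (k + 1), a * xc a c z k) := by
    intro k
    rw [← Function.iterate_succ_apply]
    exact iter_eq a c z k
  have key : Tendsto (fun n : ℕ => (n : ℝ)⁻¹ *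
      ∑ k ∈ Finset.range n, φ ((henon a c)^[k] (henon a c z))) atTop (𝓝 (φ (A, a * A))) := by
    apply cesaro_of_avg0
    intro ε hε
    have hcont := hφ.continuousAt (x := (A, a * A))
    obtain ⟨δ, hδ, hball⟩ := (Metric.continuousAt_iff.1 hcont) ε hε
    -- tolerance for x
    obtain ⟨δ', hδ', h1, h2⟩ : ∃ δ' : ℝ, 0 < δ' ∧ δ' < δ ∧ |a| * δ' < δ := by
      refine ⟨δ / (2 * (1 + |a|)), by positivity, ?_, ?_⟩
      · rw [div_lt_iff₀ (by positivity)]
        nlinarith [abs_nonneg a]
      · rw [← mul_div_assoc, div_lt_iff₀ (by positivity)]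
        nlinarith [abs_nonneg a]
    have h3 := h δ' hδ'
    have h4 := Avg0.shift1 h3 (fun k => indicator_nonneg (fun _ _ => zero_le_one) _) (B := 1)
      (fun k => indicator_le_self' (fun _ _ => zero_le_one) _)
    refine ⟨_, (h3.add h4).const_mul (2 * B), fun k => ?_⟩
    rw [hiter]
    by_cases g1 : k ∈ {k | δ' < |xc a c z k - A|}
    · have : (1:ℝ) ≤ {k | δ' < |xc a c z k - A|}.indicator (fun _ => (1 : ℝ)) k +
          {k | δ' < |xc a c z k - A|}.indicator (fun _ => (1 : ℝ)) (k + 1) := by
        rw [indicator_of_mem g1]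
        have : 0 ≤ {k | δ' < |xc a c z k - A|}.indicator (fun _ => (1 : ℝ)) (k + 1) :=
          indicator_nonneg (fun _ _ => zero_le_one) _
        linarith
      have h5 := abs_sub (φ (xc a c z (k + 1), a * xc a c z k)) (φ (A, a * A))
      have h6 := hB' (xc a c z (k + 1), a * xc a c z k)
      have h7 := hB' (A, a * A)
      nlinarith
    · by_cases g2 : (k + 1) ∈ {k | δ' < |xc a c z k - A|}
      · have : (1:ℝ) ≤ {k | δ' < |xc a c z k - A|}.indicator (fun _ => (1 : ℝ)) k +
            {k | δ' < |xc a c z k - A|}.indicator (fun _ => (1 : ℝ)) (k + 1) := by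
          rw [indicator_of_mem g2]
          have : 0 ≤ {k | δ' < |xc a c z k - A|}.indicator (fun _ => (1 : ℝ)) k :=
            indicator_nonneg (fun _ _ => zero_le_one) _
          linarith
        have h5 := abs_sub (φ (xc a c z (k + 1), a * xc a c z k)) (φ (A, a * A))
        have h6 := hB' (xc a c z (k + 1), a * xc a c z k)
        have h7 := hB' (A, a * A)
        nlinarith
      · have g1' : |xc a c z k - A| ≤ δ' := not_lt.1 g1
        have g2' : |xc a c z (k + 1) - A| ≤ δ' := not_lt.1 g2
        have h5 : dist (xc a c z (k + 1), a * xc a c z k) (A, a * A) < δ := by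
          rw [Prod.dist_eq, Real.dist_eq, Real.dist_eq]
          apply max_lt
          · linarith
          · have : a * xc a c z k - a * A = a * (xc a c z k - A) := by ring
            rw [this, abs_mul]
            have := mul_le_mul_of_nonneg_left g1' (abs_nonneg a)
            linarith
        have h6 := hball h5
        rw [Real.dist_eq] at h6
        rw [indicator_of_notMem g1, indicator_of_notMem g2]
        linarith
  exact key.congr (fun n => (birkhoffAverage_eq _ φ n _).symm)

end Run7.h964
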