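import Mathlib
import Pool.Agent.Run7.h964.Meas
import Pool.Agent.H165R3.BPE

set_option autoImplicit false

/-!
# Measurability of the non-statistical set and the case `|a| ≥ 1`
-/

namespace Run7.h964

open Filter Topology MeasureTheory Set

/-- a countable dense family of continuous functions -/
noncomputable def ψ : ℕ → C(ℝ × ℝ, ℝ) := TopologicalSpace.denseSeq C(ℝ × ℝ, ℝ)

lemma exists_close (φ : C(ℝ × ℝ, ℝ)) {K : Set (ℝ × ℝ)} (hK : IsCompact K) {ε : ℝ} (hε : 0 < ε) :
    ∃ k, ∀ x ∈ K, |φ x - ψ k x| < ε := by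
  have h1 : φ ∈ closure (range ψ) := by
    have : DenseRange ψ := TopologicalSpace.denseRange_denseSeq _
    rw [this.closure_eq]; trivial
  obtain ⟨u, hu, hlim⟩ := mem_closure_iff_seq_limit.1 h1
  have h2 := (ContinuousMap.tendsto_iff_forall_isCompact_tendstoUniformlyOn.1 hlim) K hK
  have h3 := (Metric.tendstoUniformlyOn_iff.1 h2) ε hε
  obtain ⟨n, hn⟩ := h3.exists
  obtain ⟨k, hk⟩ := hu n
  refine ⟨k, fun x hx => ?_⟩
  have := hn x hx
  rw [Real.dist_eq] at this
  rw [hk]
  exact this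

lemma avg_congr {f : ℝ × ℝ → ℝ × ℝ} {φ φ' : ℝ × ℝ → ℝ} {z : ℝ × ℝ}
    (h : ∀ n, φ (f^[n] z) = φ' (f^[n] z)) (n : ℕ) :
    birkhoffAverage ℝ f φ n z = birkhoffAverage ℝ f φ' n z := by
  rw [birkhoffAverage_eq, birkhoffAverage_eq]
  congr 1
  exact Finset.sum_congr rfl (fun k _ => h k)

lemma avg_close {f : ℝ × ℝ → ℝ × ℝ} {φ φ' : ℝ × ℝ → ℝ} {z : ℝ × ℝ} {ε : ℝ} (hε : 0 ≤ ε)
    (h : ∀ n, |φ (f^[n] z) - φ' (f^[n] z)| ≤ ε) (n : ℕ) :
    |birkhoffAverage ℝ f φ n z - birkhoffAverage ℝ f φ' n z| ≤ ε := by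
  rw [birkhoffAverage_eq, birkhoffAverage_eq, ← mul_sub, ← Finset.sum_sub_distrib, abs_mul,
    abs_of_nonneg (by positivity : (0:ℝ) ≤ (n:ℝ)⁻¹)]
  rcases Nat.eq_zero_or_pos n with rfl | hn
  · simpa using hε
  · rw [inv_mul_le_iff₀ (by exact_mod_cast hn)]
    refine (Finset.abs_sum_le_sum_abs _ _).trans ?_
    refine (Finset.sum_le_sum (fun k _ => h k)).trans ?_
    simp

lemma nonStat_iff_of_bounded {f : ℝ × ℝ → ℝ × ℝ} {z : ℝ × ℝ} {R : ℝ}
    (hR : ∀ n, ‖f^[n] z‖ ≤ R) :
    NonStat f z ↔ ∃ k, ¬ ∃ l : ℝ, Tendsto (fun n => birkhoffAverage ℝ f (ψ k) n z) atTop (𝓝 l) := by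
  have hin : ∀ n, f^[n] z ∈ Metric.closedBall (0 : ℝ × ℝ) R := fun n => by
    rw [mem_closedBall_zero_iff]; exact hR n
  constructor
  · rintro ⟨φ, hφ, hc, hn⟩
    by_contra hcon
    push Not at hcon
    apply hn
    apply cauchySeq_tendsto_of_complete
    rw [Metric.cauchySeq_iff]
    intro ε hε
    obtain ⟨k, hk⟩ := exists_close ⟨φ, hφ⟩ (isCompact_closedBall (0 : ℝ × ℝ) R)
      (show 0 < ε / 3 by linarith)
    obtain ⟨l, hl⟩ := hcon k
    obtain ⟨N, hN⟩ := Metric.cauchySeq_iff.1 hl.cauchySeq (ε / 3) (by linarith)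
    refine ⟨N, fun m hm n hn => ?_⟩
    have h1 := hN m hm n hn
    have hcl := fun n => avg_close (f := f) (φ := φ) (φ' := ψ k) (z := z) (ε := ε / 3) (by linarith)
      (fun n => (hk _ (hin n)).le) n
    have h2 := hcl m
    have h3 := hcl n
    rw [Real.dist_eq] at h1 ⊢
    rw [abs_lt] at h1 ⊢
    rw [abs_le] at h2 h3
    constructor <;> linarith
  · rintro ⟨k, hk⟩
    set χ : ℝ × ℝ → ℝ := fun w => max 0 (min 1 (R + 1 - ‖w‖)) with hχ
    have hχc : Continuous χ := by fun_prop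
    refine ⟨fun w => χ w * ψ k w, hχc.mul (ψ k).continuous, ?_, ?_⟩
    · apply HasCompactSupport.intro (isCompact_closedBall (0 : ℝ × ℝ) (R + 1))
      intro w hw
      rw [mem_closedBall_zero_iff, not_le] at hw
      have : χ w = 0 := by
        simp only [hχ]
        apply max_eq_left
        exact (min_le_right _ _).trans (by linarith)
      rw [this, zero_mul]
    · rintro ⟨l, hl⟩
      apply hk
      refine ⟨l, hl.congr (fun n => ?_)⟩
      apply avg_congr
      intro m
      have : χ (f^[m] z) = 1 := by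
        simp only [hχ]
        have := hR m
        rw [min_eq_left (by linarith), max_eq_right (by norm_num)]
      rw [this, one_mul]

lemma avg_measurable (a c : ℝ) (k n : ℕ) :
    Measurable (fun z => birkhoffAverage ℝ (henon a c) (ψ k) n z) := by
  have : (fun z => birkhoffAverage ℝ (henon a c) (ψ k) n z) =
      fun z => (n : ℝ)⁻¹ * ∑ i ∈ Finset.range n, ψ k ((henon a c)^[i] z) := by
    funext z; exact birkhoffAverage_eq _ _ _ _
  rw [this]
  apply Measurable.const_mul
  apply Finset.measurable_sum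
  intro i _
  exact (ψ k).continuous.measurable.comp ((henon_measurable a c).iterate i)

lemma iter_norm_le {a c : ℝ} {z : ℝ × ℝ} {M : ℝ} (hM : ∀ n, |xc a c z n| ≤ M) :
    ∃ R, ∀ n, ‖(henon a c)^[n] z‖ ≤ R := by
  refine ⟨max (max M (|a| * M)) (max M |z.2|), fun n => ?_⟩
  rw [Prod.norm_def]
  apply max_le
  · exact (hM n).trans ((le_max_left _ _).trans (le_max_left _ _))
  · cases n with
    | zero => exact (le_max_right _ _).trans (le_max_right _ _)
    | succ n =>
      rw [iter_snd, norm_mul]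
      refine le_trans ?_ ((le_max_right _ _).trans (le_max_left _ _))
      exact mul_le_mul_of_nonneg_left (hM n) (abs_nonneg a)

/-- the non-statistical set is Borel -/
theorem nonStatSet_measurable (a c : ℝ) : MeasurableSet (nonStatSet a c) := by
  have h1 : nonStatSet a c = ⋃ j : ℕ, ({z | ∀ n, ‖(henon a c)^[n] z‖ ≤ j} ∩
      ⋃ k : ℕ, {z | ∃ l : ℝ, Tendsto (fun n => birkhoffAverage ℝ (henon a c) (ψ k) n z) atTop
        (𝓝 l)}ᶜ) := by
    ext z
    simp only [mem_iUnion, mem_inter_iff, mem_setOf_eq, mem_compl_iff]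
    constructor
    · intro hz
      obtain ⟨M, hM⟩ := NonStat.bounded hz
      obtain ⟨R, hR⟩ := iter_norm_le hM
      obtain ⟨j, hj⟩ := exists_nat_ge R
      have hj' : ∀ n, ‖(henon a c)^[n] z‖ ≤ j := fun n => (hR n).trans hj
      exact ⟨j, hj', (nonStat_iff_of_bounded hj').1 hz⟩
    · rintro ⟨j, hj, hk⟩
      exact (nonStat_iff_of_bounded hj).2 hk
  rw [h1]
  apply MeasurableSet.iUnion
  intro j
  apply MeasurableSet.inter
  · have : {z : ℝ × ℝ | ∀ n, ‖(henon a c)^[n] z‖ ≤ j} =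
        ⋂ n : ℕ, {z | ‖(henon a c)^[n] z‖ ≤ j} := by ext z; simp
    rw [this]
    apply MeasurableSet.iInter
    intro n
    exact measurableSet_le (((henon_measurable a c).iterate n).norm) measurable_const
  · apply MeasurableSet.iUnion
    intro k
    exact (measurableSet_exists_tendsto (fun n => avg_measurable a c k n)).compl

/-- the trapping part of the set of bounded orbits -/
def trap (a c : ℝ) : Set (ℝ × ℝ) :=
  {z | (∀ n, |xc a c z n| ≤ 2 + a ^ 2 + |c|) ∧ |z.2| ≤ |a| * (2 + a ^ 2 + |c|)}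

lemma trap_sub (a c : ℝ) : trap a c ⊆ henon a c ⁻¹' trap a c := by
  intro z hz
  refine ⟨fun n => ?_, ?_⟩
  · have := hz.1 (n + 1)
    have e : xc a c (henon a c z) n = xc a c z (n + 1) := by
      unfold xc
      rw [Function.iterate_succ_apply]
    rwa [e]
  · show |a * z.1| ≤ _
    rw [abs_mul]
    exact mul_le_mul_of_nonneg_left (hz.1 0) (abs_nonneg a)

lemma trap_measurable (a c : ℝ) : MeasurableSet (trap a c) := by
  have : trap a c = (⋂ n : ℕ, {z | |xc a c z n| ≤ 2 + a ^ 2 + |c|}) ∩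
      {z | |z.2| ≤ |a| * (2 + a ^ 2 + |c|)} := by
    ext z; simp [trap]
  rw [this]
  apply MeasurableSet.inter
  · apply MeasurableSet.iInter
    intro n
    exact measurableSet_le (((henon_measurable a c).iterate n).fst.abs) measurable_const
  · exact measurableSet_le (measurable_snd.abs) measurable_const

lemma trap_bounded (a c : ℝ) {z : ℝ × ℝ} (hz : z ∈ trap a c) :
    ‖z‖ ≤ (1 + |a|) * (2 + a ^ 2 + |c|) := by
  have h0 : 0 ≤ 2 + a ^ 2 + |c| := by positivity
  rw [Prod.norm_def]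
  apply max_le
  · have := hz.1 0
    have h1 : |z.1| ≤ 2 + a ^ 2 + |c| := this
    rw [Real.norm_eq_abs]
    nlinarith [abs_nonneg a]
  · have h1 := hz.2
    rw [Real.norm_eq_abs]
    nlinarith [abs_nonneg a]

lemma trap_finite (a c : ℝ) : volume (trap a c) < ⊤ := by
  refine lt_of_le_of_lt (measure_mono (t := Metric.closedBall (0 : ℝ × ℝ)
    ((1 + |a|) * (2 + a ^ 2 + |c|))) ?_) measure_closedBall_lt_top
  intro z hz
  rw [mem_closedBall_zero_iff]
  exact trap_bounded a c hz

lemma enters_trap {a c : ℝ} {z : ℝ × ℝ} {M : ℝ} (hM : ∀ n, |xc a c z n| ≤ M) :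
    ∃ N, ∀ n, N ≤ n → (henon a c)^[n] z ∈ trap a c := by
  obtain ⟨N, hN⟩ := eventually_lt (sq_nonneg a) (xc_rec a c z) hM
  refine ⟨N + 1, fun n hn => ?_⟩
  refine ⟨fun k => ?_, ?_⟩
  · have e : xc a c ((henon a c)^[n] z) k = xc a c z (k + n) := by
      unfold xc
      rw [Function.iterate_add_apply]
    rw [e]
    exact (hN _ (by omega)).le
  · obtain ⟨m, rfl⟩ : ∃ m, n = m + 1 := ⟨n - 1, by omega⟩
    rw [iter_snd, abs_mul]
    exact mul_le_mul_of_nonneg_left (hN m (by omega)).le (abs_nonneg a)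

/-- a null trapping part of an invariant set gives a null invariant set -/
lemma null_of_trap_null {a c : ℝ} (ha : a ≠ 0)
    (h : volume (trap a c ∩ nonStatSet a c) = 0) : volume (nonStatSet a c) = 0 := by
  have h1 : nonStatSet a c ⊆ ⋃ n : ℕ, (henon a c)^[n] ⁻¹' (trap a c ∩ nonStatSet a c) := by
    intro z hz
    obtain ⟨M, hM⟩ := NonStat.bounded hz
    obtain ⟨N, hN⟩ := enters_trap hM
    refine mem_iUnion.2 ⟨N, hN N le_rfl, ?_⟩
    have : z ∈ (henon a c)^[N] ⁻¹' nonStatSet a c := by rw [nonStatSet_preimage_iter]; exact hz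
    exact this
  refine measure_mono_null h1 ?_
  rw [measure_iUnion_null_iff]
  intro n
  rw [volume_preimage_iter a c ha, h, mul_zero]

/-- expanding case -/
theorem null_of_one_lt {a c : ℝ} (ha : 1 < |a|) : volume (nonStatSet a c) = 0 := by
  have ha0 : a ≠ 0 := by rintro rfl; norm_num at ha
  apply null_of_trap_null ha0
  have h1 : volume (trap a c) ≤ ENNReal.ofReal ((a ^ 2)⁻¹) * volume (trap a c) := by
    rw [← volume_preimage a c ha0]
    exact measure_mono (trap_sub a c)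
  have h2 : volume (trap a c) = 0 := by
    by_contra hne
    have hlt : ENNReal.ofReal ((a ^ 2)⁻¹) < 1 := by
      rw [ENNReal.ofReal_lt_one]
      apply inv_lt_one_of_one_lt₀
      rw [← sq_abs]
      nlinarith
    have h3 : ENNReal.ofReal ((a ^ 2)⁻¹) * volume (trap a c) < 1 * volume (trap a c) :=
      ENNReal.mul_lt_mul_left hne (trap_finite a c).ne hlt
    rw [one_mul] at h3
    exact absurd h1 (not_le.2 h3)
  exact measure_mono_null inter_subset_left h2

end Run7.h964
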