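import Mathlib
import Pool.Agent.Run7.h964.Cons

set_option autoImplicit false

/-!
# The conservative case `|a| = 1`
-/

namespace Run7.h964

open Filter Topology MeasureTheory Set
open scoped ENNReal

lemma trap_iter {a c : ℝ} {z : ℝ × ℝ} (hz : z ∈ trap a c) (n : ℕ) :
    (henon a c)^[n] z ∈ trap a c := by
  induction n with
  | zero => exact hz
  | succ n ih =>
    rw [iter_succ]
    exact trap_sub a c ih

theorem null_of_eq_one {a c : ℝ} (ha : |a| = 1) : volume (nonStatSet a c) = 0 := by
  have ha0 : a ≠ 0 := by rintro rfl; norm_num at ha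
  have ha2 : a ^ 2 = 1 := by rw [← sq_abs, ha]; norm_num
  have hvol : ∀ S : Set (ℝ × ℝ), volume (henon a c ⁻¹' S) = volume S := by
    intro S
    rw [volume_preimage a c ha0, ha2]
    simp
  apply null_of_trap_null ha0
  set X := trap a c with hX
  have hXm : MeasurableSet X := trap_measurable a c
  have hXf : volume X ≠ ⊤ := (trap_finite a c).ne
  by_cases hX0 : volume X = 0
  · exact measure_mono_null inter_subset_left hX0
  have hHm := henon_measurable a c
  have hdiff : volume (henon a c ⁻¹' X \ X) = 0 := by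
    rw [measure_sdiff (trap_sub a c) hXm.nullMeasurableSet hXf, hvol, tsub_self]
  have hkey : ∀ B, MeasurableSet B → volume (X ∩ henon a c ⁻¹' B) = volume (X ∩ B) := by
    intro B hB
    have h1 : volume (henon a c ⁻¹' (X ∩ B)) = volume (X ∩ B) := hvol _
    rw [← h1]
    apply le_antisymm
    · apply measure_mono
      intro z hz
      exact ⟨trap_sub a c hz.1, hz.2⟩
    · have h2 : henon a c ⁻¹' (X ∩ B) ⊆ (X ∩ henon a c ⁻¹' B) ∪ (henon a c ⁻¹' X \ X) := by
        intro z hz
        by_cases hzX : z ∈ X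
        · exact Or.inl ⟨hzX, hz.2⟩
        · exact Or.inr ⟨hz.1, hzX⟩
      calc volume (henon a c ⁻¹' (X ∩ B)) ≤
            volume ((X ∩ henon a c ⁻¹' B) ∪ (henon a c ⁻¹' X \ X)) := measure_mono h2
        _ ≤ volume (X ∩ henon a c ⁻¹' B) + volume (henon a c ⁻¹' X \ X) := measure_union_le _ _
        _ = volume (X ∩ henon a c ⁻¹' B) := by rw [hdiff, add_zero]
  set m : Measure (ℝ × ℝ) := (volume X)⁻¹ • volume.restrict X with hm
  have hprob : IsProbabilityMeasure m := by
    constructor
    rw [hm, Measure.smul_apply, Measure.restrict_apply_univ, smul_eq_mul]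
    exact ENNReal.inv_mul_cancel hX0 hXf
  have hmp : MeasurePreserving (henon a c) m m := by
    refine ⟨hHm, ?_⟩
    ext B hB
    rw [Measure.map_apply hHm hB, hm, Measure.smul_apply, Measure.smul_apply,
      Measure.restrict_apply (hHm hB), Measure.restrict_apply hB, inter_comm _ X, inter_comm B X,
      hkey B hB]
  have hae : ∀ k, ∀ᵐ z ∂m, ∃ l : ℝ, Tendsto (fun n : ℕ => (n : ℝ)⁻¹ *
      ∑ i ∈ Finset.range n, X.indicator (ψ k) ((henon a c)^[i] z)) atTop (𝓝 l) := by
    intro k
    obtain ⟨C, hC⟩ := (isCompact_closedBall (0 : ℝ × ℝ) ((1 + |a|) * (2 + a ^ 2 + |c|))).exists_bound_of_continuousOn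
      (ψ k).continuous.continuousOn
    have hb : ∀ x, |X.indicator (ψ k) x| ≤ max C 0 := by
      intro x
      by_cases hx : x ∈ X
      · rw [indicator_of_mem hx]
        refine le_trans ?_ (le_max_left _ _)
        exact hC x (by rw [mem_closedBall_zero_iff]; exact trap_bounded a c hx)
      · rw [indicator_of_notMem hx]
        simp
    have := Pool.Agent.H165R3.BPE.birkhoff hmp (X.indicator (ψ k))
      ((ψ k).continuous.measurable.indicator hXm) (max C 0) hb
    filter_upwards [this] with z hz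
    exact ⟨_, hz⟩
  rw [← ae_all_iff] at hae
  have hae2 : ∀ᵐ z ∂(volume.restrict X), ∀ k, ∃ l : ℝ, Tendsto (fun n : ℕ => (n : ℝ)⁻¹ *
      ∑ i ∈ Finset.range n, X.indicator (ψ k) ((henon a c)^[i] z)) atTop (𝓝 l) := by
    rw [hm, ae_iff, Measure.smul_apply, smul_eq_mul, mul_eq_zero] at hae
    rcases hae with h | h
    · exact absurd h (ENNReal.inv_ne_zero.2 hXf)
    · exact h
  rw [ae_restrict_iff' hXm] at hae2
  rw [measure_eq_zero_iff_ae_notMem]
  filter_upwards [hae2] with z hz hz'
  obtain ⟨hzX, hzN⟩ := hz'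
  have hb : ∀ n, ‖(henon a c)^[n] z‖ ≤ (1 + |a|) * (2 + a ^ 2 + |c|) := fun n =>
    trap_bounded a c (trap_iter hzX n)
  obtain ⟨k, hk⟩ := (nonStat_iff_of_bounded hb).1 hzN
  apply hk
  obtain ⟨l, hl⟩ := hz hzX k
  refine ⟨l, hl.congr (fun n => ?_)⟩
  rw [birkhoffAverage_eq]
  congr 1
  apply Finset.sum_congr rfl
  intro i _
  rw [indicator_of_mem (trap_iter hzX i)]

theorem null_of_one_le {a c : ℝ} (ha : 1 ≤ |a|) : volume (nonStatSet a c) = 0 := by
  rcases lt_or_eq_of_le ha with h | h
  · exact null_of_one_lt h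
  · exact null_of_eq_one h.symm

end Run7.h964
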