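import Mathlib

set_option autoImplicit false

/-!
# Horizontal derivatives and expansion away from the critical strip
-/

namespace Run7.h964

namespace Strip

open Filter Topology MeasureTheory Set

variable (b c w : ℝ)

/-- first coordinates of the orbit starting on the horizontal line of height `w` -/
def X : ℕ → ℝ → ℝ
  | 0, t => t
  | 1, t => t ^ 2 + c + b * w
  | (n + 2), t => (X (n + 1) t) ^ 2 + c + b * X n t

/-- first derivative of `X` -/
def U : ℕ → ℝ → ℝ
  | 0, _ => 1
  | 1, t => 2 * t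
  | (n + 2), t => 2 * X b c w (n + 1) t * U (n + 1) t + b * U n t

/-- second derivative of `X` -/
def V : ℕ → ℝ → ℝ
  | 0, _ => 0
  | 1, _ => 2
  | (n + 2), t => 2 * X b c w (n + 1) t * V (n + 1) t + 2 * U b c w (n + 1) t ^ 2 + b * V n t

lemma X_deriv (n : ℕ) (t : ℝ) : HasDerivAt (X b c w n) (U b c w n t) t := by
  induction n using Nat.twoStepInduction with
  | zero => exact hasDerivAt_id' t
  | one =>
    have h : HasDerivAt (fun t : ℝ => t ^ 2 + c + b * w) (2 * t) t := by
      simpa using (((hasDerivAt_id t).pow 2).add_const c).add_const (b * w)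
    exact h
  | more n ih1 ih2 =>
    have h : HasDerivAt (fun t => (X b c w (n + 1) t) ^ 2 + c + b * X b c w n t)
        (2 * X b c w (n + 1) t * U b c w (n + 1) t + b * U b c w n t) t := by
      have := ((ih2.fun_pow 2).add_const c).fun_add (ih1.const_mul b)
      simpa using this
    exact h

lemma U_deriv (n : ℕ) (t : ℝ) : HasDerivAt (U b c w n) (V b c w n t) t := by
  induction n using Nat.twoStepInduction with
  | zero => simpa [U, V] using hasDerivAt_const t (1 : ℝ)
  | one =>
    have h : HasDerivAt (fun t : ℝ => 2 * t) 2 t := by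
      simpa using (hasDerivAt_id t).const_mul 2
    exact h
  | more n ih1 ih2 =>
    have h : HasDerivAt (fun t => 2 * X b c w (n + 1) t * U b c w (n + 1) t + b * U b c w n t)
        (2 * X b c w (n + 1) t * V b c w (n + 1) t + 2 * U b c w (n + 1) t ^ 2
          + b * V b c w n t) t := by
      have h1 := (((X_deriv b c w (n + 1) t).const_mul 2).fun_mul ih2).fun_add (ih1.const_mul b)
      have e : 2 * X b c w (n + 1) t * V b c w (n + 1) t + 2 * U b c w (n + 1) t ^ 2
          + b * V b c w n t = 2 * U b c w (n + 1) t * U b c w (n + 1) t +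
          2 * X b c w (n + 1) t * V b c w (n + 1) t + b * V b c w n t := by ring
      rw [e]
      exact h1
    exact h

/-- the curvature quantity -/
def om (n : ℕ) (t : ℝ) : ℝ :=
  V b c w n t * U b c w (n + 1) t - U b c w n t * V b c w (n + 1) t

lemma om_zero (t : ℝ) : om b c w 0 t = -2 := by simp [om, U, V]

lemma om_succ (n : ℕ) (t : ℝ) :
    om b c w (n + 1) t = -b * om b c w n t - 2 * U b c w (n + 1) t ^ 3 := by
  simp only [om, U, V]
  ring

lemma X_cont (n : ℕ) : Continuous (X b c w n) :=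
  continuous_iff_continuousAt.2 fun t => (X_deriv b c w n t).continuousAt

variable {b c w}

/-- region condition up to time `n` -/
def Reg (b c w δ R : ℝ) (n : ℕ) (t : ℝ) : Prop :=
  ∀ k ≤ n, δ ≤ |X b c w k t| ∧ |X b c w k t| ≤ R

lemma ratio {δ R r : ℝ} (hb : 0 ≤ b) (hr : 0 < r) (hδ : r + b / r ≤ 2 * δ) {n : ℕ} {t : ℝ}
    (h : Reg b c w δ R n t) : ∀ k ≤ n, 0 < |U b c w k t| ∧
      (2 * |X b c w k t| - b / r) * |U b c w k t| ≤ |U b c w (k + 1) t| ∧
      r * |U b c w k t| ≤ |U b c w (k + 1) t| ∧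
      |U b c w (k + 1) t| ≤ (2 * R + b / r) * |U b c w k t| := by
  have hbr : 0 ≤ b / r := div_nonneg hb hr.le
  intro k
  induction k with
  | zero =>
    intro _
    have h0 := h 0 (Nat.zero_le _)
    have e0 : U b c w 0 t = 1 := rfl
    have e1 : U b c w 1 t = 2 * t := rfl
    have e2 : X b c w 0 t = t := rfl
    rw [e2] at h0
    rw [zero_add, e0, e1, e2]
    simp only [abs_one, mul_one, abs_mul, abs_two]
    refine ⟨one_pos, by linarith, by linarith [h0.1], by linarith [h0.2]⟩
  | succ k ih =>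
    intro hk
    obtain ⟨ih1, ih2, ih3, ih4⟩ := ih (by omega)
    have hX := h (k + 1) hk
    have e : U b c w (k + 1 + 1) t =
        2 * X b c w (k + 1) t * U b c w (k + 1) t + b * U b c w k t := rfl
    have hpos : 0 < |U b c w (k + 1) t| := lt_of_lt_of_le (mul_pos hr ih1) ih3
    have hUk : b * |U b c w k t| ≤ b / r * |U b c w (k + 1) t| := by
      rw [div_mul_eq_mul_div, le_div_iff₀ hr]
      have := mul_le_mul_of_nonneg_left ih3 hb
      nlinarith
    have h2 : |2 * X b c w (k + 1) t * U b c w (k + 1) t| =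
        2 * |X b c w (k + 1) t| * |U b c w (k + 1) t| := by
      rw [abs_mul, abs_mul, abs_two]
    have h3 : |b * U b c w k t| = b * |U b c w k t| := by rw [abs_mul, abs_of_nonneg hb]
    have hlow : (2 * |X b c w (k + 1) t| - b / r) * |U b c w (k + 1) t| ≤
        |U b c w (k + 1 + 1) t| := by
      rw [e]
      have h4 := abs_sub_abs_le_abs_sub (2 * X b c w (k + 1) t * U b c w (k + 1) t)
        (-(b * U b c w k t))
      rw [abs_neg, h2, h3, sub_neg_eq_add] at h4
      linarith
    refine ⟨hpos, hlow, ?_, ?_⟩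
    · refine le_trans ?_ hlow
      apply mul_le_mul_of_nonneg_right _ hpos.le
      linarith [hX.1]
    · rw [e]
      refine (abs_add_le _ _).trans ?_
      rw [h2, h3]
      have h5 : 2 * |X b c w (k + 1) t| * |U b c w (k + 1) t| ≤ 2 * R * |U b c w (k + 1) t| :=
        mul_le_mul_of_nonneg_right (by linarith [hX.2]) hpos.le
      linarith

/-- an expanding metric `|h'(x) dx|` away from the strip `|x| < δ` -/
structure Metric' (b c δ R r lam gmin gmax : ℝ) (h g : ℝ → ℝ) : Prop where
  hb : 0 ≤ b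
  hb1 : b ≤ 1
  hr : 0 < r
  hδ : r + b / r ≤ 2 * δ
  hlam : 1 < lam
  hgmin : 0 < gmin
  hder : ∀ x, |x| ≤ R → HasDerivAt h (g x) x
  hg1 : ∀ x, |x| ≤ R → gmin ≤ g x
  hg2 : ∀ x, |x| ≤ R → g x ≤ gmax
  hmono : Monotone h
  hcont : Continuous h
  hexp : ∀ x v, δ ≤ |x| → |x| ≤ R → |v| ≤ R → |x ^ 2 + c + b * v| ≤ R →
    lam * g x ≤ g (x ^ 2 + c + b * v) * (2 * |x| - b / r)

variable {δ R r lam gmin gmax : ℝ} {h g : ℝ → ℝ}

lemma Metric'.lip (m : Metric' b c δ R r lam gmin gmax h g) {x y : ℝ} (hx : |x| ≤ R)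
    (hy : |y| ≤ R) : gmin * |x - y| ≤ |h x - h y| ∧ |h x - h y| ≤ gmax * |x - y| := by
  wlog hxy : y ≤ x with H
  · have := H m hy hx (le_of_not_ge hxy)
    rwa [abs_sub_comm x y, abs_sub_comm (h x) (h y)]
  rcases eq_or_lt_of_le hxy with rfl | hlt
  · simp
  obtain ⟨ξ, hξ, he⟩ := exists_hasDerivAt_eq_slope h g hlt m.hcont.continuousOn (fun z hz => by
    apply m.hder
    rw [abs_le] at hx hy ⊢
    exact ⟨by linarith [hz.1], by linarith [hz.2]⟩)
  have hξR : |ξ| ≤ R := by
    rw [abs_le] at hx hy ⊢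
    exact ⟨by linarith [hξ.1], by linarith [hξ.2]⟩
  have hpos : 0 < x - y := by linarith
  have e : h x - h y = g ξ * (x - y) := by rw [he]; field_simp
  have h1 := m.hg1 ξ hξR
  have h2 := m.hg2 ξ hξR
  have hgp : 0 < g ξ := lt_of_lt_of_le m.hgmin h1
  rw [e, abs_mul, abs_of_pos hgp]
  exact ⟨mul_le_mul_of_nonneg_right h1 (abs_nonneg _), mul_le_mul_of_nonneg_right h2 (abs_nonneg _)⟩

/-- pointwise expansion of the derivative in the metric -/
lemma Metric'.expand (m : Metric' b c δ R r lam gmin gmax h g) (hw : |w| ≤ R) {n : ℕ} {t : ℝ}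
    (hreg : Reg b c w δ R n t) (hnext : |X b c w (n + 1) t| ≤ R) : ∀ k ≤ n,
      lam * (g (X b c w k t) * |U b c w k t|) ≤ g (X b c w (k + 1) t) * |U b c w (k + 1) t| := by
  intro k hk
  have hall : ∀ j ≤ n + 1, |X b c w j t| ≤ R := by
    intro j hj
    rcases Nat.lt_or_ge j (n + 1) with h1 | h1
    · exact (hreg j (by omega)).2
    · have : j = n + 1 := by omega
      rw [this]; exact hnext
  obtain ⟨hU, hlow, -, -⟩ := ratio m.hb m.hr m.hδ hreg k hk
  have hXk := hreg k hk
  have hg : 0 < g (X b c w (k + 1) t) := lt_of_lt_of_le m.hgmin (m.hg1 _ (hall (k + 1) (by omega)))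
  have hexp : lam * g (X b c w k t) ≤ g (X b c w (k + 1) t) * (2 * |X b c w k t| - b / r) := by
    cases k with
    | zero =>
      have := m.hexp (X b c w 0 t) w hXk.1 hXk.2 hw (hall 1 (by omega))
      exact this
    | succ k =>
      have := m.hexp (X b c w (k + 1) t) (X b c w k t) hXk.1 hXk.2 (hall k (by omega))
        (hall (k + 2) (by omega))
      exact this
  calc lam * (g (X b c w k t) * |U b c w k t|) = (lam * g (X b c w k t)) * |U b c w k t| := by ring
    _ ≤ (g (X b c w (k + 1) t) * (2 * |X b c w k t| - b / r)) * |U b c w k t| :=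
        mul_le_mul_of_nonneg_right hexp hU.le
    _ = g (X b c w (k + 1) t) * ((2 * |X b c w k t| - b / r) * |U b c w k t|) := by ring
    _ ≤ _ := mul_le_mul_of_nonneg_left hlow hg.le

/-- expansion of distances in the metric along an interval -/
lemma Metric'.dist_expand (m : Metric' b c δ R r lam gmin gmax h g) (hw : |w| ≤ R) {n : ℕ}
    {s t : ℝ} (hst : s ≤ t) (hreg : ∀ y ∈ Icc s t, Reg b c w δ R n y)
    (hnext : ∀ y ∈ Icc s t, |X b c w (n + 1) y| ≤ R) : ∀ k ≤ n,
      lam * |h (X b c w k t) - h (X b c w k s)| ≤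
        |h (X b c w (k + 1) t) - h (X b c w (k + 1) s)| := by
  intro k hk
  rcases eq_or_lt_of_le hst with rfl | hlt
  · simp
  have hall : ∀ y ∈ Icc s t, ∀ j ≤ n + 1, |X b c w j y| ≤ R := by
    intro y hy j hj
    rcases Nat.lt_or_ge j (n + 1) with h1 | h1
    · exact (hreg y hy j (by omega)).2
    · have : j = n + 1 := by omega
      rw [this]; exact hnext y hy
  have hd : ∀ j ≤ n + 1, ∀ y ∈ Icc s t, HasDerivAt (fun y => h (X b c w j y))
      (g (X b c w j y) * U b c w j y) y := by
    intro j hj y hy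
    exact (m.hder _ (hall y hy j hj)).comp y (X_deriv b c w j y)
  have hc : ∀ j, ContinuousOn (fun y => h (X b c w j y)) (Icc s t) := fun j =>
    (m.hcont.comp (X_cont b c w j)).continuousOn
  obtain ⟨ξ, hξ, he⟩ := exists_ratio_hasDerivAt_eq_ratio_slope
    (fun y => h (X b c w (k + 1) y)) (fun y => g (X b c w (k + 1) y) * U b c w (k + 1) y) hlt
    (hc (k + 1)) (fun y hy => hd (k + 1) (by omega) y (Ioo_subset_Icc_self hy))
    (fun y => h (X b c w k y)) (fun y => g (X b c w k y) * U b c w k y)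
    (hc k) (fun y hy => hd k (by omega) y (Ioo_subset_Icc_self hy))
  have hξ' := Ioo_subset_Icc_self hξ
  have h1 := m.expand hw (hreg ξ hξ') (hnext ξ hξ') k hk
  have hg1 : 0 < g (X b c w k ξ) := lt_of_lt_of_le m.hgmin (m.hg1 _ (hall ξ hξ' k (by omega)))
  have hg2 : 0 < g (X b c w (k + 1) ξ) :=
    lt_of_lt_of_le m.hgmin (m.hg1 _ (hall ξ hξ' (k + 1) (by omega)))
  have hU := (ratio m.hb m.hr m.hδ (hreg ξ hξ') k hk).1
  have he' := congrArg abs he
  rw [abs_mul, abs_mul, abs_mul, abs_mul, abs_of_pos hg1, abs_of_pos hg2] at he'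
  have hp : 0 < g (X b c w k ξ) * |U b c w k ξ| := mul_pos hg1 hU
  have h2 := mul_le_mul_of_nonneg_left h1 (abs_nonneg (h (X b c w k t) - h (X b c w k s)))
  rw [he'] at h2
  have h3 : (lam * |h (X b c w k t) - h (X b c w k s)|) * (g (X b c w k ξ) * |U b c w k ξ|) ≤
      |h (X b c w (k + 1) t) - h (X b c w (k + 1) s)| * (g (X b c w k ξ) * |U b c w k ξ|) := by
    linarith
  exact le_of_mul_le_mul_right h3 hp

end Strip

end Run7.h964
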