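import Mathlib
import Pool.Agent.Run7.h964.Strip

set_option autoImplicit false

/-!
# Bounded distortion and growth of intervals
-/

namespace Run7.h964

namespace Strip

open Filter Topology MeasureTheory Set

variable {b c w δ R r lam gmin gmax : ℝ} {h g : ℝ → ℝ}

lemma Reg.mono {n k : ℕ} {t : ℝ} (hreg : Reg b c w δ R n t) (hk : k ≤ n) :
    Reg b c w δ R k t := fun j hj => hreg j (hj.trans hk)

lemma Metric'.gmax_pos (m : Metric' b c δ R r lam gmin gmax h g) {x : ℝ} (hx : |x| ≤ R) :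
    0 < gmax := lt_of_lt_of_le m.hgmin ((m.hg1 x hx).trans (m.hg2 x hx))

/-- the constant in the curvature bound -/
noncomputable def kap (lam gmin : ℝ) : ℝ := 2 * (gmin⁻¹) ^ 3 / (1 - (lam⁻¹) ^ 3)

lemma om_bound (m : Metric' b c δ R r lam gmin gmax h g) (hw : |w| ≤ R) {n : ℕ} {t : ℝ}
    (hreg : Reg b c w δ R n t) : ∀ k ≤ n,
      |om b c w k t| ≤ kap lam gmin * (g (X b c w k t) * |U b c w k t|) ^ 3 := by
  have hl0 : 0 < lam := by linarith [m.hlam]
  have hli : lam⁻¹ < 1 := inv_lt_one_of_one_lt₀ m.hlam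
  have hli0 : 0 < lam⁻¹ := inv_pos.2 hl0
  have hl3 : (lam⁻¹) ^ 3 < 1 := pow_lt_one₀ hli0.le hli (by norm_num)
  have hden : 0 < 1 - (lam⁻¹) ^ 3 := by linarith
  have hg0 := m.hgmin
  have hkap : kap lam gmin * (1 - (lam⁻¹) ^ 3) = 2 * (gmin⁻¹) ^ 3 := by
    unfold kap; exact div_mul_cancel₀ _ hden.ne'
  have hkap0 : 0 < kap lam gmin := by unfold kap; positivity
  have hkap1 : 2 * (gmin⁻¹) ^ 3 ≤ kap lam gmin := by
    have : 0 ≤ kap lam gmin * (lam⁻¹) ^ 3 := by positivity
    linarith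
  have hU3 : ∀ j ≤ n, |U b c w j t| ^ 3 ≤ (gmin⁻¹) ^ 3 * (g (X b c w j t) * |U b c w j t|) ^ 3 := by
    intro j hj
    rw [← mul_pow]
    apply pow_le_pow_left₀ (abs_nonneg _)
    have h1 := m.hg1 _ (hreg j hj).2
    have h2 : gmin * |U b c w j t| ≤ g (X b c w j t) * |U b c w j t| :=
      mul_le_mul_of_nonneg_right h1 (abs_nonneg _)
    rw [le_inv_mul_iff₀ hg0]
    exact h2
  intro k
  induction k with
  | zero =>
    intro _
    rw [om_zero]
    have h1 := hU3 0 (Nat.zero_le _)
    have e0 : U b c w 0 t = 1 := rfl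
    rw [e0] at h1 ⊢
    simp only [abs_one, mul_one, one_pow] at h1 ⊢
    have h2 : 0 ≤ g (X b c w 0 t) ^ 3 := by
      have := m.hg1 _ (hreg 0 (Nat.zero_le _)).2
      have : 0 ≤ g (X b c w 0 t) := by linarith
      positivity
    have h3 : |(-2 : ℝ)| = 2 := by norm_num
    rw [h3]
    nlinarith
  | succ k ih =>
    intro hk
    have ihk := ih (by omega)
    rw [om_succ]
    have hexp := m.expand hw (n := k) (hreg.mono (by omega)) (hreg (k + 1) hk).2 k le_rfl
    set W := g (X b c w k t) * |U b c w k t| with hW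
    set W' := g (X b c w (k + 1) t) * |U b c w (k + 1) t| with hW'
    have hW0 : 0 ≤ W := by
      have := m.hg1 _ (hreg k (by omega)).2
      have : 0 ≤ g (X b c w k t) := by linarith
      positivity
    have hWW : W ^ 3 ≤ (lam⁻¹) ^ 3 * W' ^ 3 := by
      rw [← mul_pow]
      apply pow_le_pow_left₀ hW0
      rw [le_inv_mul_iff₀ hl0]
      exact hexp
    have h1 : |-b * om b c w k t - 2 * U b c w (k + 1) t ^ 3| ≤
        |om b c w k t| + 2 * |U b c w (k + 1) t| ^ 3 := by
      refine (abs_sub _ _).trans ?_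
      rw [abs_mul, abs_neg, abs_of_nonneg m.hb, abs_mul, abs_two, abs_pow]
      have := mul_le_mul_of_nonneg_right m.hb1 (abs_nonneg (om b c w k t))
      linarith
    refine h1.trans ?_
    have h2 := hU3 (k + 1) hk
    have h3 := mul_le_mul_of_nonneg_left hWW hkap0.le
    have h4 : kap lam gmin * W' ^ 3 =
        kap lam gmin * ((lam⁻¹) ^ 3 * W' ^ 3) + 2 * (gmin⁻¹) ^ 3 * W' ^ 3 := by
      rw [← hkap]; ring
    rw [h4]
    nlinarith

/-- logarithm of the one-step growth factor -/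
noncomputable def F (b c w : ℝ) (n : ℕ) (t : ℝ) : ℝ :=
  Real.log (U b c w (n + 1) t) - Real.log (U b c w n t)

/-- the distortion constant -/
noncomputable def dis (lam gmin gmax r : ℝ) : ℝ := kap lam gmin * gmax ^ 3 / r

lemma F_dist (m : Metric' b c δ R r lam gmin gmax h g) (hw : |w| ≤ R) {N : ℕ}
    {s t : ℝ} (hst : s ≤ t) (hreg : ∀ y ∈ Icc s t, Reg b c w δ R N y) (n : ℕ) (hn : n < N) :
    |F b c w n t - F b c w n s| ≤ dis lam gmin gmax r * |X b c w n t - X b c w n s| := by
  rcases eq_or_lt_of_le hst with rfl | hlt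
  · simp
  have hU : ∀ y ∈ Icc s t, ∀ j ≤ N, U b c w j y ≠ 0 := by
    intro y hy j hj
    have := (ratio m.hb m.hr m.hδ (hreg y hy) j hj).1
    exact abs_pos.1 this
  have hFd : ∀ y ∈ Icc s t, HasDerivAt (F b c w n)
      (V b c w (n + 1) y / U b c w (n + 1) y - V b c w n y / U b c w n y) y := by
    intro y hy
    exact ((U_deriv b c w (n + 1) y).log (hU y hy (n + 1) hn)).sub
      ((U_deriv b c w n y).log (hU y hy n hn.le))
  obtain ⟨ξ, hξ, he⟩ := exists_ratio_hasDerivAt_eq_ratio_slope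
    (F b c w n) (fun y => V b c w (n + 1) y / U b c w (n + 1) y - V b c w n y / U b c w n y) hlt
    (fun y hy => (hFd y hy).continuousAt.continuousWithinAt)
    (fun y hy => hFd y (Ioo_subset_Icc_self hy))
    (X b c w n) (U b c w n) (X_cont b c w n).continuousOn (fun y _ => X_deriv b c w n y)
  have hξ' := Ioo_subset_Icc_self hξ
  have hreg' := hreg ξ hξ'
  have hom := om_bound m hw hreg' n hn.le
  obtain ⟨hUn, -, hr1, -⟩ := ratio m.hb m.hr m.hδ hreg' n hn.le
  have hUn' := hU ξ hξ' n hn.le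
  have hUn1' := hU ξ hξ' (n + 1) hn
  have hUn1 : 0 < |U b c w (n + 1) ξ| := abs_pos.2 hUn1'
  have hder : V b c w (n + 1) ξ / U b c w (n + 1) ξ - V b c w n ξ / U b c w n ξ =
      -(om b c w n ξ) / (U b c w n ξ * U b c w (n + 1) ξ) := by
    unfold om
    field_simp
    ring
  have hgm := m.hg2 _ (hreg' n hn.le).2
  have hgm0 : 0 < g (X b c w n ξ) := lt_of_lt_of_le m.hgmin (m.hg1 _ (hreg' n hn.le).2)
  have hl0 : 0 < lam := by linarith [m.hlam]
  have hkap0 : 0 < kap lam gmin := by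
    have hli : lam⁻¹ < 1 := inv_lt_one_of_one_lt₀ m.hlam
    have hl3 : (lam⁻¹) ^ 3 < 1 := pow_lt_one₀ (inv_pos.2 hl0).le hli (by norm_num)
    have hden : 0 < 1 - (lam⁻¹) ^ 3 := by linarith
    have := m.hgmin
    unfold kap; positivity
  have hbound : |V b c w (n + 1) ξ / U b c w (n + 1) ξ - V b c w n ξ / U b c w n ξ| ≤
      dis lam gmin gmax r * |U b c w n ξ| := by
    rw [hder, abs_div, abs_neg, abs_mul, div_le_iff₀ (mul_pos hUn hUn1)]
    have h1 : (g (X b c w n ξ) * |U b c w n ξ|) ^ 3 ≤ gmax ^ 3 * |U b c w n ξ| ^ 3 := by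
      rw [← mul_pow]
      apply pow_le_pow_left₀ (by positivity)
      exact mul_le_mul_of_nonneg_right hgm hUn.le
    have h2 : |om b c w n ξ| ≤ kap lam gmin * (gmax ^ 3 * |U b c w n ξ| ^ 3) :=
      hom.trans (mul_le_mul_of_nonneg_left h1 hkap0.le)
    refine h2.trans ?_
    have hgmax : 0 < gmax := lt_of_lt_of_le hgm0 hgm
    have h3 : dis lam gmin gmax r * |U b c w n ξ| * (|U b c w n ξ| * (r * |U b c w n ξ|)) =
        kap lam gmin * (gmax ^ 3 * |U b c w n ξ| ^ 3) := by
      unfold dis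
      have := m.hr
      field_simp
    rw [← h3]
    have hdis : 0 ≤ dis lam gmin gmax r := by
      unfold dis
      have := m.hr
      positivity
    apply mul_le_mul_of_nonneg_left _ (by positivity)
    exact mul_le_mul_of_nonneg_left hr1 hUn.le
  have he' := congrArg abs he
  rw [abs_mul, abs_mul] at he'
  have h4 := mul_le_mul_of_nonneg_left hbound (abs_nonneg (X b c w n t - X b c w n s))
  rw [he'] at h4
  have h5 : |F b c w n t - F b c w n s| * |U b c w n ξ| ≤
      (dis lam gmin gmax r * |X b c w n t - X b c w n s|) * |U b c w n ξ| := by linarith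
  exact le_of_mul_le_mul_right h5 hUn

lemma log_U (b c w : ℝ) (N : ℕ) (t : ℝ) :
    Real.log (U b c w N t) = ∑ n ∈ Finset.range N, F b c w n t := by
  unfold F
  rw [Finset.sum_range_sub (fun n => Real.log (U b c w n t))]
  simp [U]

/-- a point interval at time `N` of metric size `σ` -/
structure Good (b c w δ R lam : ℝ) (h : ℝ → ℝ) (t₀ β σ : ℝ) (N : ℕ) : Prop where
  lt : t₀ < β
  reg : ∀ t ∈ Icc t₀ β, Reg b c w δ R N t
  close : ∀ t ∈ Icc t₀ β, ∀ k ≤ N, |h (X b c w k t) - h (X b c w k t₀)| ≤ σ * (lam⁻¹) ^ (N - k)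
  hit : |h (X b c w N β) - h (X b c w N t₀)| = σ

lemma geom_bound {q : ℝ} (hq0 : 0 ≤ q) (hq1 : q < 1) (N : ℕ) :
    ∑ n ∈ Finset.range N, q ^ (N - n) ≤ (1 - q)⁻¹ := by
  have h1 : ∑ n ∈ Finset.range N, q ^ (N - n) = ∑ j ∈ Finset.range N, q ^ (j + 1) := by
    rw [← Finset.sum_range_reflect (fun j => q ^ (j + 1)) N]
    apply Finset.sum_congr rfl
    intro n hn
    have := Finset.mem_range.1 hn
    congr 1
    omega
  rw [h1]
  have h2 : ∑ j ∈ Finset.range N, q ^ (j + 1) ≤ ∑ j ∈ Finset.range N, q ^ j := by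
    apply Finset.sum_le_sum
    intro j _
    exact pow_le_pow_of_le_one hq0 hq1.le (Nat.le_succ j)
  refine h2.trans ?_
  have h3 := Summable.sum_le_tsum (Finset.range N) (fun i _ => pow_nonneg hq0 i)
    (summable_geometric_of_lt_one hq0 hq1)
  rwa [tsum_geometric_of_lt_one hq0 hq1] at h3

/-- bounded distortion on good intervals -/
lemma distortion (m : Metric' b c δ R r lam gmin gmax h g) (hw : |w| ≤ R) {N : ℕ}
    {t₀ β σ : ℝ} (hσ : 0 ≤ σ) (G : Good b c w δ R lam h t₀ β σ N) {s t : ℝ}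
    (hs : s ∈ Icc t₀ β) (ht : t ∈ Icc t₀ β) :
    |U b c w N t| ≤
      Real.exp (dis lam gmin gmax r * (2 * σ * gmin⁻¹) * (1 - lam⁻¹)⁻¹) * |U b c w N s| := by
  have hl0 : 0 < lam := by linarith [m.hlam]
  have hli : lam⁻¹ < 1 := inv_lt_one_of_one_lt₀ m.hlam
  have hkap0 : 0 < kap lam gmin := by
    have hl3 : (lam⁻¹) ^ 3 < 1 := pow_lt_one₀ (inv_pos.2 hl0).le hli (by norm_num)
    have hden : 0 < 1 - (lam⁻¹) ^ 3 := by linarith
    have := m.hgmin
    unfold kap; positivity
  have hgmax := m.gmax_pos (G.reg s hs 0 (Nat.zero_le _)).2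
  have hdis : 0 ≤ dis lam gmin gmax r := by
    unfold dis
    have := m.hr
    positivity
  have hUs := (ratio m.hb m.hr m.hδ (G.reg s hs) N le_rfl).1
  have hUt := (ratio m.hb m.hr m.hδ (G.reg t ht) N le_rfl).1
  have hF : ∀ n < N, |F b c w n t - F b c w n s| ≤
      dis lam gmin gmax r * (2 * σ * gmin⁻¹) * (lam⁻¹) ^ (N - n) := by
    intro n hn
    have h1 : |F b c w n t - F b c w n s| ≤
        dis lam gmin gmax r * |X b c w n t - X b c w n s| := by
      rcases le_total s t with hst | hst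
      · exact F_dist m hw hst (fun y hy => G.reg y ⟨hs.1.trans hy.1, hy.2.trans ht.2⟩) n hn
      · rw [abs_sub_comm, abs_sub_comm (X b c w n t)]
        exact F_dist m hw hst (fun y hy => G.reg y ⟨ht.1.trans hy.1, hy.2.trans hs.2⟩) n hn
    have h2 := (m.lip (G.reg t ht n hn.le).2 (G.reg s hs n hn.le).2).1
    have h3 := G.close t ht n hn.le
    have h4 := G.close s hs n hn.le
    have h5 : |h (X b c w n t) - h (X b c w n s)| ≤ 2 * σ * (lam⁻¹) ^ (N - n) := by
      have : h (X b c w n t) - h (X b c w n s) = (h (X b c w n t) - h (X b c w n t₀)) -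
        (h (X b c w n s) - h (X b c w n t₀)) := by ring
      rw [this]
      refine (abs_sub _ _).trans ?_
      linarith
    have h6 : |X b c w n t - X b c w n s| ≤ gmin⁻¹ * (2 * σ * (lam⁻¹) ^ (N - n)) := by
      rw [le_inv_mul_iff₀ m.hgmin]
      exact h2.trans h5
    calc |F b c w n t - F b c w n s| ≤ dis lam gmin gmax r * |X b c w n t - X b c w n s| := h1
      _ ≤ dis lam gmin gmax r * (gmin⁻¹ * (2 * σ * (lam⁻¹) ^ (N - n))) :=
          mul_le_mul_of_nonneg_left h6 hdis
      _ = _ := by ring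
  have hlog : Real.log |U b c w N t| - Real.log |U b c w N s| ≤
      dis lam gmin gmax r * (2 * σ * gmin⁻¹) * (1 - lam⁻¹)⁻¹ := by
    rw [Real.log_abs, Real.log_abs, log_U, log_U, ← Finset.sum_sub_distrib]
    have h1 : ∑ n ∈ Finset.range N, (F b c w n t - F b c w n s) ≤
        ∑ n ∈ Finset.range N, dis lam gmin gmax r * (2 * σ * gmin⁻¹) * (lam⁻¹) ^ (N - n) := by
      apply Finset.sum_le_sum
      intro n hn
      exact (le_abs_self _).trans (hF n (Finset.mem_range.1 hn))
    rw [← Finset.mul_sum] at h1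
    refine h1.trans ?_
    apply mul_le_mul_of_nonneg_left (geom_bound (inv_pos.2 hl0).le hli N)
    have := m.hgmin
    positivity
  have h7 : |U b c w N t| / |U b c w N s| ≤
      Real.exp (dis lam gmin gmax r * (2 * σ * gmin⁻¹) * (1 - lam⁻¹)⁻¹) := by
    rw [← Real.log_le_iff_le_exp (div_pos hUt hUs), Real.log_div hUt.ne' hUs.ne']
    exact hlog
  rwa [div_le_iff₀ hUs] at h7

/-- staying inside the large interval -/
lemma Metric'.stay (m : Metric' b c δ R r lam gmin gmax h g) {R₁ σ x y : ℝ} (hR : R₁ < R)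
    (hσ : σ < gmin * (R - R₁)) (hy : |y| ≤ R₁) (hxy : |h x - h y| ≤ σ) (hR0 : 0 ≤ R₁) :
    |x| < R := by
  have hyR : |y| ≤ R := hy.trans hR.le
  by_contra hcon
  push Not at hcon
  rw [abs_le] at hy
  rcases le_abs.1 hcon with h1 | h1
  · have h2 := m.hmono h1
    have h3 := (m.lip (x := R) (y := y) (by rw [abs_of_nonneg (by linarith)]) hyR).1
    have h4 : h y ≤ h R := m.hmono (by linarith [hy.2])
    rw [abs_of_nonneg (by linarith : (0:ℝ) ≤ h R - h y), abs_of_nonneg (by linarith [hy.2])] at h3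
    have h5 : h x - h y ≤ σ := (le_abs_self _).trans hxy
    have h6 : gmin * (R - R₁) ≤ gmin * (R - y) :=
      mul_le_mul_of_nonneg_left (by linarith [hy.2]) m.hgmin.le
    linarith
  · have h2 : h x ≤ h (-R) := m.hmono (by linarith)
    have h3 := (m.lip (x := y) (y := -R) hyR (by rw [abs_neg, abs_of_nonneg (by linarith)])).1
    have h4 : h (-R) ≤ h y := m.hmono (by linarith [hy.1])
    rw [abs_of_nonneg (by linarith : (0:ℝ) ≤ h y - h (-R)),
      abs_of_nonneg (by linarith [hy.1])] at h3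
    have h5 : -(h x - h y) ≤ σ := (neg_le_abs _).trans hxy
    have h6 : gmin * (R - R₁) ≤ gmin * (y - -R) :=
      mul_le_mul_of_nonneg_left (by linarith [hy.1]) m.hgmin.le
    linarith

/-- existence of good intervals at every time -/
lemma exists_good (m : Metric' b c δ R r lam gmin gmax h g) (hw : |w| ≤ R)
    {δ₁ R₁ σ t₀ : ℝ} (hR : R₁ < R) (hR0 : 0 ≤ R₁) (hσ0 : 0 < σ) (hσ1 : σ ≤ gmin * (δ₁ - δ))
    (hσ2 : σ < gmin * (R - R₁)) (ht₀ : ∀ k, δ₁ ≤ |X b c w k t₀| ∧ |X b c w k t₀| ≤ R₁) (N : ℕ) :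
    ∃ β, Good b c w δ R lam h t₀ β σ N := by
  have hl0 : 0 < lam := by linarith [m.hlam]
  have hnear : ∀ x y, |y| ≤ R₁ → δ₁ ≤ |y| → |h x - h y| ≤ σ → δ ≤ |x| ∧ |x| ≤ R := by
    intro x y hy hy1 hxy
    have hx := m.stay hR hσ2 hy hxy hR0
    refine ⟨?_, hx.le⟩
    have h1 := (m.lip hx.le (hy.trans hR.le)).1
    have h2 : |x - y| ≤ δ₁ - δ := by
      have : gmin * |x - y| ≤ gmin * (δ₁ - δ) := by linarith
      exact le_of_mul_le_mul_left this m.hgmin
    have h3 : |y| - |x| ≤ |x - y| := by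
      rw [abs_sub_comm]
      exact abs_sub_abs_le_abs_sub y x
    linarith
  induction N with
  | zero =>
    have hX : ∀ t, X b c w 0 t = t := fun _ => rfl
    have h0 := ht₀ 0
    rw [hX] at h0
    have h0' := abs_le.1 h0.2
    have hle : t₀ ≤ R := by linarith [h0'.2]
    have h1 := (m.lip (x := R) (y := t₀) (by rw [abs_of_nonneg (by linarith)])
      (h0.2.trans hR.le)).1
    have h2 : h t₀ ≤ h R := m.hmono hle
    rw [abs_of_nonneg (by linarith : (0:ℝ) ≤ h R - h t₀), abs_of_nonneg (by linarith)] at h1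
    have h3 : gmin * (R - R₁) ≤ gmin * (R - t₀) :=
      mul_le_mul_of_nonneg_left (by linarith [h0'.2]) m.hgmin.le
    have h4 : h t₀ + σ ∈ Icc (h t₀) (h R) := ⟨by linarith, by linarith⟩
    obtain ⟨β, hβ, hβ1⟩ := intermediate_value_Icc hle m.hcont.continuousOn h4
    have hlt : t₀ < β := by
      rcases eq_or_lt_of_le hβ.1 with h | h
      · rw [← h] at hβ1; linarith
      · exact h
    have hcl : ∀ t ∈ Icc t₀ β, |h t - h t₀| ≤ σ := by
      intro t ht
      have h5 := m.hmono ht.1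
      have h6 := m.hmono ht.2
      rw [abs_of_nonneg (by linarith)]
      linarith
    refine ⟨β, hlt, ?_, ?_, ?_⟩
    · intro t ht k hk
      have : k = 0 := by omega
      subst this
      rw [hX]
      exact hnear t t₀ h0.2 h0.1 (hcl t ht)
    · intro t ht k hk
      have : k = 0 := by omega
      subst this
      simpa [hX] using hcl t ht
    · rw [hX, hX, hβ1, add_sub_cancel_left, abs_of_pos hσ0]
  | succ N ih =>
    obtain ⟨β, G⟩ := ih
    set f : ℝ → ℝ := fun t => |h (X b c w (N + 1) t) - h (X b c w (N + 1) t₀)| with hf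
    have hfc : Continuous f := by
      have := m.hcont.comp (X_cont b c w (N + 1))
      exact (this.sub continuous_const).abs
    have hex : ∃ t ∈ Icc t₀ β, σ ≤ f t := by
      by_contra hcon
      push Not at hcon
      have hX1 : ∀ y ∈ Icc t₀ β, |X b c w (N + 1) y| ≤ R := fun y hy =>
        (m.stay hR hσ2 (ht₀ (N + 1)).2 (hcon y hy).le hR0).le
      have h1 := m.dist_expand hw G.lt.le G.reg hX1 N le_rfl
      rw [G.hit] at h1
      have h2 := hcon β ⟨G.lt.le, le_rfl⟩
      have h3 : σ < lam * σ := by nlinarith [m.hlam]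
      simp only [hf] at h2
      linarith
    set S : Set ℝ := {t | t ∈ Icc t₀ β ∧ σ ≤ f t} with hS
    have hSc : IsCompact S := by
      have : S = Icc t₀ β ∩ f ⁻¹' (Ici σ) := rfl
      rw [this]
      exact isCompact_Icc.inter_right (isClosed_Ici.preimage hfc)
    have hSne : S.Nonempty := by
      obtain ⟨t, ht, ht'⟩ := hex
      exact ⟨t, ht, ht'⟩
    set β' := sInf S with hβ'
    have hmem : β' ∈ S := hSc.sInf_mem hSne
    have hlow : ∀ t ∈ Icc t₀ β, t < β' → f t < σ := by
      intro t ht hlt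
      by_contra hcon
      push Not at hcon
      have : β' ≤ t := csInf_le hSc.bddBelow ⟨ht, hcon⟩
      linarith
    have hf0 : f t₀ = 0 := by simp [hf]
    have hlt : t₀ < β' := by
      rcases eq_or_lt_of_le hmem.1.1 with h1 | h1
      · have := hmem.2
        rw [← h1, hf0] at this
        linarith
      · exact h1
    have hle : ∀ t ∈ Icc t₀ β', f t ≤ σ := by
      intro t ht
      rcases lt_or_eq_of_le ht.2 with h1 | h1
      · exact (hlow t ⟨ht.1, h1.le.trans hmem.1.2⟩ h1).le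
      · rw [h1]
        -- limit from the left
        have hcl : β' ∈ closure (Ico t₀ β') := by
          rw [closure_Ico hlt.ne]
          exact ⟨hlt.le, le_rfl⟩
        have hsub : Ico t₀ β' ⊆ {y | f y ≤ σ} := fun y hy =>
          (hlow y ⟨hy.1, hy.2.le.trans hmem.1.2⟩ hy.2).le
        have hclosed : IsClosed {y | f y ≤ σ} := isClosed_le hfc continuous_const
        exact (closure_minimal hsub hclosed) hcl
    have hhit : f β' = σ := le_antisymm (hle β' ⟨hlt.le, le_rfl⟩) hmem.2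
    have hreg1 : ∀ t ∈ Icc t₀ β', δ ≤ |X b c w (N + 1) t| ∧ |X b c w (N + 1) t| ≤ R :=
      fun t ht => hnear _ _ (ht₀ (N + 1)).2 (ht₀ (N + 1)).1 (hle t ht)
    have hsubI : ∀ t ∈ Icc t₀ β', t ∈ Icc t₀ β := fun t ht => ⟨ht.1, ht.2.trans hmem.1.2⟩
    refine ⟨β', hlt, ?_, ?_, hhit⟩
    · intro t ht k hk
      rcases Nat.lt_or_ge k (N + 1) with h1 | h1
      · exact G.reg t (hsubI t ht) k (by omega)
      · have : k = N + 1 := by omega
        rw [this]; exact hreg1 t ht
    · intro t ht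
      have key : ∀ j ≤ N + 1, |h (X b c w (N + 1 - j) t) - h (X b c w (N + 1 - j) t₀)| ≤
          σ * (lam⁻¹) ^ j := by
        intro j
        induction j with
        | zero =>
          intro _
          simpa using hle t ht
        | succ j ihj =>
          intro hj
          have h1 := ihj (by omega)
          have h2 := m.dist_expand hw (n := N) ht.1
            (fun y hy => G.reg y (hsubI y ⟨hy.1, hy.2.trans ht.2⟩))
            (fun y hy => (hreg1 y ⟨hy.1, hy.2.trans ht.2⟩).2) (N + 1 - (j + 1)) (by omega)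
          have e : N + 1 - (j + 1) + 1 = N + 1 - j := by omega
          rw [e] at h2
          have h3 := h2.trans h1
          rw [pow_succ]
          have h4 : lam * (σ * ((lam⁻¹) ^ j * lam⁻¹)) = σ * (lam⁻¹) ^ j := by
            field_simp
          rw [← h4] at h3
          exact le_of_mul_le_mul_left h3 hl0
      intro k hk
      have h1 := key (N + 1 - k) (by omega)
      have e : N + 1 - (N + 1 - k) = k := by omega
      rwa [e] at h1

end Strip

end Run7.h964
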