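import Mathlib
import Pool.Agent.Run7.h964.Strip2

set_option autoImplicit false

/-!
# Escape of a definite proportion and null sections
-/

namespace Run7.h964

namespace Strip

open Filter Topology MeasureTheory Set

variable {b c w δ R r lam gmin gmax : ℝ} {h g : ℝ → ℝ}

/-- points of the line whose orbit stays in the region forever -/
def stayS (b c w δ₁ R₁ : ℝ) : Set ℝ := {t | ∀ k, δ₁ ≤ |X b c w k t| ∧ |X b c w k t| ≤ R₁}

lemma stayS_closed (b c w δ₁ R₁ : ℝ) : IsClosed (stayS b c w δ₁ R₁) := by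
  have : stayS b c w δ₁ R₁ = ⋂ k, ({t | δ₁ ≤ |X b c w k t|} ∩ {t | |X b c w k t| ≤ R₁}) := by
    ext t; simp [stayS]
  rw [this]
  apply isClosed_iInter
  intro k
  have hc := (X_cont b c w k).abs
  exact (isClosed_le continuous_const hc).inter (isClosed_le hc continuous_const)

/-- in a good interval a definite proportion escapes -/
lemma escape_prop (m : Metric' b c δ R r lam gmin gmax h g) (hw : |w| ≤ R)
    {δ₁ R₁ σ t₀ β : ℝ} (hδ₁ : δ < δ₁) (hR : R₁ < R) (hσ0 : 0 < σ)
    (ht₀ : ∀ k, δ₁ ≤ |X b c w k t₀| ∧ |X b c w k t₀| ≤ R₁) {N : ℕ}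
    (G : Good b c w δ R lam h t₀ β σ N) {H : ℝ} (hH : ∀ x, |x| ≤ R → |h x| ≤ H) {M : ℕ}
    (hM : 2 * H < lam ^ M * σ) :
    ∃ p q, t₀ ≤ p ∧ q ≤ β ∧ Ioc p q ∩ stayS b c w δ₁ R₁ = ∅ ∧
      min (δ₁ - δ) (R - R₁) * gmin / ((max 1 (2 * R + b / r)) ^ M *
        Real.exp (dis lam gmin gmax r * (2 * σ * gmin⁻¹) * (1 - lam⁻¹)⁻¹) * σ) * (β - t₀) ≤
        q - p := by
  have hl0 : 0 < lam := by linarith [m.hlam]
  set Q : ℕ → Prop := fun k => ∀ t ∈ Icc t₀ β, Reg b c w δ R (N + k) t with hQ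
  have hQ0 : Q 0 := fun t ht => G.reg t ht
  have hQM : ¬ Q M := by
    intro hq
    have key : ∀ j ≤ M, lam ^ j * σ ≤ |h (X b c w (N + j) β) - h (X b c w (N + j) t₀)| := by
      intro j
      induction j with
      | zero =>
        intro _
        simpa using G.hit.ge
      | succ j ih =>
        intro hj
        have h1 := ih (by omega)
        have h2 := m.dist_expand hw (n := N + j) G.lt.le
          (fun y hy => (hq y hy).mono (by omega)) (fun y hy => (hq y hy (N + j + 1) (by omega)).2)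
          (N + j) le_rfl
        have e : N + (j + 1) = N + j + 1 := by ring
        rw [e, pow_succ]
        have h3 := mul_le_mul_of_nonneg_left h1 hl0.le
        linarith
    have h1 := key M le_rfl
    have h2 := hH _ (hq β ⟨G.lt.le, le_rfl⟩ (N + M) le_rfl).2
    have h3 := hH _ (hq t₀ ⟨le_rfl, G.lt.le⟩ (N + M) le_rfl).2
    have h4 := abs_sub (h (X b c w (N + M) β)) (h (X b c w (N + M) t₀))
    linarith
  obtain ⟨k, hkM, hk, hk1⟩ : ∃ k, k < M ∧ Q k ∧ ¬ Q (k + 1) := by
    by_contra hcon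
    push Not at hcon
    have : ∀ j ≤ M, Q j := by
      intro j
      induction j with
      | zero => intro _; exact hQ0
      | succ j ih => intro hj; exact hcon j (by omega) (ih (by omega))
    exact hQM (this M le_rfl)
  -- the escaping time
  set n := N + k + 1 with hn
  obtain ⟨t₁, ht₁, hbad⟩ : ∃ t₁ ∈ Icc t₀ β, ¬ (δ ≤ |X b c w n t₁| ∧ |X b c w n t₁| ≤ R) := by
    by_contra hcon
    push Not at hcon
    apply hk1
    intro t ht j hj
    rcases Nat.lt_or_ge j n with h1 | h1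
    · exact hk t ht j (by omega)
    · have : j = n := by omega
      rw [this]; exact hcon t ht
  set L := max 1 (2 * R + b / r) with hL
  have hL1 : 1 ≤ L := le_max_left _ _
  -- derivative bound
  set D := Real.exp (dis lam gmin gmax r * (2 * σ * gmin⁻¹) * (1 - lam⁻¹)⁻¹) with hD
  have hD0 : 0 < D := Real.exp_pos _
  have hUj : ∀ t ∈ Icc t₀ β, ∀ j ≤ k + 1, |U b c w (N + j) t| ≤ L ^ j * |U b c w N t| := by
    intro t ht j
    induction j with
    | zero => intro _; simp
    | succ j ih =>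
      intro hj
      have h1 := ih (by omega)
      have h2 := (ratio m.hb m.hr m.hδ (hk t ht) (N + j) (by omega)).2.2.2
      have e : N + (j + 1) = N + j + 1 := by ring
      rw [e, pow_succ]
      calc |U b c w (N + j + 1) t| ≤ (2 * R + b / r) * |U b c w (N + j) t| := h2
        _ ≤ L * |U b c w (N + j) t| := mul_le_mul_of_nonneg_right (le_max_right _ _) (abs_nonneg _)
        _ ≤ L * (L ^ j * |U b c w N t|) := mul_le_mul_of_nonneg_left h1 (by linarith)
        _ = _ := by ring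
  -- mean value for X_N
  obtain ⟨ξ, hξ, hξe⟩ := exists_hasDerivAt_eq_slope (X b c w N) (U b c w N) G.lt
    (X_cont b c w N).continuousOn (fun y _ => X_deriv b c w N y)
  have hξ' := Ioo_subset_Icc_self hξ
  have hUξ := (ratio m.hb m.hr m.hδ (G.reg ξ hξ') N le_rfl).1
  have hlen : |U b c w N ξ| * (β - t₀) ≤ σ * gmin⁻¹ := by
    have h1 := (m.lip (G.reg β ⟨G.lt.le, le_rfl⟩ N le_rfl).2
      (G.reg t₀ ⟨le_rfl, G.lt.le⟩ N le_rfl).2).1
    rw [G.hit] at h1
    have hpos : 0 < β - t₀ := by linarith [G.lt]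
    have h2 : X b c w N β - X b c w N t₀ = U b c w N ξ * (β - t₀) := by
      rw [hξe]; field_simp
    rw [h2, abs_mul, abs_of_pos hpos] at h1
    rw [← div_eq_mul_inv, le_div_iff₀ m.hgmin]
    linarith
  have hUsup : ∀ t ∈ Icc t₀ β, |U b c w n t| ≤ L ^ M * D * |U b c w N ξ| := by
    intro t ht
    have h1 := hUj t ht (k + 1) le_rfl
    have h2 := distortion m hw hσ0.le G hξ' ht
    have h3 : L ^ (k + 1) ≤ L ^ M := pow_le_pow_right₀ hL1 (by omega)
    have e : N + (k + 1) = n := by rw [hn]; ring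
    rw [e] at h1
    calc |U b c w n t| ≤ L ^ (k + 1) * |U b c w N t| := h1
      _ ≤ L ^ M * |U b c w N t| := mul_le_mul_of_nonneg_right h3 (abs_nonneg _)
      _ ≤ L ^ M * (D * |U b c w N ξ|) := mul_le_mul_of_nonneg_left h2 (by positivity)
      _ = _ := by ring
  -- Lipschitz bound for X_n
  have hLip : ∀ p q, t₀ ≤ p → p ≤ q → q ≤ β →
      |X b c w n q - X b c w n p| ≤ L ^ M * D * |U b c w N ξ| * (q - p) := by
    intro p q hp hpq hq
    rcases eq_or_lt_of_le hpq with rfl | hlt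
    · simp
    obtain ⟨η, hη, hηe⟩ := exists_hasDerivAt_eq_slope (X b c w n) (U b c w n) hlt
      (X_cont b c w n).continuousOn (fun y _ => X_deriv b c w n y)
    have hpos : 0 < q - p := by linarith
    have h2 : X b c w n q - X b c w n p = U b c w n η * (q - p) := by
      rw [hηe]; field_simp
    rw [h2, abs_mul, abs_of_pos hpos]
    exact mul_le_mul_of_nonneg_right
      (hUsup η ⟨hp.trans hη.1.le, hη.2.le.trans hq⟩) hpos.le
  -- common conclusion
  have hfin : ∀ p q, t₀ ≤ p → p ≤ q → q ≤ β →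
      min (δ₁ - δ) (R - R₁) ≤ |X b c w n q - X b c w n p| →
      min (δ₁ - δ) (R - R₁) * gmin / (L ^ M * D * σ) * (β - t₀) ≤ q - p := by
    intro p q hp hpq hq hmin
    have h1 := hmin.trans (hLip p q hp hpq hq)
    have hpos : 0 < β - t₀ := by linarith [G.lt]
    have hK : 0 < L ^ M * D := by positivity
    have hg := m.hgmin
    have hmin0 : 0 < min (δ₁ - δ) (R - R₁) := lt_min (by linarith) (by linarith)
    -- β - t₀ ≤ σ / (gmin |U ξ|)
    have h2 : (β - t₀) * gmin * |U b c w N ξ| ≤ σ := by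
      have := mul_le_mul_of_nonneg_right hlen hg.le
      have e : σ * gmin⁻¹ * gmin = σ := by field_simp
      rw [e] at this
      linarith
    rw [div_mul_eq_mul_div, div_le_iff₀ (by positivity)]
    have h3 : min (δ₁ - δ) (R - R₁) * gmin * (β - t₀) ≤
        (L ^ M * D * |U b c w N ξ| * (q - p)) * gmin * (β - t₀) := by
      have : 0 ≤ gmin * (β - t₀) := by positivity
      nlinarith
    have hqp : 0 ≤ q - p := by linarith
    have h4 : (L ^ M * D * |U b c w N ξ| * (q - p)) * gmin * (β - t₀) =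
        (L ^ M * D * (q - p)) * ((β - t₀) * gmin * |U b c w N ξ|) := by ring
    rw [h4] at h3
    have h5 := mul_le_mul_of_nonneg_left h2 (by positivity : 0 ≤ L ^ M * D * (q - p))
    linarith
  have hfc : Continuous (fun t => |X b c w n t|) := (X_cont b c w n).abs
  rw [not_and_or, not_le, not_le] at hbad
  rcases hbad with hbad | hbad
  · -- low case
    set S : Set ℝ := Icc t₀ t₁ ∩ {t | δ₁ ≤ |X b c w n t|} with hS
    have hSc : IsCompact S := isCompact_Icc.inter_right (isClosed_le continuous_const hfc)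
    have hSne : S.Nonempty := ⟨t₀, ⟨le_rfl, ht₁.1⟩, (ht₀ n).1⟩
    have hmem := hSc.sSup_mem hSne
    set p := sSup S with hp
    refine ⟨p, t₁, hmem.1.1, ht₁.2, ?_, ?_⟩
    · ext y
      simp only [mem_inter_iff, mem_empty_iff_false, iff_false, not_and]
      intro hy hyS
      have h1 := (hyS n).1
      have h2 : y ∈ S := ⟨⟨hmem.1.1.trans hy.1.le, hy.2⟩, h1⟩
      have h3 : y ≤ p := le_csSup hSc.bddAbove h2
      linarith [hy.1]
    · apply hfin p t₁ hmem.1.1 hmem.1.2 ht₁.2
      refine (min_le_left _ _).trans ?_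
      have h1 : δ₁ ≤ |X b c w n p| := hmem.2
      have h2 := abs_sub_abs_le_abs_sub (X b c w n p) (X b c w n t₁)
      rw [abs_sub_comm]
      linarith
  · -- high case
    set S : Set ℝ := Icc t₀ t₁ ∩ {t | |X b c w n t| ≤ R₁} with hS
    have hSc : IsCompact S := isCompact_Icc.inter_right (isClosed_le hfc continuous_const)
    have hSne : S.Nonempty := ⟨t₀, ⟨le_rfl, ht₁.1⟩, (ht₀ n).2⟩
    have hmem := hSc.sSup_mem hSne
    set p := sSup S with hp
    refine ⟨p, t₁, hmem.1.1, ht₁.2, ?_, ?_⟩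
    · ext y
      simp only [mem_inter_iff, mem_empty_iff_false, iff_false, not_and]
      intro hy hyS
      have h1 := (hyS n).2
      have h2 : y ∈ S := ⟨⟨hmem.1.1.trans hy.1.le, hy.2⟩, h1⟩
      have h3 : y ≤ p := le_csSup hSc.bddAbove h2
      linarith [hy.1]
    · apply hfin p t₁ hmem.1.1 hmem.1.2 ht₁.2
      refine (min_le_right _ _).trans ?_
      have h1 : |X b c w n p| ≤ R₁ := hmem.2
      have h2 := abs_sub_abs_le_abs_sub (X b c w n t₁) (X b c w n p)
      linarith

/-- length of good intervals tends to zero -/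
lemma good_length (m : Metric' b c δ R r lam gmin gmax h g) (hw : |w| ≤ R)
    {σ t₀ β : ℝ} {N : ℕ} (G : Good b c w δ R lam h t₀ β σ N) :
    (β - t₀) ≤ (σ * gmin⁻¹ * gmax * gmin⁻¹) * (lam⁻¹) ^ N := by
  have hl0 : 0 < lam := by linarith [m.hlam]
  have hg := m.hgmin
  obtain ⟨ξ, hξ, hξe⟩ := exists_hasDerivAt_eq_slope (X b c w N) (U b c w N) G.lt
    (X_cont b c w N).continuousOn (fun y _ => X_deriv b c w N y)
  have hξ' := Ioo_subset_Icc_self hξ
  have hpos : 0 < β - t₀ := by linarith [G.lt]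
  have hlen : |U b c w N ξ| * (β - t₀) ≤ σ * gmin⁻¹ := by
    have h1 := (m.lip (G.reg β ⟨G.lt.le, le_rfl⟩ N le_rfl).2
      (G.reg t₀ ⟨le_rfl, G.lt.le⟩ N le_rfl).2).1
    rw [G.hit] at h1
    have h2 : X b c w N β - X b c w N t₀ = U b c w N ξ * (β - t₀) := by
      rw [hξe]; field_simp
    rw [h2, abs_mul, abs_of_pos hpos] at h1
    rw [← div_eq_mul_inv, le_div_iff₀ m.hgmin]
    linarith
  have hgrow : ∀ k ≤ N, lam ^ k * gmin ≤ g (X b c w k ξ) * |U b c w k ξ| := by
    intro k
    induction k with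
    | zero =>
      intro _
      have e0 : U b c w 0 ξ = 1 := rfl
      rw [e0]
      simpa using m.hg1 _ (G.reg ξ hξ' 0 (Nat.zero_le _)).2
    | succ k ih =>
      intro hk
      have h1 := ih (by omega)
      have h2 := m.expand hw (n := k) ((G.reg ξ hξ').mono (by omega))
        (G.reg ξ hξ' (k + 1) hk).2 k le_rfl
      rw [pow_succ]
      have h3 := mul_le_mul_of_nonneg_left h1 hl0.le
      linarith
  have h3 := hgrow N le_rfl
  have h4 : g (X b c w N ξ) * |U b c w N ξ| ≤ gmax * |U b c w N ξ| :=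
    mul_le_mul_of_nonneg_right (m.hg2 _ (G.reg ξ hξ' N le_rfl).2) (abs_nonneg _)
  have hgmax := m.gmax_pos (G.reg ξ hξ' 0 (Nat.zero_le _)).2
  -- (β - t₀) lam^N gmin ≤ gmax σ / gmin
  have h5 : (β - t₀) * (lam ^ N * gmin) ≤ gmax * (σ * gmin⁻¹) := by
    calc (β - t₀) * (lam ^ N * gmin) ≤ (β - t₀) * (gmax * |U b c w N ξ|) :=
          mul_le_mul_of_nonneg_left (h3.trans h4) hpos.le
      _ = gmax * (|U b c w N ξ| * (β - t₀)) := by ring
      _ ≤ _ := mul_le_mul_of_nonneg_left hlen hgmax.le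
  have h6 : 0 < lam ^ N * gmin := by positivity
  have h7 : (σ * gmin⁻¹ * gmax * gmin⁻¹) * (lam⁻¹) ^ N = gmax * (σ * gmin⁻¹) / (lam ^ N * gmin) := by
    rw [inv_pow]
    field_simp
  rw [h7, le_div_iff₀ h6]
  exact h5

/-- sections of the staying set are Lebesgue null -/
theorem section_null (m : Metric' b c δ R r lam gmin gmax h g) {δ₁ R₁ : ℝ}
    (hδ₁ : δ < δ₁) (hR : R₁ < R) (hR0 : 0 ≤ R₁) (hw : |w| ≤ R) :
    volume (stayS b c w δ₁ R₁) = 0 := by
  by_contra hne
  have hl0 : 0 < lam := by linarith [m.hlam]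
  have hg := m.hgmin
  -- bound for h
  obtain ⟨H, hH⟩ : ∃ H, ∀ x, |x| ≤ R → |h x| ≤ H := by
    obtain ⟨H, hH⟩ := (isCompact_Icc (a := -R) (b := R)).exists_bound_of_continuousOn
      m.hcont.continuousOn
    exact ⟨H, fun x hx => hH x (abs_le.1 hx)⟩
  set σ : ℝ := min (gmin * (δ₁ - δ)) (gmin * (R - R₁) / 2) with hσ
  have hs1 : 0 < gmin * (δ₁ - δ) := mul_pos hg (by linarith)
  have hs2 : 0 < gmin * (R - R₁) := mul_pos hg (by linarith)
  have hσ0 : 0 < σ := lt_min hs1 (by linarith)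
  have hσ1 : σ ≤ gmin * (δ₁ - δ) := min_le_left _ _
  have hσ2 : σ < gmin * (R - R₁) := lt_of_le_of_lt (min_le_right _ _) (by linarith)
  obtain ⟨M, hM⟩ : ∃ M : ℕ, 2 * H < lam ^ M * σ := by
    obtain ⟨M, hM⟩ := pow_unbounded_of_one_lt (2 * H / σ) m.hlam
    refine ⟨M, ?_⟩
    rwa [div_lt_iff₀ hσ0] at hM
  set S := stayS b c w δ₁ R₁ with hS
  -- density point
  have hdens := IsUnifLocDoublingMeasure.ae_tendsto_measure_inter_div (volume : Measure ℝ) S 1
  have hex : ∃ t₀ ∈ S, ∀ (v : ℕ → ℝ) (d : ℕ → ℝ), Tendsto d atTop (𝓝[>] 0) →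
      (∀ᶠ j in atTop, t₀ ∈ Metric.closedBall (v j) (1 * d j)) →
      Tendsto (fun j => volume (S ∩ Metric.closedBall (v j) (d j)) /
        volume (Metric.closedBall (v j) (d j))) atTop (𝓝 1) := by
    by_contra hcon
    push Not at hcon
    apply hne
    have hSm : MeasurableSet S := (stayS_closed b c w δ₁ R₁).measurableSet
    rw [ae_restrict_iff' hSm] at hdens
    rw [measure_eq_zero_iff_ae_notMem]
    filter_upwards [hdens] with t ht htS
    obtain ⟨v, d, hd, hvd, hnot⟩ := hcon t htS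
    exact hnot (ht htS v d hd hvd)
  obtain ⟨t₀, ht₀, hlim⟩ := hex
  have hgood := fun N => exists_good m hw hR hR0 hσ0 hσ1 hσ2 ht₀ N
  choose β G using hgood
  set q := min (δ₁ - δ) (R - R₁) * gmin / ((max 1 (2 * R + b / r)) ^ M *
        Real.exp (dis lam gmin gmax r * (2 * σ * gmin⁻¹) * (1 - lam⁻¹)⁻¹) * σ) with hq
  have hmin0 : 0 < min (δ₁ - δ) (R - R₁) := lt_min (by linarith) (by linarith)
  have hq0 : 0 < q := by
    rw [hq]
    have : 0 < max 1 (2 * R + b / r) := lt_of_lt_of_le one_pos (le_max_left _ _)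
    positivity
  have hd : Tendsto (fun N => (β N - t₀) / 2) atTop (𝓝[>] 0) := by
    rw [tendsto_nhdsWithin_iff]
    constructor
    · have h1 : Tendsto (fun N => (σ * gmin⁻¹ * gmax * gmin⁻¹) * (lam⁻¹) ^ N / 2) atTop (𝓝 0) := by
        have h2 := (tendsto_pow_atTop_nhds_zero_of_lt_one (inv_pos.2 hl0).le
          (inv_lt_one_of_one_lt₀ m.hlam)).const_mul (σ * gmin⁻¹ * gmax * gmin⁻¹)
        simpa using h2.div_const 2
      refine squeeze_zero (fun N => by linarith [(G N).lt]) (fun N => ?_) h1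
      have := good_length m hw (G N)
      linarith
    · exact Eventually.of_forall fun N => by
        show 0 < (β N - t₀) / 2
        linarith [(G N).lt]
  have hball : ∀ N, Metric.closedBall ((t₀ + β N) / 2) ((β N - t₀) / 2) = Icc t₀ (β N) := by
    intro N
    rw [Real.closedBall_eq_Icc]
    congr 1 <;> ring
  have hlim' := hlim (fun N => (t₀ + β N) / 2) (fun N => (β N - t₀) / 2) hd
    (Eventually.of_forall fun N => by
      rw [one_mul, hball]
      exact ⟨le_rfl, (G N).lt.le⟩)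
  -- upper bound for the ratio
  have hle : ∀ N, volume (S ∩ Metric.closedBall ((t₀ + β N) / 2) ((β N - t₀) / 2)) /
      volume (Metric.closedBall ((t₀ + β N) / 2) ((β N - t₀) / 2)) ≤ ENNReal.ofReal (1 - q) := by
    intro N
    rw [hball]
    obtain ⟨p, q', hp, hq', hemp, hlen⟩ := escape_prop m hw hδ₁ hR hσ0 ht₀ (G N) hH hM
    rw [← hq] at hlen
    have hpos : 0 < β N - t₀ := by linarith [(G N).lt]
    have hqp : 0 ≤ q' - p := le_trans (by positivity) hlen
    have hsub : S ∩ Icc t₀ (β N) ⊆ Icc t₀ p ∪ Ioc q' (β N) := by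
      rintro y ⟨hyS, hy⟩
      by_cases h1 : y ≤ p
      · exact Or.inl ⟨hy.1, h1⟩
      · by_cases h2 : y ≤ q'
        · exfalso
          have : y ∈ Ioc p q' ∩ stayS b c w δ₁ R₁ := ⟨⟨not_le.1 h1, h2⟩, hyS⟩
          rw [hemp] at this
          exact this
        · exact Or.inr ⟨not_le.1 h2, hy.2⟩
    have h3 : volume (S ∩ Icc t₀ (β N)) ≤ ENNReal.ofReal ((1 - q) * (β N - t₀)) := by
      refine (measure_mono hsub).trans ((measure_union_le _ _).trans ?_)
      rw [Real.volume_Icc, Real.volume_Ioc, ← ENNReal.ofReal_add (by linarith) (by linarith)]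
      apply ENNReal.ofReal_le_ofReal
      linarith
    have h1q : 0 ≤ 1 - q := by
      by_contra hcon
      push Not at hcon
      have : β N - t₀ < q * (β N - t₀) := by nlinarith
      linarith
    rw [Real.volume_Icc]
    rw [ENNReal.div_le_iff (by simpa using hpos) ENNReal.ofReal_ne_top]
    rwa [← ENNReal.ofReal_mul h1q]
  have h1 := le_of_tendsto' hlim' hle
  rw [ENNReal.one_le_ofReal] at h1
  linarith

end Strip

end Run7.h964
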