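import Mathlib
import Pool.Agent.Run7.h964.Strip3
import Pool.Agent.Run7.h964.Cons2

set_option autoImplicit false

/-!
# Two expanding metrics, planar null sets, the critical strip
-/

namespace Run7.h964

namespace Strip

open Filter Topology MeasureTheory Set

/-- the Euclidean metric is expanding outside `|x| < δ` for `δ > (1+b)/2` -/
lemma metric_id {b c δ R : ℝ} (hb : 0 ≤ b) (hb1 : b ≤ 1) (hδ : (1 + b) / 2 < δ) :
    Metric' b c δ R 1 (2 * δ - b) 1 1 id (fun _ => 1) where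
  hb := hb
  hb1 := hb1
  hr := one_pos
  hδ := by rw [div_one]; linarith
  hlam := by linarith
  hgmin := one_pos
  hder := fun x _ => hasDerivAt_id x
  hg1 := fun _ _ => le_rfl
  hg2 := fun _ _ => le_rfl
  hmono := monotone_id
  hcont := continuous_id
  hexp := by
    intro x v h1 _ _ _
    rw [div_one]
    linarith

/-- the arcsine metric -/
lemma metric_arcsin {b c δ R R₃ r lam : ℝ} (hb : 0 ≤ b) (hb1 : b ≤ 1) (hr : 0 < r) (hrb : b ≤ r ^ 2)
    (hδ : r + b / r = 2 * δ) (hlam : 1 < lam) (hlam2 : lam ^ 2 ≤ 2) (hR0 : 0 < R) (hR : R < R₃)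
    (hR3 : 0 ≤ R₃ ^ 2 - (1 + b) * R₃ + c)
    (hmain : lam ^ 2 * (δ ^ 2 + ((1 + b) * R₃ + c)) ≤ r ^ 2) :
    Metric' b c δ R r lam (1 / R₃) (1 / Real.sqrt (R₃ ^ 2 - R ^ 2))
      (fun x => Real.arcsin (x / R₃)) (fun x => 1 / Real.sqrt (R₃ ^ 2 - x ^ 2)) := by
  have hR3p : 0 < R₃ := by linarith
  have hpos : ∀ x, |x| ≤ R → 0 < R₃ ^ 2 - x ^ 2 := by
    intro x hx
    have h1 : x ^ 2 ≤ R ^ 2 := by rw [← sq_abs]; exact pow_le_pow_left₀ (abs_nonneg _) hx 2
    nlinarith
  refine ⟨hb, hb1, hr, hδ.le, hlam, by positivity, ?_, ?_, ?_, ?_, ?_, ?_⟩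
  · intro x hx
    have hx' := abs_le.1 hx
    have h1 : x / R₃ ≠ -1 := by
      intro h
      rw [div_eq_iff hR3p.ne'] at h
      linarith [hx'.1]
    have h2 : x / R₃ ≠ 1 := by
      intro h
      rw [div_eq_iff hR3p.ne'] at h
      linarith [hx'.2]
    have h3 := (Real.hasDerivAt_arcsin h1 h2).comp x ((hasDerivAt_id x).div_const R₃)
    have e : 1 / Real.sqrt (R₃ ^ 2 - x ^ 2) = 1 / Real.sqrt (1 - (x / R₃) ^ 2) * (1 / R₃) := by
      have h4 : R₃ ^ 2 - x ^ 2 = R₃ ^ 2 * (1 - (x / R₃) ^ 2) := by field_simp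
      rw [h4, Real.sqrt_mul (by positivity), Real.sqrt_sq hR3p.le]
      rw [one_div_mul_one_div, mul_comm]
    rw [e]
    exact h3
  · intro x hx
    apply one_div_le_one_div_of_le (Real.sqrt_pos.2 (hpos x hx))
    rw [Real.sqrt_le_left hR3p.le]
    nlinarith [sq_nonneg x]
  · intro x hx
    have h1 : 0 < R₃ ^ 2 - R ^ 2 := by nlinarith
    apply one_div_le_one_div_of_le (Real.sqrt_pos.2 h1)
    apply Real.sqrt_le_sqrt
    have h2 : x ^ 2 ≤ R ^ 2 := by rw [← sq_abs]; exact pow_le_pow_left₀ (abs_nonneg _) hx 2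
    linarith
  · intro x y hxy
    apply Real.monotone_arcsin
    exact div_le_div_of_nonneg_right hxy hR3p.le
  · exact Real.continuous_arcsin.comp (continuous_id.div_const R₃)
  · intro x v hx1 hx2 hv hx'
    have hp := hpos x hx2
    have hp' := hpos _ hx'
    set x' := x ^ 2 + c + b * v with hx'def
    have hlin : 0 ≤ 2 * |x| - b / r := by
      have : b / r ≤ r := by rw [div_le_iff₀ hr]; nlinarith
      nlinarith [abs_nonneg x]
    -- lam² (x² + Δ) ≤ (2|x| - b/r)²
    have hbr : b / r ≤ r := by rw [div_le_iff₀ hr]; nlinarith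
    have hbr0 : 0 ≤ b / r := div_nonneg hb hr.le
    have hquad : lam ^ 2 * (x ^ 2 + ((1 + b) * R₃ + c)) ≤ (2 * |x| - b / r) ^ 2 := by
      have hx2' : x ^ 2 = |x| ^ 2 := (sq_abs x).symm
      rw [hx2']
      set y := |x| with hy
      have h1 : 2 * δ - b / r = r := by linarith
      have h2 : (2 * y - b / r) ^ 2 - lam ^ 2 * y ^ 2 - (r ^ 2 - lam ^ 2 * δ ^ 2) =
          (y - δ) * ((4 - lam ^ 2) * (y + δ) - 4 * (b / r)) := by
        linear_combination (2 * δ - b / r + r) * h1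
      have h3 : 0 ≤ (4 - lam ^ 2) * (y + δ) - 4 * (b / r) := by
        have h4 : (4 - lam ^ 2) * (2 * δ) ≤ (4 - lam ^ 2) * (y + δ) :=
          mul_le_mul_of_nonneg_left (by linarith) (by linarith)
        have h5 : 4 * (b / r) ≤ (4 - lam ^ 2) * (2 * δ) := by
          rw [← hδ]
          have h6 : lam ^ 2 * (r + b / r) ≤ 2 * (r + b / r) :=
            mul_le_mul_of_nonneg_right hlam2 (by linarith)
          nlinarith
        linarith
      have h4 := mul_nonneg (sub_nonneg.2 hx1) h3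
      nlinarith
    have hv' := abs_le.1 hv
    have hA : R₃ - x' ≤ R₃ ^ 2 - x ^ 2 := by
      have : -(b * v) ≤ b * R₃ := by nlinarith [hv'.1]
      rw [hx'def]; linarith
    have hB : R₃ + x' ≤ x ^ 2 + ((1 + b) * R₃ + c) := by
      have : b * v ≤ b * R₃ := by nlinarith [hv'.2]
      rw [hx'def]; linarith
    have hx'' := abs_le.1 hx'
    have hC : R₃ ^ 2 - x' ^ 2 ≤ (R₃ ^ 2 - x ^ 2) * (x ^ 2 + ((1 + b) * R₃ + c)) := by
      have e : R₃ ^ 2 - x' ^ 2 = (R₃ - x') * (R₃ + x') := by ring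
      rw [e]
      exact mul_le_mul hA hB (by linarith [hx''.1]) hp.le
    have hD : lam ^ 2 * (R₃ ^ 2 - x' ^ 2) ≤ (2 * |x| - b / r) ^ 2 * (R₃ ^ 2 - x ^ 2) := by
      calc lam ^ 2 * (R₃ ^ 2 - x' ^ 2) ≤
            lam ^ 2 * ((R₃ ^ 2 - x ^ 2) * (x ^ 2 + ((1 + b) * R₃ + c))) :=
            mul_le_mul_of_nonneg_left hC (by positivity)
        _ = (lam ^ 2 * (x ^ 2 + ((1 + b) * R₃ + c))) * (R₃ ^ 2 - x ^ 2) := by ring
        _ ≤ _ := mul_le_mul_of_nonneg_right hquad hp.le
    have hs := Real.sqrt_pos.2 hp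
    have hs' := Real.sqrt_pos.2 hp'
    have hE : lam * Real.sqrt (R₃ ^ 2 - x' ^ 2) ≤ (2 * |x| - b / r) * Real.sqrt (R₃ ^ 2 - x ^ 2) := by
      apply le_of_sq_le_sq _ (by positivity)
      rw [mul_pow, mul_pow, Real.sq_sqrt hp'.le, Real.sq_sqrt hp.le]
      exact hD
    rw [mul_one_div, one_div_mul_eq_div, div_le_div_iff₀ hs hs']
    exact hE

/-- relation with the Hénon map -/
lemma X_eq (a c : ℝ) (_ha : a ≠ 0) (t y : ℝ) (n : ℕ) :
    X (a ^ 2) c (y / a) n t = xc a c (t, y) n := by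
  induction n using Nat.twoStepInduction with
  | zero => rfl
  | one =>
    rw [iter_fst]
    show t ^ 2 + c + a ^ 2 * (y / a) = a * y + t ^ 2 + c
    field_simp
    ring
  | more n ih1 ih2 =>
    rw [xc_rec, ← ih1, ← ih2]
    rfl

/-- planar staying set -/
def stay2 (a c δ₁ R₁ R : ℝ) : Set (ℝ × ℝ) :=
  {z | |z.2| ≤ |a| * R ∧ ∀ k, δ₁ ≤ |xc a c z k| ∧ |xc a c z k| ≤ R₁}

lemma xc_cont (a c : ℝ) (n : ℕ) : Continuous (fun z => xc a c z n) :=
  ((henon_continuous a c).iterate n).fst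

lemma stay2_closed (a c δ₁ R₁ R : ℝ) : IsClosed (stay2 a c δ₁ R₁ R) := by
  have : stay2 a c δ₁ R₁ R = {z | |z.2| ≤ |a| * R} ∩
      ⋂ k, ({z | δ₁ ≤ |xc a c z k|} ∩ {z | |xc a c z k| ≤ R₁}) := by
    ext z; simp [stay2]
  rw [this]
  apply IsClosed.inter
  · exact isClosed_le continuous_snd.abs continuous_const
  · apply isClosed_iInter
    intro k
    have hc := (xc_cont a c k).abs
    exact (isClosed_le continuous_const hc).inter (isClosed_le hc continuous_const)

theorem stay2_null {a c δ R r lam gmin gmax : ℝ} {h g : ℝ → ℝ} (ha : a ≠ 0)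
    (m : Metric' (a ^ 2) c δ R r lam gmin gmax h g) {δ₁ R₁ : ℝ}
    (hδ₁ : δ < δ₁) (hR : R₁ < R) (hR0 : 0 ≤ R₁) :
    volume (stay2 a c δ₁ R₁ R) = 0 := by
  have hm := (stay2_closed a c δ₁ R₁ R).measurableSet
  rw [Measure.volume_eq_prod, Measure.prod_apply_symm hm]
  rw [lintegral_eq_zero_iff (measurable_measure_prodMk_right hm)]
  filter_upwards with y
  show volume ((fun x => (x, y)) ⁻¹' stay2 a c δ₁ R₁ R) = 0
  by_cases hy : |y / a| ≤ R
  · refine measure_mono_null ?_ (section_null m hδ₁ hR hR0 hy)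
    intro t ht k
    have := ht.2 k
    rw [← X_eq a c ha] at this
    exact this
  · have : (fun x => (x, y)) ⁻¹' stay2 a c δ₁ R₁ R = ∅ := by
      ext t
      simp only [mem_preimage, mem_empty_iff_false, iff_false]
      intro ht
      apply hy
      have h1 : |y| ≤ |a| * R := ht.1
      rw [abs_div, div_le_iff₀ (abs_pos.2 ha)]
      linarith
    rw [this, measure_empty]

end Strip

open Filter Topology MeasureTheory Set

/-- eventual bound for bounded orbits, sharp form -/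
lemma eventually_lt' {b c : ℝ} (hb : 0 ≤ b) {x : ℕ → ℝ}
    (hx : ∀ n, x (n + 2) = x (n + 1) ^ 2 + c + b * x n) {M : ℝ} (hM : ∀ n, |x n| ≤ M)
    {R : ℝ} (hR1 : (1 + b) / 2 ≤ R) (hR2 : 0 < R ^ 2 - (1 + b) * R + c) :
    ∃ N, ∀ n, N ≤ n → |x n| < R := by
  set η := R ^ 2 - (1 + b) * R + c with hη
  have hq : ∀ y, R ≤ y → η ≤ y ^ 2 - (1 + b) * y + c := by
    intro y hy
    rw [hη]
    nlinarith
  have hstep : ∀ n, R ≤ |x (n + 1)| → |x n| ≤ |x (n + 1)| → |x (n + 1)| + η ≤ |x (n + 2)| := by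
    intro n h1 h2
    have h3 : x (n + 1) ^ 2 + c - b * |x n| ≤ x (n + 2) := by
      rw [hx n]
      have := neg_abs_le (x n)
      nlinarith
    have h4 := hq _ h1
    rw [sq_abs] at h4
    have h5 := le_abs_self (x (n + 2))
    nlinarith [mul_le_mul_of_nonneg_left h2 hb]
  have hno : ∀ n, R ≤ |x (n + 1)| → |x (n + 1)| < |x n| := by
    intro n h1
    by_contra h2
    push Not at h2
    have h3 : ∀ k : ℕ, (R ≤ |x (n + k + 1)| ∧ |x (n + k)| ≤ |x (n + k + 1)|) ∧
        |x (n + 1)| + k * η ≤ |x (n + k + 1)| := by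
      intro k
      induction k with
      | zero => simpa using ⟨h1, h2⟩
      | succ k ih =>
        obtain ⟨⟨i1, i2⟩, i3⟩ := ih
        have h4 := hstep (n + k) i1 i2
        have e : n + (k + 1) + 1 = n + k + 2 := by ring
        have e2 : n + (k + 1) = n + k + 1 := by ring
        rw [e, e2]
        refine ⟨⟨by linarith, by linarith⟩, ?_⟩
        push_cast
        linarith
    obtain ⟨k, hk⟩ := exists_nat_gt ((M - |x (n + 1)|) / η)
    rw [div_lt_iff₀ hR2] at hk
    linarith [(h3 k).2, hM (n + k + 1)]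
  have hstep2 : ∀ n, |x n| < R → |x (n + 1)| < R := by
    intro n h1
    by_contra h2
    push Not at h2
    linarith [hno n h2]
  have hex : ∃ N, |x N| < R := by
    by_contra hcon
    push Not at hcon
    have hdec : ∀ n, |x (n + 1)| < |x n| := fun n => hno n (hcon (n + 1))
    have hanti : Antitone (fun n => |x n|) := antitone_nat_of_succ_le (fun n => (hdec n).le)
    have hbb : BddBelow (range (fun n => |x n|)) := ⟨0, by rintro _ ⟨n, rfl⟩; exact abs_nonneg _⟩
    have hlim := tendsto_atTop_ciInf hanti hbb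
    set L := ⨅ n, |x n| with hL
    have hLge : R ≤ L := le_ciInf hcon
    have h1 : Tendsto (fun n => |x (n + 1)|) atTop (𝓝 L) := hlim.comp (tendsto_add_atTop_nat 1)
    have h2 : Tendsto (fun n => |x (n + 2)|) atTop (𝓝 L) := hlim.comp (tendsto_add_atTop_nat 2)
    have h3 : ∀ n, |x (n + 1)| ^ 2 + c ≤ |x (n + 2)| + b * |x n| := by
      intro n
      rw [sq_abs]
      have h4 := le_abs_self (x (n + 2))
      have h5 := neg_abs_le (x n)
      have h6 := hx n
      nlinarith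
    have h4 : L ^ 2 + c ≤ L + b * L := by
      refine le_of_tendsto_of_tendsto' ((h1.pow 2).add tendsto_const_nhds) (h2.add
        (hlim.const_mul b)) h3
    have h5 := hq L hLge
    nlinarith
  obtain ⟨N, hN⟩ := hex
  refine ⟨N, fun n hn => ?_⟩
  induction n, hn using Nat.le_induction with
  | base => exact hN
  | succ n hn ih => exact hstep2 n ih

end Run7.h964
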