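import Mathlib
import Pool.Agent.Run7.h964.Strip3

set_option autoImplicit false

/-!
# Finite-time versions of the growth and escape lemmas
-/

namespace Run7.h964

namespace Strip

open Filter Topology MeasureTheory Set

variable {b c w δ R r lam gmin gmax : ℝ} {h g : ℝ → ℝ}

/-- points of the line whose orbit stays in the region up to time `N` -/
def stayN (b c w δ₁ R₁ : ℝ) (N : ℕ) : Set ℝ :=
  {t | ∀ k ≤ N, δ₁ ≤ |X b c w k t| ∧ |X b c w k t| ≤ R₁}

lemma stayN_anti {δ₁ R₁ : ℝ} {m n : ℕ} (hmn : m ≤ n) :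
    stayN b c w δ₁ R₁ n ⊆ stayN b c w δ₁ R₁ m := fun _ ht k hk => ht k (hk.trans hmn)

lemma near_reg (m : Metric' b c δ R r lam gmin gmax h g) {δ₁ R₁ σ : ℝ} (hR : R₁ < R)
    (hR0 : 0 ≤ R₁) (hσ1 : σ ≤ gmin * (δ₁ - δ)) (hσ2 : σ < gmin * (R - R₁)) {x y : ℝ}
    (hy : |y| ≤ R₁) (hy1 : δ₁ ≤ |y|) (hxy : |h x - h y| ≤ σ) : δ ≤ |x| ∧ |x| ≤ R := by
  have hx := m.stay hR hσ2 hy hxy hR0
  refine ⟨?_, hx.le⟩
  have h1 := (m.lip hx.le (hy.trans hR.le)).1
  have h2 : |x - y| ≤ δ₁ - δ := by
    have : gmin * |x - y| ≤ gmin * (δ₁ - δ) := by linarith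
    exact le_of_mul_le_mul_left this m.hgmin
  have h3 : |y| - |x| ≤ |x - y| := by
    rw [abs_sub_comm]
    exact abs_sub_abs_le_abs_sub y x
  linarith

/-- existence of good intervals, finite-time version -/
lemma exists_good' (m : Metric' b c δ R r lam gmin gmax h g) (hw : |w| ≤ R)
    {δ₁ R₁ σ t₀ : ℝ} (hR : R₁ < R) (hR0 : 0 ≤ R₁) (hσ0 : 0 < σ) (hσ1 : σ ≤ gmin * (δ₁ - δ))
    (hσ2 : σ < gmin * (R - R₁)) (N : ℕ) (ht₀ : t₀ ∈ stayN b c w δ₁ R₁ N) :
    ∃ β, Good b c w δ R lam h t₀ β σ N := by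
  have hl0 : 0 < lam := by linarith [m.hlam]
  have hnear : ∀ x y, |y| ≤ R₁ → δ₁ ≤ |y| → |h x - h y| ≤ σ → δ ≤ |x| ∧ |x| ≤ R :=
    fun x y => near_reg m hR hR0 hσ1 hσ2
  induction N with
  | zero =>
    have hX : ∀ t, X b c w 0 t = t := fun _ => rfl
    have h0 := ht₀ 0 le_rfl
    rw [hX] at h0
    have h0' := abs_le.1 h0.2
    have hle : t₀ ≤ R := by linarith [h0'.2]
    have h1 := (m.lip (x := R) (y := t₀) (by rw [abs_of_nonneg (by linarith)])
      (h0.2.trans hR.le)).1
    have h2 : h t₀ ≤ h R := m.hmono hle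
    rw [abs_of_nonneg (by linarith : (0:ℝ) ≤ h R - h t₀), abs_of_nonneg (by linarith)] at h1
    have h3 : gmin * (R - R₁) ≤ gmin * (R - t₀) :=
      mul_le_mul_of_nonneg_left (by linarith [h0'.2]) m.hgmin.le
    have h4 : h t₀ + σ ∈ Icc (h t₀) (h R) := ⟨by linarith, by linarith⟩
    obtain ⟨β, hβ, hβ1⟩ := intermediate_value_Icc hle m.hcont.continuousOn h4
    have hlt : t₀ < β := by
      rcases eq_or_lt_of_le hβ.1 with h | h
      · rw [← h] at hβ1; linarith
      · exact h
    have hcl : ∀ t ∈ Icc t₀ β, |h t - h t₀| ≤ σ := by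
      intro t ht
      have h5 := m.hmono ht.1
      have h6 := m.hmono ht.2
      rw [abs_of_nonneg (by linarith)]
      linarith
    refine ⟨β, hlt, ?_, ?_, ?_⟩
    · intro t ht k hk
      have : k = 0 := by omega
      subst this
      rw [hX]
      exact hnear t t₀ h0.2 h0.1 (hcl t ht)
    · intro t ht k hk
      have : k = 0 := by omega
      subst this
      simpa [hX] using hcl t ht
    · rw [hX, hX, hβ1, add_sub_cancel_left, abs_of_pos hσ0]
  | succ N ih =>
    obtain ⟨β, G⟩ := ih (stayN_anti (Nat.le_succ N) ht₀)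
    have ht1 := ht₀ (N + 1) le_rfl
    set f : ℝ → ℝ := fun t => |h (X b c w (N + 1) t) - h (X b c w (N + 1) t₀)| with hf
    have hfc : Continuous f := by
      have := m.hcont.comp (X_cont b c w (N + 1))
      exact (this.sub continuous_const).abs
    have hex : ∃ t ∈ Icc t₀ β, σ ≤ f t := by
      by_contra hcon
      push Not at hcon
      have hX1 : ∀ y ∈ Icc t₀ β, |X b c w (N + 1) y| ≤ R := fun y hy =>
        (m.stay hR hσ2 ht1.2 (hcon y hy).le hR0).le
      have h1 := m.dist_expand hw G.lt.le G.reg hX1 N le_rfl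
      rw [G.hit] at h1
      have h2 := hcon β ⟨G.lt.le, le_rfl⟩
      have h3 : σ < lam * σ := by nlinarith [m.hlam]
      simp only [hf] at h2
      linarith
    set S : Set ℝ := {t | t ∈ Icc t₀ β ∧ σ ≤ f t} with hS
    have hSc : IsCompact S := by
      have : S = Icc t₀ β ∩ f ⁻¹' (Ici σ) := rfl
      rw [this]
      exact isCompact_Icc.inter_right (isClosed_Ici.preimage hfc)
    have hSne : S.Nonempty := by
      obtain ⟨t, ht, ht'⟩ := hex
      exact ⟨t, ht, ht'⟩
    set β' := sInf S with hβ'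
    have hmem : β' ∈ S := hSc.sInf_mem hSne
    have hlow : ∀ t ∈ Icc t₀ β, t < β' → f t < σ := by
      intro t ht hlt
      by_contra hcon
      push Not at hcon
      have : β' ≤ t := csInf_le hSc.bddBelow ⟨ht, hcon⟩
      linarith
    have hf0 : f t₀ = 0 := by simp [hf]
    have hlt : t₀ < β' := by
      rcases eq_or_lt_of_le hmem.1.1 with h1 | h1
      · have := hmem.2
        rw [← h1, hf0] at this
        linarith
      · exact h1
    have hle : ∀ t ∈ Icc t₀ β', f t ≤ σ := by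
      intro t ht
      rcases lt_or_eq_of_le ht.2 with h1 | h1
      · exact (hlow t ⟨ht.1, h1.le.trans hmem.1.2⟩ h1).le
      · rw [h1]
        -- limit from the left
        have hcl : β' ∈ closure (Ico t₀ β') := by
          rw [closure_Ico hlt.ne]
          exact ⟨hlt.le, le_rfl⟩
        have hsub : Ico t₀ β' ⊆ {y | f y ≤ σ} := fun y hy =>
          (hlow y ⟨hy.1, hy.2.le.trans hmem.1.2⟩ hy.2).le
        have hclosed : IsClosed {y | f y ≤ σ} := isClosed_le hfc continuous_const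
        exact (closure_minimal hsub hclosed) hcl
    have hhit : f β' = σ := le_antisymm (hle β' ⟨hlt.le, le_rfl⟩) hmem.2
    have hreg1 : ∀ t ∈ Icc t₀ β', δ ≤ |X b c w (N + 1) t| ∧ |X b c w (N + 1) t| ≤ R :=
      fun t ht => hnear _ _ ht1.2 ht1.1 (hle t ht)
    have hsubI : ∀ t ∈ Icc t₀ β', t ∈ Icc t₀ β := fun t ht => ⟨ht.1, ht.2.trans hmem.1.2⟩
    refine ⟨β', hlt, ?_, ?_, hhit⟩
    · intro t ht k hk
      rcases Nat.lt_or_ge k (N + 1) with h1 | h1
      · exact G.reg t (hsubI t ht) k (by omega)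
      · have : k = N + 1 := by omega
        rw [this]; exact hreg1 t ht
    · intro t ht
      have key : ∀ j ≤ N + 1, |h (X b c w (N + 1 - j) t) - h (X b c w (N + 1 - j) t₀)| ≤
          σ * (lam⁻¹) ^ j := by
        intro j
        induction j with
        | zero =>
          intro _
          simpa using hle t ht
        | succ j ihj =>
          intro hj
          have h1 := ihj (by omega)
          have h2 := m.dist_expand hw (n := N) ht.1
            (fun y hy => G.reg y (hsubI y ⟨hy.1, hy.2.trans ht.2⟩))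
            (fun y hy => (hreg1 y ⟨hy.1, hy.2.trans ht.2⟩).2) (N + 1 - (j + 1)) (by omega)
          have e : N + 1 - (j + 1) + 1 = N + 1 - j := by omega
          rw [e] at h2
          have h3 := h2.trans h1
          rw [pow_succ]
          have h4 : lam * (σ * ((lam⁻¹) ^ j * lam⁻¹)) = σ * (lam⁻¹) ^ j := by
            field_simp
          rw [← h4] at h3
          exact le_of_mul_le_mul_left h3 hl0
      intro k hk
      have h1 := key (N + 1 - k) (by omega)
      have e : N + 1 - (N + 1 - k) = k := by omega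
      rwa [e] at h1

/-- in a good interval a definite proportion leaves a smaller region, finite-time version -/
lemma escape_prop' (m : Metric' b c δ R r lam gmin gmax h g) (hw : |w| ≤ R)
    {δ₁ R₁ δ₂ R₂ σ t₀ β : ℝ} (hδ₁ : δ < δ₂) (hδ₂ : δ₂ ≤ δ₁) (hR : R₂ < R) (hR₂ : R₁ ≤ R₂)
    (hσ0 : 0 < σ) {N M : ℕ} (ht₀ : t₀ ∈ stayN b c w δ₁ R₁ (N + M))
    (G : Good b c w δ R lam h t₀ β σ N) {H : ℝ} (hH : ∀ x, |x| ≤ R → |h x| ≤ H)
    (hM : 2 * H < lam ^ M * σ) :
    ∃ p q, t₀ ≤ p ∧ q ≤ β ∧ (∃ n ≤ N + M, ∀ y ∈ Ioc p q,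
        ¬ (δ₂ ≤ |X b c w n y| ∧ |X b c w n y| ≤ R₂)) ∧
      min (δ₂ - δ) (R - R₂) * gmin / ((max 1 (2 * R + b / r)) ^ M *
        Real.exp (dis lam gmin gmax r * (2 * σ * gmin⁻¹) * (1 - lam⁻¹)⁻¹) * σ) * (β - t₀) ≤
        q - p := by
  have hl0 : 0 < lam := by linarith [m.hlam]
  set Q : ℕ → Prop := fun k => ∀ t ∈ Icc t₀ β, Reg b c w δ R (N + k) t with hQ
  have hQ0 : Q 0 := fun t ht => G.reg t ht
  have hQM : ¬ Q M := by
    intro hq
    have key : ∀ j ≤ M, lam ^ j * σ ≤ |h (X b c w (N + j) β) - h (X b c w (N + j) t₀)| := by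
      intro j
      induction j with
      | zero =>
        intro _
        simpa using G.hit.ge
      | succ j ih =>
        intro hj
        have h1 := ih (by omega)
        have h2 := m.dist_expand hw (n := N + j) G.lt.le
          (fun y hy => (hq y hy).mono (by omega)) (fun y hy => (hq y hy (N + j + 1) (by omega)).2)
          (N + j) le_rfl
        have e : N + (j + 1) = N + j + 1 := by ring
        rw [e, pow_succ]
        have h3 := mul_le_mul_of_nonneg_left h1 hl0.le
        linarith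
    have h1 := key M le_rfl
    have h2 := hH _ (hq β ⟨G.lt.le, le_rfl⟩ (N + M) le_rfl).2
    have h3 := hH _ (hq t₀ ⟨le_rfl, G.lt.le⟩ (N + M) le_rfl).2
    have h4 := abs_sub (h (X b c w (N + M) β)) (h (X b c w (N + M) t₀))
    linarith
  obtain ⟨k, hkM, hk, hk1⟩ : ∃ k, k < M ∧ Q k ∧ ¬ Q (k + 1) := by
    by_contra hcon
    push Not at hcon
    have : ∀ j ≤ M, Q j := by
      intro j
      induction j with
      | zero => intro _; exact hQ0
      | succ j ih => intro hj; exact hcon j (by omega) (ih (by omega))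
    exact hQM (this M le_rfl)
  -- the escaping time
  set n := N + k + 1 with hn
  have hnle : n ≤ N + M := by omega
  obtain ⟨t₁, ht₁, hbad⟩ : ∃ t₁ ∈ Icc t₀ β, ¬ (δ ≤ |X b c w n t₁| ∧ |X b c w n t₁| ≤ R) := by
    by_contra hcon
    push Not at hcon
    apply hk1
    intro t ht j hj
    rcases Nat.lt_or_ge j n with h1 | h1
    · exact hk t ht j (by omega)
    · have : j = n := by omega
      rw [this]; exact hcon t ht
  set L := max 1 (2 * R + b / r) with hL
  have hL1 : 1 ≤ L := le_max_left _ _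
  -- derivative bound
  set D := Real.exp (dis lam gmin gmax r * (2 * σ * gmin⁻¹) * (1 - lam⁻¹)⁻¹) with hD
  have hD0 : 0 < D := Real.exp_pos _
  have hUj : ∀ t ∈ Icc t₀ β, ∀ j ≤ k + 1, |U b c w (N + j) t| ≤ L ^ j * |U b c w N t| := by
    intro t ht j
    induction j with
    | zero => intro _; simp
    | succ j ih =>
      intro hj
      have h1 := ih (by omega)
      have h2 := (ratio m.hb m.hr m.hδ (hk t ht) (N + j) (by omega)).2.2.2
      have e : N + (j + 1) = N + j + 1 := by ring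
      rw [e, pow_succ]
      calc |U b c w (N + j + 1) t| ≤ (2 * R + b / r) * |U b c w (N + j) t| := h2
        _ ≤ L * |U b c w (N + j) t| := mul_le_mul_of_nonneg_right (le_max_right _ _) (abs_nonneg _)
        _ ≤ L * (L ^ j * |U b c w N t|) := mul_le_mul_of_nonneg_left h1 (by linarith)
        _ = _ := by ring
  -- mean value for X_N
  obtain ⟨ξ, hξ, hξe⟩ := exists_hasDerivAt_eq_slope (X b c w N) (U b c w N) G.lt
    (X_cont b c w N).continuousOn (fun y _ => X_deriv b c w N y)
  have hξ' := Ioo_subset_Icc_self hξ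
  have hUξ := (ratio m.hb m.hr m.hδ (G.reg ξ hξ') N le_rfl).1
  have hlen : |U b c w N ξ| * (β - t₀) ≤ σ * gmin⁻¹ := by
    have h1 := (m.lip (G.reg β ⟨G.lt.le, le_rfl⟩ N le_rfl).2
      (G.reg t₀ ⟨le_rfl, G.lt.le⟩ N le_rfl).2).1
    rw [G.hit] at h1
    have hpos : 0 < β - t₀ := by linarith [G.lt]
    have h2 : X b c w N β - X b c w N t₀ = U b c w N ξ * (β - t₀) := by
      rw [hξe]; field_simp
    rw [h2, abs_mul, abs_of_pos hpos] at h1
    rw [← div_eq_mul_inv, le_div_iff₀ m.hgmin]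
    linarith
  have hUsup : ∀ t ∈ Icc t₀ β, |U b c w n t| ≤ L ^ M * D * |U b c w N ξ| := by
    intro t ht
    have h1 := hUj t ht (k + 1) le_rfl
    have h2 := distortion m hw hσ0.le G hξ' ht
    have h3 : L ^ (k + 1) ≤ L ^ M := pow_le_pow_right₀ hL1 (by omega)
    have e : N + (k + 1) = n := by rw [hn]; ring
    rw [e] at h1
    calc |U b c w n t| ≤ L ^ (k + 1) * |U b c w N t| := h1
      _ ≤ L ^ M * |U b c w N t| := mul_le_mul_of_nonneg_right h3 (abs_nonneg _)
      _ ≤ L ^ M * (D * |U b c w N ξ|) := mul_le_mul_of_nonneg_left h2 (by positivity)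
      _ = _ := by ring
  -- Lipschitz bound for X_n
  have hLip : ∀ p q, t₀ ≤ p → p ≤ q → q ≤ β →
      |X b c w n q - X b c w n p| ≤ L ^ M * D * |U b c w N ξ| * (q - p) := by
    intro p q hp hpq hq
    rcases eq_or_lt_of_le hpq with rfl | hlt
    · simp
    obtain ⟨η, hη, hηe⟩ := exists_hasDerivAt_eq_slope (X b c w n) (U b c w n) hlt
      (X_cont b c w n).continuousOn (fun y _ => X_deriv b c w n y)
    have hpos : 0 < q - p := by linarith
    have h2 : X b c w n q - X b c w n p = U b c w n η * (q - p) := by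
      rw [hηe]; field_simp
    rw [h2, abs_mul, abs_of_pos hpos]
    exact mul_le_mul_of_nonneg_right
      (hUsup η ⟨hp.trans hη.1.le, hη.2.le.trans hq⟩) hpos.le
  -- common conclusion
  have hfin : ∀ p q, t₀ ≤ p → p ≤ q → q ≤ β →
      min (δ₂ - δ) (R - R₂) ≤ |X b c w n q - X b c w n p| →
      min (δ₂ - δ) (R - R₂) * gmin / (L ^ M * D * σ) * (β - t₀) ≤ q - p := by
    intro p q hp hpq hq hmin
    have h1 := hmin.trans (hLip p q hp hpq hq)
    have hpos : 0 < β - t₀ := by linarith [G.lt]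
    have hK : 0 < L ^ M * D := by positivity
    have hg := m.hgmin
    have hmin0 : 0 < min (δ₂ - δ) (R - R₂) := lt_min (by linarith) (by linarith)
    -- β - t₀ ≤ σ / (gmin |U ξ|)
    have h2 : (β - t₀) * gmin * |U b c w N ξ| ≤ σ := by
      have := mul_le_mul_of_nonneg_right hlen hg.le
      have e : σ * gmin⁻¹ * gmin = σ := by field_simp
      rw [e] at this
      linarith
    rw [div_mul_eq_mul_div, div_le_iff₀ (by positivity)]
    have h3 : min (δ₂ - δ) (R - R₂) * gmin * (β - t₀) ≤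
        (L ^ M * D * |U b c w N ξ| * (q - p)) * gmin * (β - t₀) := by
      have : 0 ≤ gmin * (β - t₀) := by positivity
      nlinarith
    have hqp : 0 ≤ q - p := by linarith
    have h4 : (L ^ M * D * |U b c w N ξ| * (q - p)) * gmin * (β - t₀) =
        (L ^ M * D * (q - p)) * ((β - t₀) * gmin * |U b c w N ξ|) := by ring
    rw [h4] at h3
    have h5 := mul_le_mul_of_nonneg_left h2 (by positivity : 0 ≤ L ^ M * D * (q - p))
    linarith
  have hfc : Continuous (fun t => |X b c w n t|) := (X_cont b c w n).abs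
  have ht₀n := ht₀ n hnle
  rw [not_and_or, not_le, not_le] at hbad
  rcases hbad with hbad | hbad
  · -- low case
    set S : Set ℝ := Icc t₀ t₁ ∩ {t | δ₂ ≤ |X b c w n t|} with hS
    have hSc : IsCompact S := isCompact_Icc.inter_right (isClosed_le continuous_const hfc)
    have hSne : S.Nonempty := ⟨t₀, ⟨le_rfl, ht₁.1⟩, hδ₂.trans ht₀n.1⟩
    have hmem := hSc.sSup_mem hSne
    set p := sSup S with hp
    refine ⟨p, t₁, hmem.1.1, ht₁.2, ⟨n, hnle, ?_⟩, ?_⟩
    · intro y hy hyS
      have h2 : y ∈ S := ⟨⟨hmem.1.1.trans hy.1.le, hy.2⟩, hyS.1⟩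
      have h3 : y ≤ p := le_csSup hSc.bddAbove h2
      linarith [hy.1]
    · apply hfin p t₁ hmem.1.1 hmem.1.2 ht₁.2
      refine (min_le_left _ _).trans ?_
      have h1 : δ₂ ≤ |X b c w n p| := hmem.2
      have h2 := abs_sub_abs_le_abs_sub (X b c w n p) (X b c w n t₁)
      rw [abs_sub_comm]
      linarith
  · -- high case
    set S : Set ℝ := Icc t₀ t₁ ∩ {t | |X b c w n t| ≤ R₂} with hS
    have hSc : IsCompact S := isCompact_Icc.inter_right (isClosed_le hfc continuous_const)
    have hSne : S.Nonempty := ⟨t₀, ⟨le_rfl, ht₁.1⟩, ht₀n.2.trans hR₂⟩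
    have hmem := hSc.sSup_mem hSne
    set p := sSup S with hp
    refine ⟨p, t₁, hmem.1.1, ht₁.2, ⟨n, hnle, ?_⟩, ?_⟩
    · intro y hy hyS
      have h2 : y ∈ S := ⟨⟨hmem.1.1.trans hy.1.le, hy.2⟩, hyS.2⟩
      have h3 : y ≤ p := le_csSup hSc.bddAbove h2
      linarith [hy.1]
    · apply hfin p t₁ hmem.1.1 hmem.1.2 ht₁.2
      refine (min_le_right _ _).trans ?_
      have h1 : |X b c w n p| ≤ R₂ := hmem.2
      have h2 := abs_sub_abs_le_abs_sub (X b c w n t₁) (X b c w n p)
      linarith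

end Strip

end Run7.h964
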