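import Mathlib
import Pool.Agent.Run7.h964.Win1

set_option autoImplicit false

/-!
# Exponential decay of the measure of the points that stay in the region
-/

namespace Run7.h964

namespace Strip

open Filter Topology MeasureTheory Set

variable {b c w δ R r lam gmin gmax : ℝ} {h g : ℝ → ℝ}

/-- the union of the good intervals at time `k` -/
def UU (b c w δ₁ R₁ σ lam : ℝ) (h : ℝ → ℝ) (k : ℕ) : Set ℝ :=
  {t | ∃ t₀ ∈ stayN b c w δ₁ R₁ k, t₀ ≤ t ∧ ∀ s ∈ Icc t₀ t, ∀ j ≤ k,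
    |h (X b c w j s) - h (X b c w j t₀)| ≤ σ * (lam⁻¹) ^ (k - j)}

lemma stayN_sub_UU {δ₁ R₁ σ : ℝ} (hσ : 0 ≤ σ) (hl : 0 < lam) (k : ℕ) :
    stayN b c w δ₁ R₁ k ⊆ UU b c w δ₁ R₁ σ lam h k := by
  intro t ht
  refine ⟨t, ht, le_rfl, fun s hs j _ => ?_⟩
  have e : s = t := le_antisymm hs.2 hs.1
  rw [e, sub_self, abs_zero]
  have := inv_pos.2 hl
  positivity

lemma UU_step (m : Metric' b c δ R r lam gmin gmax h g) (hw : |w| ≤ R)
    {δ₁ R₁ δ₂ R₂ σ : ℝ} (hδ₁ : δ < δ₂) (hδ₂ : δ₂ < δ₁) (hR : R₂ < R) (hR₂ : R₁ < R₂)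
    (hR0 : 0 ≤ R₁) (hσ0 : 0 < σ) (hσ1 : σ ≤ gmin * (δ₁ - δ))
    (hσ2 : σ < gmin * (R - R₁)) {H : ℝ} (hH : ∀ x, |x| ≤ R → |h x| ≤ H) {M m₀ : ℕ}
    (hM : 2 * H < lam ^ M * σ) (hm1 : σ * (lam⁻¹) ^ m₀ ≤ gmin * (δ₁ - δ₂))
    (hm2 : σ * (lam⁻¹) ^ m₀ ≤ gmin * (R₂ - R₁)) {q₀ : ℝ}
    (hq₀ : q₀ = min (δ₂ - δ) (R - R₂) * gmin / ((max 1 (2 * R + b / r)) ^ M *
        Real.exp (dis lam gmin gmax r * (2 * σ * gmin⁻¹) * (1 - lam⁻¹)⁻¹) * σ)) (k : ℕ) :
    volume (UU b c w δ₁ R₁ σ lam h (k + (M + m₀))) * (1 + ENNReal.ofReal (q₀ / 4)) ≤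
      volume (UU b c w δ₁ R₁ σ lam h k) := by
  have hl0 : 0 < lam := by linarith [m.hlam]
  have hli0 : 0 < lam⁻¹ := inv_pos.2 hl0
  have hli1 : lam⁻¹ ≤ 1 := (inv_lt_one_of_one_lt₀ m.hlam).le
  have hg := m.hgmin
  have hmin0 : 0 < min (δ₂ - δ) (R - R₂) := lt_min (by linarith) (by linarith)
  have hq0 : 0 < q₀ := by
    rw [hq₀]
    have : 0 < max 1 (2 * R + b / r) := lt_of_lt_of_le one_pos (le_max_left _ _)
    positivity
  set S := stayN b c w δ₁ R₁ (k + (M + m₀)) with hS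
  set V := UU b c w δ₁ R₁ σ lam h (k + (M + m₀)) with hV
  set W := UU b c w δ₁ R₁ σ lam h k with hW
  -- the sets decrease
  have hVW : V ⊆ W := by
    rintro t ⟨t₀, ht₀, hle, hcl⟩
    refine ⟨t₀, stayN_anti (by omega) ht₀, hle, fun s hs j hj => ?_⟩
    refine (hcl s hs j (by omega)).trans ?_
    apply mul_le_mul_of_nonneg_left _ hσ0.le
    exact pow_le_pow_of_le_one hli0.le hli1 (by omega)
  -- points of V stay in the intermediate region up to time k + M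
  have hVreg : ∀ t ∈ V, ∀ n ≤ k + M, δ₂ ≤ |X b c w n t| ∧ |X b c w n t| ≤ R₂ := by
    rintro t ⟨t₀, ht₀, hle, hcl⟩ n hn
    have h1 := hcl t ⟨hle, le_rfl⟩ n (by omega)
    have h0 := ht₀ n (by omega)
    have hpow : (lam⁻¹) ^ (k + (M + m₀) - n) ≤ (lam⁻¹) ^ m₀ :=
      pow_le_pow_of_le_one hli0.le hli1 (by omega)
    have h2 : |h (X b c w n t) - h (X b c w n t₀)| ≤ σ * (lam⁻¹) ^ m₀ :=
      h1.trans (mul_le_mul_of_nonneg_left hpow hσ0.le)
    have h3 : |h (X b c w n t) - h (X b c w n t₀)| ≤ σ := by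
      refine h2.trans ?_
      have : (lam⁻¹) ^ m₀ ≤ 1 := pow_le_one₀ hli0.le hli1
      nlinarith
    have h4 := near_reg m (by linarith) hR0 hσ1 hσ2 h0.2 h0.1 h3
    have h5 := (m.lip h4.2 (h0.2.trans (by linarith : R₁ ≤ R))).1
    have h6 : |X b c w n t - X b c w n t₀| ≤ δ₁ - δ₂ := by
      have : gmin * |X b c w n t - X b c w n t₀| ≤ gmin * (δ₁ - δ₂) := by linarith
      exact le_of_mul_le_mul_left this hg
    have h7 : |X b c w n t - X b c w n t₀| ≤ R₂ - R₁ := by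
      have : gmin * |X b c w n t - X b c w n t₀| ≤ gmin * (R₂ - R₁) := by linarith
      exact le_of_mul_le_mul_left this hg
    have h8 := abs_sub_abs_le_abs_sub (X b c w n t) (X b c w n t₀)
    have h9 := abs_sub_abs_le_abs_sub (X b c w n t₀) (X b c w n t)
    rw [abs_sub_comm] at h9
    constructor
    · linarith [h0.1]
    · linarith [h0.2]
  -- good intervals
  have hgood : ∀ t₀ ∈ S, ∃ β, Good b c w δ R lam h t₀ β σ k := fun t₀ ht₀ =>
    exists_good' m hw (by linarith) hR0 hσ0 hσ1 hσ2 k (stayN_anti (by omega) ht₀)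
  have hpq : ∀ t₀ : ℝ, ∃ β p q : ℝ, t₀ ∈ S → (Good b c w δ R lam h t₀ β σ k ∧ t₀ ≤ p ∧ q ≤ β ∧
      (∃ n ≤ k + M, ∀ y ∈ Ioc p q, ¬ (δ₂ ≤ |X b c w n y| ∧ |X b c w n y| ≤ R₂)) ∧
      q₀ * (β - t₀) ≤ q - p) := by
    intro t₀
    by_cases ht₀ : t₀ ∈ S
    · obtain ⟨β, G⟩ := hgood t₀ ht₀
      obtain ⟨p, q, h1, h2, h3, h4⟩ := escape_prop' m hw hδ₁ hδ₂.le hR hR₂.le hσ0
        (stayN_anti (by omega) ht₀) G hH hM
      rw [← hq₀] at h4
      exact ⟨β, p, q, fun _ => ⟨G, h1, h2, h3, h4⟩⟩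
    · exact ⟨0, 0, 0, fun h => absurd h ht₀⟩
  choose β p q hB using hpq
  have hball : ∀ t₀, Metric.closedBall ((t₀ + β t₀) / 2) ((β t₀ - t₀) / 2) = Icc t₀ (β t₀) := by
    intro t₀
    rw [Real.closedBall_eq_Icc]
    congr 1 <;> ring
  obtain ⟨u, huS, hdisj, hcov⟩ := Vitali.exists_disjoint_subfamily_covering_enlargement_closedBall
    S (fun t₀ => (t₀ + β t₀) / 2) (fun t₀ => (β t₀ - t₀) / 2) R (fun t₀ ht₀ => by
      have G := (hB t₀ ht₀).1
      have h1 := (G.reg t₀ ⟨le_rfl, G.lt.le⟩ 0 (Nat.zero_le _)).2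
      have h2 := (G.reg (β t₀) ⟨G.lt.le, le_rfl⟩ 0 (Nat.zero_le _)).2
      have e1 : X b c w 0 t₀ = t₀ := rfl
      have e2 : X b c w 0 (β t₀) = β t₀ := rfl
      rw [e1] at h1
      rw [e2] at h2
      have h1' := abs_le.1 h1
      have h2' := abs_le.1 h2
      show (β t₀ - t₀) / 2 ≤ R
      linarith) 4 (by norm_num)
  have hcount : u.Countable := by
    apply hdisj.countable_of_nonempty_interior
    intro t₀ ht₀
    show (interior (Metric.closedBall ((t₀ + β t₀) / 2) ((β t₀ - t₀) / 2))).Nonempty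
    rw [hball, interior_Icc]
    exact nonempty_Ioo.2 (hB t₀ (huS ht₀)).1.lt
  have : Countable u := hcount.to_subtype
  set E : Set ℝ := ⋃ t₀ ∈ u, Ioc (p t₀) (q t₀) with hE
  have hEm : MeasurableSet E := MeasurableSet.biUnion hcount fun _ _ => measurableSet_Ioc
  have hsubIcc : ∀ t₀ ∈ u, Ioc (p t₀) (q t₀) ⊆ Icc t₀ (β t₀) := by
    intro t₀ ht₀ y hy
    obtain ⟨-, h1, h2, -, -⟩ := hB t₀ (huS ht₀)
    exact ⟨h1.trans hy.1.le, hy.2.trans h2⟩
  have hEvol : volume E = ∑' t₀ : u, volume (Ioc (p t₀) (q t₀)) := by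
    rw [hE, measure_biUnion hcount _ (fun _ _ => measurableSet_Ioc)]
    intro s hs t ht hst
    have h1 := hdisj hs ht hst
    simp only [Function.onFun] at h1 ⊢
    rw [hball, hball] at h1
    exact h1.mono (hsubIcc s hs) (hsubIcc t ht)
  have hEW : E ⊆ W := by
    intro y hy
    rw [hE, mem_iUnion₂] at hy
    obtain ⟨t₀, ht₀, hy⟩ := hy
    have G := (hB t₀ (huS ht₀)).1
    have hy' := hsubIcc t₀ ht₀ hy
    refine ⟨t₀, stayN_anti (by omega) (huS ht₀), hy'.1, fun s hs j hj => ?_⟩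
    exact G.close s ⟨hs.1, hs.2.trans hy'.2⟩ j hj
  have hEV : ∀ y ∈ V, y ∉ E := by
    intro y hyV hy
    rw [hE, mem_iUnion₂] at hy
    obtain ⟨t₀, ht₀, hy⟩ := hy
    obtain ⟨n, hn, hn2⟩ := (hB t₀ (huS ht₀)).2.2.2.1
    exact hn2 y hy (hVreg y hyV n hn)
  -- covering
  have hVcov : V ⊆ ⋃ t₀ : u, Metric.closedBall (((t₀ : ℝ) + β t₀) / 2) (4 * ((β t₀ - t₀) / 2)) := by
    rintro t ⟨t₀, ht₀, hle, hcl⟩
    have G := (hB t₀ ht₀).1
    have htβ : t ≤ β t₀ := by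
      by_contra hcon
      push Not at hcon
      have h1 := hcl (β t₀) ⟨G.lt.le, hcon.le⟩ k (by omega)
      rw [G.hit] at h1
      have hM0 : 1 ≤ M + m₀ := by
        by_contra hc
        have e1 : M = 0 := by omega
        have h2 := hH (X b c w 0 t₀) (by
          have := (G.reg t₀ ⟨le_rfl, G.lt.le⟩ 0 (Nat.zero_le _)).2
          exact this)
        have h3 := G.hit
        have h4 := hH _ (G.reg t₀ ⟨le_rfl, G.lt.le⟩ k le_rfl).2
        have h5 := hH _ (G.reg (β t₀) ⟨G.lt.le, le_rfl⟩ k le_rfl).2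
        have h6 := abs_sub (h (X b c w k (β t₀))) (h (X b c w k t₀))
        rw [e1, pow_zero, one_mul] at hM
        linarith
      have h2 : (lam⁻¹) ^ (k + (M + m₀) - k) < 1 :=
        pow_lt_one₀ hli0.le (inv_lt_one_of_one_lt₀ m.hlam) (by omega)
      nlinarith
    obtain ⟨s, hs, hsub⟩ := hcov t₀ ht₀
    have h1 : t ∈ Metric.closedBall ((t₀ + β t₀) / 2) ((β t₀ - t₀) / 2) := by
      rw [hball]; exact ⟨hle, htβ⟩
    exact mem_iUnion.2 ⟨⟨s, hs⟩, hsub h1⟩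
  have hVvol : volume V * ENNReal.ofReal (q₀ / 4) ≤ volume E := by
    have h1 : volume V ≤ ∑' t₀ : u, ENNReal.ofReal (4 / q₀) * volume (Ioc (p t₀) (q t₀)) := by
      refine (measure_mono hVcov).trans ((measure_iUnion_le _).trans ?_)
      apply ENNReal.tsum_le_tsum
      intro t₀
      have h2 := (hB t₀ (huS t₀.2)).2.2.2.2
      rw [Real.volume_closedBall, Real.volume_Ioc, ← ENNReal.ofReal_mul (by positivity)]
      apply ENNReal.ofReal_le_ofReal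
      rw [div_mul_eq_mul_div, le_div_iff₀ hq0]
      nlinarith
    rw [ENNReal.tsum_mul_left, ← hEvol] at h1
    calc volume V * ENNReal.ofReal (q₀ / 4) ≤
          (ENNReal.ofReal (4 / q₀) * volume E) * ENNReal.ofReal (q₀ / 4) :=
          mul_le_mul_left h1 _
      _ = (ENNReal.ofReal (4 / q₀) * ENNReal.ofReal (q₀ / 4)) * volume E := by ring
      _ = volume E := by
          rw [← ENNReal.ofReal_mul (by positivity)]
          have : 4 / q₀ * (q₀ / 4) = 1 := by field_simp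
          rw [this, ENNReal.ofReal_one, one_mul]
  calc volume V * (1 + ENNReal.ofReal (q₀ / 4)) = volume V + volume V * ENNReal.ofReal (q₀ / 4) := by
        rw [mul_add, mul_one]
    _ ≤ volume V + volume E := by gcongr
    _ ≤ volume (W \ E) + volume (W ∩ E) := by
        apply add_le_add
        · exact measure_mono fun y hy => ⟨hVW hy, hEV y hy⟩
        · rw [inter_eq_self_of_subset_right hEW]
    _ = volume W := by
        rw [add_comm]
        exact measure_inter_add_sdiff W hEm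

/-- exponential decay along multiples of a period, uniformly in the height of the line -/
theorem stay_exp (m : Metric' b c δ R r lam gmin gmax h g) {δ₁ R₁ : ℝ}
    (hδ₁ : δ < δ₁) (hR : R₁ < R) (hR0 : 0 ≤ R₁) :
    ∃ M : ℕ, ∃ ρ : ℝ, 0 < ρ ∧ ρ < 1 ∧ ∀ w, |w| ≤ R → ∀ j : ℕ,
      volume (stayN b c w δ₁ R₁ (j * M)) ≤ ENNReal.ofReal (2 * R * ρ ^ j) := by
  have hl0 : 0 < lam := by linarith [m.hlam]
  have hg := m.hgmin
  have hRpos : 0 < R := by linarith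
  obtain ⟨H, hH⟩ : ∃ H, ∀ x, |x| ≤ R → |h x| ≤ H := by
    obtain ⟨H, hH⟩ := (isCompact_Icc (a := -R) (b := R)).exists_bound_of_continuousOn
      m.hcont.continuousOn
    exact ⟨H, fun x hx => hH x (abs_le.1 hx)⟩
  set σ : ℝ := min (gmin * (δ₁ - δ)) (gmin * (R - R₁) / 2) with hσ
  have hs1 : 0 < gmin * (δ₁ - δ) := mul_pos hg (by linarith)
  have hs2 : 0 < gmin * (R - R₁) := mul_pos hg (by linarith)
  have hσ0 : 0 < σ := lt_min hs1 (by linarith)
  have hσ1 : σ ≤ gmin * (δ₁ - δ) := min_le_left _ _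
  have hσ2 : σ < gmin * (R - R₁) := lt_of_le_of_lt (min_le_right _ _) (by linarith)
  obtain ⟨M, hM⟩ : ∃ M : ℕ, 2 * H < lam ^ M * σ := by
    obtain ⟨M, hM⟩ := pow_unbounded_of_one_lt (2 * H / σ) m.hlam
    refine ⟨M, ?_⟩
    rwa [div_lt_iff₀ hσ0] at hM
  set δ₂ := (δ + δ₁) / 2 with hδ₂
  set R₂ := (R + R₁) / 2 with hR₂
  obtain ⟨m₀, hm₀⟩ : ∃ m₀ : ℕ, σ * (lam⁻¹) ^ m₀ < min (gmin * (δ₁ - δ₂)) (gmin * (R₂ - R₁)) := by
    have h1 : 0 < min (gmin * (δ₁ - δ₂)) (gmin * (R₂ - R₁)) := by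
      apply lt_min
      · apply mul_pos hg; rw [hδ₂]; linarith
      · apply mul_pos hg; rw [hR₂]; linarith
    obtain ⟨m₀, hm₀⟩ := exists_pow_lt_of_lt_one (div_pos h1 hσ0) (inv_lt_one_of_one_lt₀ m.hlam)
    refine ⟨m₀, ?_⟩
    rw [lt_div_iff₀ hσ0] at hm₀
    linarith
  obtain ⟨q₀, hq₀⟩ : ∃ q₀, q₀ = min (δ₂ - δ) (R - R₂) * gmin / ((max 1 (2 * R + b / r)) ^ M *
        Real.exp (dis lam gmin gmax r * (2 * σ * gmin⁻¹) * (1 - lam⁻¹)⁻¹) * σ) := ⟨_, rfl⟩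
  have hq0 : 0 < q₀ := by
    rw [hq₀]
    have h1 : 0 < max 1 (2 * R + b / r) := lt_of_lt_of_le one_pos (le_max_left _ _)
    have h2 : 0 < min (δ₂ - δ) (R - R₂) := lt_min (by rw [hδ₂]; linarith) (by rw [hR₂]; linarith)
    positivity
  refine ⟨M + m₀, (1 + q₀ / 4)⁻¹, by positivity, inv_lt_one_of_one_lt₀ (by linarith),
    fun w hw j => ?_⟩
  have hkey : ∀ j : ℕ, volume (UU b c w δ₁ R₁ σ lam h (j * (M + m₀))) ≤
      ENNReal.ofReal (2 * R * ((1 + q₀ / 4)⁻¹) ^ j) := by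
    intro j
    induction j with
    | zero =>
      have h1 : UU b c w δ₁ R₁ σ lam h (0 * (M + m₀)) ⊆ Icc (-R) R := by
        rintro t ⟨t₀, ht₀, hle, hcl⟩
        rw [zero_mul] at ht₀ hcl
        have h0 := ht₀ 0 le_rfl
        have h2 := hcl t ⟨hle, le_rfl⟩ 0 le_rfl
        have h3 := near_reg m (by linarith) hR0 hσ1 hσ2 h0.2 h0.1 (by simpa using h2)
        exact abs_le.1 h3.2
      refine (measure_mono h1).trans ?_
      rw [Real.volume_Icc]
      apply ENNReal.ofReal_le_ofReal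
      simp
      linarith
    | succ j ih =>
      have h1 := UU_step m hw (δ₁ := δ₁) (R₁ := R₁) (δ₂ := δ₂) (R₂ := R₂) (by rw [hδ₂]; linarith)
        (by rw [hδ₂]; linarith) (by rw [hR₂]; linarith) (by rw [hR₂]; linarith) hR0 hσ0 hσ1 hσ2
        hH hM (hm₀.le.trans (min_le_left _ _)) (hm₀.le.trans (min_le_right _ _)) hq₀
        (j * (M + m₀))
      have e : (j + 1) * (M + m₀) = j * (M + m₀) + (M + m₀) := by ring
      rw [e]
      have h2 := h1.trans ih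
      have h3 : (1 : ENNReal) + ENNReal.ofReal (q₀ / 4) = ENNReal.ofReal (1 + q₀ / 4) := by
        rw [ENNReal.ofReal_add (by norm_num) (by positivity), ENNReal.ofReal_one]
      rw [h3] at h2
      have h4 : ENNReal.ofReal (1 + q₀ / 4) ≠ 0 := by
        rw [Ne, ENNReal.ofReal_eq_zero]; linarith
      rw [← ENNReal.le_div_iff_mul_le (Or.inl h4) (Or.inl ENNReal.ofReal_ne_top),
        ← ENNReal.ofReal_div_of_pos (by positivity)] at h2
      refine h2.trans (le_of_eq ?_)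
      congr 1
      rw [pow_succ, div_eq_mul_inv]
      ring
  exact (measure_mono (stayN_sub_UU hσ0.le hl0 _)).trans (hkey j)

end Strip

end Run7.h964
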