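import Mathlib
import Pool.Agent.Run7.h964.Win2
import Pool.Agent.Run7.h964.Strip4

set_option autoImplicit false

/-!
# Linear windows between visits to the critical strip
-/

namespace Run7.h964

namespace Strip

open Filter Topology MeasureTheory Set

/-- planar finite-time staying set -/
def stay2N (a c δ₁ R₁ R : ℝ) (N : ℕ) : Set (ℝ × ℝ) :=
  {z | |z.2| ≤ |a| * R ∧ ∀ k ≤ N, δ₁ ≤ |xc a c z k| ∧ |xc a c z k| ≤ R₁}

lemma stay2N_closed (a c δ₁ R₁ R : ℝ) (N : ℕ) : IsClosed (stay2N a c δ₁ R₁ R N) := by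
  have : stay2N a c δ₁ R₁ R N = {z | |z.2| ≤ |a| * R} ∩
      ⋂ k, ⋂ (_ : k ≤ N), ({z | δ₁ ≤ |xc a c z k|} ∩ {z | |xc a c z k| ≤ R₁}) := by
    ext z; simp [stay2N]
  rw [this]
  apply IsClosed.inter
  · exact isClosed_le continuous_snd.abs continuous_const
  · apply isClosed_iInter
    intro k
    apply isClosed_iInter
    intro _
    have hc := (xc_cont a c k).abs
    exact (isClosed_le continuous_const hc).inter (isClosed_le hc continuous_const)

lemma stay2N_vol {a c δ₁ R₁ R : ℝ} (ha : a ≠ 0) {N : ℕ} {V : ENNReal}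
    (hV : ∀ w, |w| ≤ R → volume (stayN (a ^ 2) c w δ₁ R₁ N) ≤ V) :
    volume (stay2N a c δ₁ R₁ R N) ≤ V * ENNReal.ofReal (2 * (|a| * R)) := by
  have hm := (stay2N_closed a c δ₁ R₁ R N).measurableSet
  rw [Measure.volume_eq_prod, Measure.prod_apply_symm hm]
  calc ∫⁻ y, volume ((fun x => (x, y)) ⁻¹' stay2N a c δ₁ R₁ R N) ≤
        ∫⁻ y, (Icc (-(|a| * R)) (|a| * R)).indicator (fun _ => V) y := by
        apply lintegral_mono
        intro y
        show volume ((fun x => (x, y)) ⁻¹' stay2N a c δ₁ R₁ R N) ≤ _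
        by_cases hy : |y| ≤ |a| * R
        · have hmem : y ∈ Icc (-(|a| * R)) (|a| * R) := abs_le.1 hy
          rw [indicator_of_mem hmem]
          refine le_trans (measure_mono ?_) (hV (y / a) ?_)
          · intro t ht k hk
            have := ht.2 k hk
            rw [← X_eq a c ha] at this
            exact this
          · rw [abs_div, div_le_iff₀ (abs_pos.2 ha)]
            linarith
        · have : (fun x => (x, y)) ⁻¹' stay2N a c δ₁ R₁ R N = ∅ := by
            ext t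
            simp only [mem_preimage, mem_empty_iff_false, iff_false]
            exact fun ht => hy ht.1
          rw [this, measure_empty]
          exact bot_le
    _ = V * ENNReal.ofReal (2 * (|a| * R)) := by
        rw [lintegral_indicator_const measurableSet_Icc, Real.volume_Icc]
        congr 2
        ring

/-- almost every bounded orbit visits the strip in every window `[n, C n]`, `n` large -/
theorem window {a c δ R r lam gmin gmax : ℝ} {h g : ℝ → ℝ} (ha : a ≠ 0)
    (m : Metric' (a ^ 2) c δ R r lam gmin gmax h g) {δ₁ R₁ : ℝ}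
    (hδ₁ : δ < δ₁) (hR : R₁ < R) (hR0 : 0 ≤ R₁)
    (hev : ∀ z : ℝ × ℝ, (∃ M, ∀ n, |xc a c z n| ≤ M) → ∃ N, ∀ n, N ≤ n → |xc a c z n| < R₁) :
    ∃ C : ℕ, ∀ᵐ z : ℝ × ℝ, (∃ M, ∀ n, |xc a c z n| ≤ M) →
      ∀ᶠ n in atTop, ∃ k, n ≤ k ∧ k ≤ C * n ∧ |xc a c z k| < δ₁ := by
  have ha2 : 0 < a ^ 2 := by positivity
  obtain ⟨M, ρ, hρ0, hρ1, hexp⟩ := stay_exp m hδ₁ hR hR0
  obtain ⟨L, hL⟩ := exists_pow_lt_of_lt_one ha2 hρ1
  have hRpos : 0 < R := by linarith
  set s : ℕ → Set (ℝ × ℝ) := fun n => (henon a c)^[n] ⁻¹' stay2N a c δ₁ R₁ R ((L * n) * M) with hs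
  have hvol : ∀ n, volume (s n) ≤
      ENNReal.ofReal ((2 * R) * (2 * (|a| * R)) * (ρ ^ L / a ^ 2) ^ n) := by
    intro n
    have h1 := stay2N_vol ha (N := (L * n) * M) (δ₁ := δ₁) (R₁ := R₁) (c := c)
      (fun w hw => hexp w hw (L * n))
    show volume ((henon a c)^[n] ⁻¹' _) ≤ _
    rw [volume_preimage_iter a c ha]
    calc ENNReal.ofReal ((a ^ 2)⁻¹) ^ n * volume (stay2N a c δ₁ R₁ R ((L * n) * M)) ≤
          ENNReal.ofReal ((a ^ 2)⁻¹) ^ n *
            (ENNReal.ofReal (2 * R * ρ ^ (L * n)) * ENNReal.ofReal (2 * (|a| * R))) :=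
          mul_le_mul_right h1 _
      _ = _ := by
          rw [← ENNReal.ofReal_pow (by positivity), ← ENNReal.ofReal_mul (by positivity),
            ← ENNReal.ofReal_mul (by positivity)]
          congr 1
          rw [pow_mul, div_pow, inv_pow]
          ring
  have hsum : ∑' n, volume (s n) ≠ ⊤ := by
    have h1 : Summable (fun n : ℕ => (2 * R) * (2 * (|a| * R)) * (ρ ^ L / a ^ 2) ^ n) :=
      (summable_geometric_of_lt_one (by positivity) (by rw [div_lt_one ha2]; exact hL)).mul_left _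
    exact ne_top_of_le_ne_top h1.tsum_ofReal_ne_top (ENNReal.tsum_le_tsum hvol)
  refine ⟨1 + L * M, ?_⟩
  filter_upwards [ae_eventually_notMem hsum] with z hz hbd
  obtain ⟨N, hN⟩ := hev z hbd
  filter_upwards [hz, eventually_ge_atTop (N + 1)] with n hn hnN
  obtain ⟨n', rfl⟩ : ∃ n', n = n' + 1 := ⟨n - 1, by omega⟩
  have hshift : ∀ k, xc a c ((henon a c)^[n' + 1] z) k = xc a c z (k + (n' + 1)) := by
    intro k
    unfold xc
    rw [Function.iterate_add_apply (henon a c) k (n' + 1) z]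
  have h1 : |((henon a c)^[n' + 1] z).2| ≤ |a| * R := by
    rw [iter_snd, abs_mul]
    exact mul_le_mul_of_nonneg_left ((hN n' (by omega)).le.trans hR.le) (abs_nonneg a)
  have h2 : ¬ ∀ k ≤ (L * (n' + 1)) * M, δ₁ ≤ |xc a c ((henon a c)^[n' + 1] z) k| ∧
      |xc a c ((henon a c)^[n' + 1] z) k| ≤ R₁ := fun h => hn ⟨h1, h⟩
  push Not at h2
  obtain ⟨k, hk1, hk2⟩ := h2
  rw [hshift] at hk2
  refine ⟨k + (n' + 1), by omega, ?_, ?_⟩
  · calc k + (n' + 1) ≤ (L * (n' + 1)) * M + (n' + 1) := by omega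
      _ = (1 + L * M) * (n' + 1) := by ring
  · by_contra hcon
    push Not at hcon
    have h3 := hk2 hcon
    have h4 := hN (k + (n' + 1)) (by omega)
    linarith

end Strip

end Run7.h964
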