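import Mathlib
import Pool.Agent.Run7.h964.Cons2

set_option autoImplicit false

/-!
# Growth of the area of the non-statistical set
-/

namespace Run7.h964

open Filter Topology MeasureTheory Set
open scoped ENNReal

/-- bounded orbits: comparison of consecutive terms -/
lemma bdd_step {b c : ℝ} (hb : 0 ≤ b) {x : ℕ → ℝ}
    (hx : ∀ n, x (n + 2) = x (n + 1) ^ 2 + c + b * x n) {M : ℝ} (hM : ∀ n, |x n| ≤ M) (n : ℕ)
    (h1 : 2 + b + |c| ≤ |x (n + 1)|) : |x (n + 1)| < |x n| := by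
  by_contra h2
  push Not at h2
  have h3 := escape hb hx h1 h2
  have h5 : Tendsto (fun k : ℕ => (2:ℝ) ^ k * |x (n + 1)|) atTop atTop := by
    apply Tendsto.atTop_mul_const
    · have := abs_nonneg c
      linarith
    · exact tendsto_pow_atTop_atTop_of_one_lt (by norm_num)
  obtain ⟨k, hk⟩ := (h5.eventually (eventually_gt_atTop M)).exists
  linarith [(h3 k).2, hM (n + 1 + k)]

lemma sqrt_step {b c : ℝ} (hb : 0 ≤ b) (hb1 : b ≤ 1) {x : ℕ → ℝ}
    (hx : ∀ n, x (n + 2) = x (n + 1) ^ 2 + c + b * x n) {M : ℝ} (hM : ∀ n, |x n| ≤ M) (n : ℕ)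
    {A : ℝ} (hA : 3 + b + |c| ≤ A) (h : |x n| ≤ A) : |x (n + 1)| ^ 2 ≤ 3 * A := by
  have hc := abs_nonneg c
  have h1 : |x (n + 1)| ≤ A := by
    by_contra hcon
    push Not at hcon
    have := bdd_step hb hx hM n (by linarith)
    linarith
  have h2 : |x (n + 2)| ≤ A := by
    by_contra hcon
    push Not at hcon
    have := bdd_step hb hx hM (n + 1) (by linarith)
    linarith
  have h3 : |x (n + 1)| ^ 2 ≤ |x (n + 2)| + |c| + b * |x n| := by
    have := abs_sub (x (n + 1) ^ 2 + c + b * x n) (c + b * x n)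
    have h3 := abs_add_le c (b * x n)
    have h4 : |b * x n| = b * |x n| := by rw [abs_mul, abs_of_nonneg hb]
    have h5 : x (n + 1) ^ 2 + c + b * x n - (c + b * x n) = x (n + 1) ^ 2 := by ring
    rw [h5, abs_pow, ← hx n] at this
    linarith
  have h4 : b * |x n| ≤ 1 * A := mul_le_mul hb1 h (abs_nonneg _) zero_le_one
  linarith

/-- fast entry of bounded orbits into a fixed ball -/
lemma fast_entry {b c : ℝ} (hb : 0 ≤ b) (hb1 : b ≤ 1) {x : ℕ → ℝ}
    (hx : ∀ n, x (n + 2) = x (n + 1) ^ 2 + c + b * x n) {M : ℝ} (hM : ∀ n, |x n| ≤ M)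
    {ρ : ℝ} (hρ : 1 ≤ ρ) (h0 : |x 0| ≤ ρ) (n : ℕ) :
    |x n| ≤ max (3 + b + |c|) (3 * ρ ^ ((2:ℝ) ^ n)⁻¹) := by
  induction n with
  | zero =>
    refine le_max_of_le_right ?_
    simp only [pow_zero, inv_one, Real.rpow_one]
    linarith
  | succ n ih =>
    have hc := abs_nonneg c
    rcases le_total (3 * ρ ^ ((2:ℝ) ^ n)⁻¹) (3 + b + |c|) with h | h
    · rw [max_eq_left h] at ih
      refine le_max_of_le_left ?_
      have := sqrt_step hb hb1 hx hM n le_rfl ih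
      have h3 : 3 * (3 + b + |c|) ≤ (3 + b + |c|) ^ 2 := by nlinarith
      exact abs_le_of_sq_le_sq' (by rw [sq_abs] at this; linarith) (by linarith) |> abs_le.2
    · rw [max_eq_right h] at ih
      refine le_max_of_le_right ?_
      have h1 := sqrt_step hb hb1 hx hM n h ih
      have hpos : 0 < ρ := by linarith
      have h2 : (3 * ρ ^ ((2:ℝ) ^ (n + 1))⁻¹) ^ 2 = 3 * (3 * ρ ^ ((2:ℝ) ^ n)⁻¹) := by
        have : (ρ ^ ((2:ℝ) ^ (n + 1))⁻¹) ^ 2 = ρ ^ ((2:ℝ) ^ n)⁻¹ := by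
          rw [← Real.rpow_natCast, ← Real.rpow_mul hpos.le]
          congr 1
          rw [pow_succ]
          push_cast
          field_simp
        rw [mul_pow, this]; ring
      rw [← h2] at h1
      have h3 : 0 ≤ 3 * ρ ^ ((2:ℝ) ^ (n + 1))⁻¹ := by positivity
      exact (pow_le_pow_iff_left₀ (abs_nonneg _) h3 two_ne_zero).1 h1

/-- backward growth is at most doubly exponential -/
lemma back_step (a c : ℝ) (ha : a ≠ 0) (z : ℝ × ℝ) :
    max 1 ‖z‖ ≤ ((2 + |c| + (a ^ 2)⁻¹) * (1 + |a|⁻¹)) * max 1 ‖henon a c z‖ ^ 2 := by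
  set C := (2 + |c| + (a ^ 2)⁻¹) * (1 + |a|⁻¹) with hC
  set m := max 1 ‖henon a c z‖ with hm
  have hm1 : 1 ≤ m := le_max_left _ _
  have hc := abs_nonneg c
  have hai : 0 < |a|⁻¹ := by positivity
  have hai2 : 0 < (a ^ 2)⁻¹ := by positivity
  have hC1 : 1 ≤ C := by
    rw [hC]
    nlinarith [mul_nonneg hc hai.le, mul_nonneg hai2.le hai.le]
  have h1 : |(henon a c z).1| ≤ m := by
    refine le_trans ?_ (le_max_right _ _)
    rw [← Real.norm_eq_abs]; exact norm_fst_le _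
  have h2 : |(henon a c z).2| ≤ m := by
    refine le_trans ?_ (le_max_right _ _)
    rw [← Real.norm_eq_abs]; exact norm_snd_le _
  have h3 : |z.1| = |a|⁻¹ * |(henon a c z).2| := by
    simp only [henon]
    rw [abs_mul]
    field_simp
  have h4 : |z.2| ≤ |a|⁻¹ * (m + |c| + (a ^ 2)⁻¹ * m ^ 2) := by
    have e : z.2 = a⁻¹ * ((henon a c z).1 - c - z.1 ^ 2) := by
      simp only [henon]
      field_simp
      ring
    rw [e, abs_mul, abs_inv]
    apply mul_le_mul_of_nonneg_left _ hai.le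
    have h5 : z.1 ^ 2 = (a ^ 2)⁻¹ * (henon a c z).2 ^ 2 := by
      simp only [henon]
      field_simp
    rw [h5]
    have h6 : |(henon a c z).2| ^ 2 ≤ m ^ 2 := pow_le_pow_left₀ (abs_nonneg _) h2 2
    rw [sq_abs] at h6
    have h7 := abs_sub (( henon a c z).1 - c) ((a ^ 2)⁻¹ * (henon a c z).2 ^ 2)
    have h8 := abs_sub (henon a c z).1 c
    have h9 : |(a ^ 2)⁻¹ * (henon a c z).2 ^ 2| = (a ^ 2)⁻¹ * (henon a c z).2 ^ 2 :=
      abs_of_nonneg (by positivity)
    have h10 := mul_le_mul_of_nonneg_left h6 hai2.le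
    linarith
  have hmm : m ≤ m ^ 2 := by nlinarith
  have hm2 : 1 ≤ m ^ 2 := by nlinarith
  apply max_le
  · nlinarith
  · rw [Prod.norm_def]
    apply max_le
    · rw [Real.norm_eq_abs, h3]
      calc |a|⁻¹ * |(henon a c z).2| ≤ |a|⁻¹ * m := mul_le_mul_of_nonneg_left h2 hai.le
        _ ≤ |a|⁻¹ * m ^ 2 := mul_le_mul_of_nonneg_left hmm hai.le
        _ ≤ C * m ^ 2 := by
          apply mul_le_mul_of_nonneg_right _ (by positivity)
          rw [hC]
          nlinarith [mul_nonneg hc hai.le, mul_nonneg hai2.le hai.le]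
    · rw [Real.norm_eq_abs]
      refine h4.trans ?_
      have h5 : m + |c| + (a ^ 2)⁻¹ * m ^ 2 ≤ (2 + |c| + (a ^ 2)⁻¹) * m ^ 2 := by
        have := mul_le_mul_of_nonneg_left hm2 hc
        nlinarith
      calc |a|⁻¹ * (m + |c| + (a ^ 2)⁻¹ * m ^ 2) ≤ |a|⁻¹ * ((2 + |c| + (a ^ 2)⁻¹) * m ^ 2) :=
            mul_le_mul_of_nonneg_left h5 hai.le
        _ ≤ C * m ^ 2 := by
          rw [hC]
          have : 0 ≤ (2 + |c| + (a ^ 2)⁻¹) * m ^ 2 := by positivity
          nlinarith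

lemma back_growth (a c : ℝ) (ha : a ≠ 0) : ∃ C : ℝ, 1 ≤ C ∧ ∀ (n : ℕ) (z : ℝ × ℝ),
    ‖z‖ ≤ (C * max 1 ‖(henon a c)^[n] z‖) ^ (2 ^ n) := by
  set C := (2 + |c| + (a ^ 2)⁻¹) * (1 + |a|⁻¹) with hC
  have hc := abs_nonneg c
  have hai : 0 < |a|⁻¹ := by positivity
  have hai2 : 0 < (a ^ 2)⁻¹ := by positivity
  have hC1 : 1 ≤ C := by
    rw [hC]
    nlinarith [mul_nonneg hc hai.le, mul_nonneg hai2.le hai.le]
  refine ⟨C, hC1, ?_⟩
  have key : ∀ (n : ℕ) (z : ℝ × ℝ), C * max 1 ‖z‖ ≤ (C * max 1 ‖(henon a c)^[n] z‖) ^ (2 ^ n) := by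
    intro n
    induction n with
    | zero => intro z; simp
    | succ n ih =>
      intro z
      have h1 := back_step a c ha z
      have h2 := ih (henon a c z)
      have h3 : (henon a c)^[n + 1] z = (henon a c)^[n] (henon a c z) :=
        Function.iterate_succ_apply _ _ _
      rw [h3]
      calc C * max 1 ‖z‖ ≤ C * (C * max 1 ‖henon a c z‖ ^ 2) :=
            mul_le_mul_of_nonneg_left h1 (by linarith)
        _ = (C * max 1 ‖henon a c z‖) ^ 2 := by ring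
        _ ≤ ((C * max 1 ‖(henon a c)^[n] (henon a c z)‖) ^ (2 ^ n)) ^ 2 :=
            pow_le_pow_left₀ (by positivity) h2 2
        _ = _ := by rw [← pow_mul, pow_succ]
  intro n z
  refine le_trans ?_ (key n z)
  have h1 : ‖z‖ ≤ max 1 ‖z‖ := le_max_right _ _
  have h2 : 0 ≤ max 1 ‖z‖ := by positivity
  nlinarith

end Run7.h964
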