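import Mathlib
import Pool.Agent.Run7.h964.Growth

set_option autoImplicit false

/-!
# Growth of the area of the non-statistical set: two-sided bounds
-/

namespace Run7.h964

open Filter Topology MeasureTheory Set
open scoped ENNReal

lemma rpow_logb_swap {β t : ℝ} (hβ : 0 < β) (ht : 0 < t) :
    β ^ (Real.logb 2 t) = t ^ (Real.logb 2 β) := by
  have h1 : β = (2:ℝ) ^ (Real.logb 2 β) := (Real.rpow_logb (by norm_num) (by norm_num) hβ).symm
  have h2 : t = (2:ℝ) ^ (Real.logb 2 t) := (Real.rpow_logb (by norm_num) (by norm_num) ht).symm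
  conv_lhs => rw [h1]
  conv_rhs => rw [h2]
  rw [← Real.rpow_mul (by norm_num), ← Real.rpow_mul (by norm_num), mul_comm]

/-- upper bound for the growth -/
lemma growth_upper (a c : ℝ) (ha : a ≠ 0) (ha1 : |a| < 1) : ∃ K : ℝ, 0 < K ∧ ∀ ρ : ℝ,
    Real.exp 1 ≤ ρ → volume (nonStatSet a c ∩ Metric.closedBall 0 ρ) ≤
      ENNReal.ofReal (K * (Real.log ρ) ^ (Real.logb 2 (a ^ 2)⁻¹)) := by
  have hb : 0 < a ^ 2 := by positivity
  have hb1 : a ^ 2 < 1 := by
    rw [← sq_abs]
    have := abs_nonneg a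
    nlinarith
  set β : ℝ := (a ^ 2)⁻¹ with hβ
  have hβ1 : 1 < β := (one_lt_inv₀ hb).2 hb1
  have hβ0 : 0 < β := by linarith
  set R : ℝ := max (3 + a ^ 2 + |c|) (3 * Real.exp 1) with hR
  have hfin : volume (Metric.closedBall (0 : ℝ × ℝ) R) ≠ ⊤ := measure_closedBall_lt_top.ne
  obtain ⟨v, hv0, hv⟩ : ∃ v : ℝ, 0 ≤ v ∧
      volume (Metric.closedBall (0 : ℝ × ℝ) R) = ENNReal.ofReal v :=
    ⟨_, ENNReal.toReal_nonneg, (ENNReal.ofReal_toReal hfin).symm⟩
  refine ⟨β ^ 2 * (v + 1), by positivity, ?_⟩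
  intro ρ hρ
  have he : (1:ℝ) ≤ Real.exp 1 := by
    have := Real.add_one_le_exp 1
    linarith
  have hρ1 : 1 ≤ ρ := he.trans hρ
  have hρ0 : 0 < ρ := by linarith
  have hlog : 1 ≤ Real.log ρ := by
    rw [Real.le_log_iff_exp_le hρ0]; exact hρ
  set n : ℕ := ⌈Real.logb 2 (Real.log ρ)⌉₊ with hn
  have h2n : Real.log ρ ≤ 2 ^ n := by
    have h1 : Real.logb 2 (Real.log ρ) ≤ n := Nat.le_ceil _
    rw [Real.logb_le_iff_le_rpow (by norm_num) (by linarith), Real.rpow_natCast] at h1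
    exact h1
  have hsub : nonStatSet a c ∩ Metric.closedBall 0 ρ ⊆
      (henon a c)^[n + 1] ⁻¹' (Metric.closedBall (0 : ℝ × ℝ) R) := by
    rintro z ⟨hz, hzρ⟩
    rw [mem_closedBall_zero_iff] at hzρ
    obtain ⟨M, hM⟩ := NonStat.bounded hz
    have h0 : |xc a c z 0| ≤ ρ := by
      have : |z.1| ≤ ‖z‖ := by rw [← Real.norm_eq_abs]; exact norm_fst_le _
      exact this.trans hzρ
    have h3 : ∀ m, n ≤ m → |xc a c z m| ≤ R := by
      intro m hm
      refine (fast_entry hb.le hb1.le (xc_rec a c z) hM hρ1 h0 m).trans ?_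
      apply max_le_max le_rfl
      have h4 : Real.log ρ ≤ 2 ^ m := h2n.trans (pow_le_pow_right₀ (by norm_num) hm)
      have h5 : ρ ^ ((2:ℝ) ^ m)⁻¹ ≤ Real.exp 1 := by
        rw [Real.rpow_def_of_pos hρ0]
        apply Real.exp_le_exp.2
        rw [mul_inv_le_iff₀ (by positivity)]
        linarith
      linarith
    show (henon a c)^[n + 1] z ∈ Metric.closedBall (0 : ℝ × ℝ) R
    rw [mem_closedBall_zero_iff, iter_eq, Prod.norm_def]
    apply max_le
    · exact h3 (n + 1) (by omega)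
    · rw [norm_mul]
      have := h3 n le_rfl
      have h6 : 0 ≤ |xc a c z n| := abs_nonneg _
      show |a| * |xc a c z n| ≤ R
      nlinarith [abs_nonneg a]
  have h7 := measure_mono (μ := volume) hsub
  rw [volume_preimage_iter a c ha, ← hβ] at h7
  refine h7.trans ?_
  have h8 : β ^ (n + 1) ≤ β ^ 2 * Real.log ρ ^ Real.logb 2 β := by
    have h9 : (n : ℝ) ≤ Real.logb 2 (Real.log ρ) + 1 := by
      have : 0 ≤ Real.logb 2 (Real.log ρ) := Real.logb_nonneg (by norm_num) hlog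
      exact (Nat.ceil_lt_add_one this).le
    rw [← rpow_logb_swap hβ0 (by linarith), ← Real.rpow_natCast, ← Real.rpow_natCast,
      ← Real.rpow_add hβ0]
    apply Real.rpow_le_rpow_of_exponent_le hβ1.le
    push_cast
    linarith
  rw [hv, ← ENNReal.ofReal_pow hβ0.le, ← ENNReal.ofReal_mul (by positivity)]
  apply ENNReal.ofReal_le_ofReal
  have hL : 0 ≤ Real.log ρ ^ Real.logb 2 β := by positivity
  calc β ^ (n + 1) * v ≤ (β ^ 2 * Real.log ρ ^ Real.logb 2 β) * v :=
        mul_le_mul_of_nonneg_right h8 hv0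
    _ ≤ β ^ 2 * (v + 1) * Real.log ρ ^ Real.logb 2 β := by
        have : 0 ≤ β ^ 2 * Real.log ρ ^ Real.logb 2 β := by positivity
        nlinarith

/-- lower bound for the growth -/
lemma growth_lower (a c : ℝ) (ha : a ≠ 0) (ha1 : |a| < 1) (hN : volume (nonStatSet a c) ≠ 0) :
    ∃ k ρ₀ : ℝ, 0 < k ∧ 1 < ρ₀ ∧ ∀ ρ : ℝ, ρ₀ ≤ ρ →
      ENNReal.ofReal (k * (Real.log ρ) ^ (Real.logb 2 (a ^ 2)⁻¹)) ≤
        volume (nonStatSet a c ∩ Metric.closedBall 0 ρ) := by
  have hb : 0 < a ^ 2 := by positivity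
  have hb1 : a ^ 2 < 1 := by
    rw [← sq_abs]
    have := abs_nonneg a
    nlinarith
  set β : ℝ := (a ^ 2)⁻¹ with hβ
  have hβ1 : 1 < β := (one_lt_inv₀ hb).2 hb1
  have hβ0 : 0 < β := by linarith
  obtain ⟨C, hC1, hC⟩ := back_growth a c ha
  set R : ℝ := max (Real.exp 1) ((1 + |a|) * (2 + a ^ 2 + |c|)) with hR
  have he : (1:ℝ) ≤ Real.exp 1 := by
    have := Real.add_one_le_exp 1
    linarith
  have hR1 : 1 ≤ R := he.trans (le_max_left _ _)
  set V : Set (ℝ × ℝ) := nonStatSet a c ∩ Metric.closedBall 0 R with hV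
  have hVfin : volume V ≠ ⊤ :=
    (lt_of_le_of_lt (measure_mono inter_subset_right) measure_closedBall_lt_top).ne
  have hV0 : volume V ≠ 0 := by
    intro h0
    apply hN
    apply null_of_trap_null ha
    refine measure_mono_null ?_ h0
    rintro z ⟨hz1, hz2⟩
    refine ⟨hz2, ?_⟩
    rw [mem_closedBall_zero_iff]
    exact (trap_bounded a c hz1).trans (le_max_right _ _)
  set D : ℝ := C * R with hD
  have hDe : Real.exp 1 ≤ D := by
    have : Real.exp 1 ≤ R := le_max_left _ _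
    nlinarith
  have hD0 : 0 < D := by linarith
  have hlogD : 1 ≤ Real.log D := by
    rw [Real.le_log_iff_exp_le hD0]; exact hDe
  set v : ℝ := (volume V).toReal with hv
  have hv0 : 0 < v := ENNReal.toReal_pos hV0 hVfin
  refine ⟨β⁻¹ * (Real.log D) ^ (-(Real.logb 2 β)) * v, D, by positivity, ?_, ?_⟩
  · have : (1:ℝ) < Real.exp 1 := by
      have := Real.add_one_lt_exp (show (1:ℝ) ≠ 0 by norm_num)
      linarith
    linarith
  intro ρ hρ
  have hρ0 : 0 < ρ := by linarith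
  have hlogρ : Real.log D ≤ Real.log ρ := Real.log_le_log hD0 hρ
  set t : ℝ := Real.log ρ / Real.log D with ht
  have ht1 : 1 ≤ t := by rw [ht, le_div_iff₀ (by linarith)]; linarith
  set n : ℕ := ⌊Real.logb 2 t⌋₊ with hn
  have hlt0 : 0 ≤ Real.logb 2 t := Real.logb_nonneg (by norm_num) ht1
  have h2n : (2:ℝ) ^ n ≤ t := by
    have h1 : (n : ℝ) ≤ Real.logb 2 t := Nat.floor_le hlt0
    rw [Real.le_logb_iff_rpow_le (by norm_num) (by linarith), Real.rpow_natCast] at h1
    exact h1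
  have hDρ : D ^ (2 ^ n) ≤ ρ := by
    have h1 : Real.log (D ^ (2 ^ n)) ≤ Real.log ρ := by
      rw [Real.log_pow]
      push_cast
      calc (2:ℝ) ^ n * Real.log D ≤ t * Real.log D :=
            mul_le_mul_of_nonneg_right h2n (by linarith)
        _ = Real.log ρ := by rw [ht]; field_simp
    exact (Real.log_le_log_iff (by positivity) hρ0).1 h1
  have hsub : (henon a c)^[n] ⁻¹' V ⊆ nonStatSet a c ∩ Metric.closedBall 0 ρ := by
    intro z hz
    obtain ⟨hz1, hz2⟩ := hz
    rw [mem_closedBall_zero_iff] at hz2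
    refine ⟨?_, ?_⟩
    · rw [← nonStatSet_preimage_iter a c n]; exact hz1
    · rw [mem_closedBall_zero_iff]
      refine (hC n z).trans (le_trans ?_ hDρ)
      apply pow_le_pow_left₀ (by positivity)
      apply mul_le_mul_of_nonneg_left _ (by linarith)
      exact max_le hR1 hz2
  have h7 := measure_mono (μ := volume) hsub
  rw [volume_preimage_iter a c ha, ← hβ] at h7
  refine le_trans ?_ h7
  have hvV : volume V = ENNReal.ofReal v := (ENNReal.ofReal_toReal hVfin).symm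
  rw [hvV, ← ENNReal.ofReal_pow hβ0.le, ← ENNReal.ofReal_mul (by positivity)]
  apply ENNReal.ofReal_le_ofReal
  have h8 : β⁻¹ * t ^ Real.logb 2 β ≤ β ^ n := by
    have h9 : Real.logb 2 t - 1 ≤ n := by
      have := Nat.lt_floor_add_one (Real.logb 2 t)
      linarith
    rw [← rpow_logb_swap hβ0 (by linarith), ← Real.rpow_neg_one, ← Real.rpow_add hβ0,
      ← Real.rpow_natCast]
    apply Real.rpow_le_rpow_of_exponent_le hβ1.le
    linarith
  have h10 : t ^ Real.logb 2 β = Real.log ρ ^ Real.logb 2 β * (Real.log D) ^ (-(Real.logb 2 β)) := by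
    rw [ht, Real.div_rpow (by linarith) (by linarith), Real.rpow_neg (by linarith), div_eq_mul_inv]
  calc β⁻¹ * (Real.log D) ^ (-(Real.logb 2 β)) * v * Real.log ρ ^ Real.logb 2 β
      = (β⁻¹ * t ^ Real.logb 2 β) * v := by rw [h10]; ring
    _ ≤ β ^ n * v := mul_le_mul_of_nonneg_right h8 hv0.le

/-- zero-infinity law -/
theorem zero_or_top (a c : ℝ) (ha : a ≠ 0) :
    volume (nonStatSet a c) = 0 ∨ (|a| < 1 ∧ volume (nonStatSet a c) = ⊤) := by
  by_cases h0 : volume (nonStatSet a c) = 0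
  · exact Or.inl h0
  right
  have ha1 : |a| < 1 := by
    by_contra h
    exact h0 (null_of_one_le (not_lt.1 h))
  refine ⟨ha1, ?_⟩
  by_contra htop
  have h1 := volume_preimage a c ha (nonStatSet a c)
  rw [nonStatSet_preimage] at h1
  have hb : 0 < a ^ 2 := by positivity
  have hb1 : a ^ 2 < 1 := by
    rw [← sq_abs]
    have := abs_nonneg a
    nlinarith
  have hβ1 : 1 < ENNReal.ofReal ((a ^ 2)⁻¹) := by
    rw [ENNReal.one_lt_ofReal]
    exact (one_lt_inv₀ hb).2 hb1
  have h3 : 1 * volume (nonStatSet a c) < ENNReal.ofReal ((a ^ 2)⁻¹) * volume (nonStatSet a c) :=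
    ENNReal.mul_lt_mul_left h0 htop hβ1
  rw [one_mul, ← h1] at h3
  exact lt_irrefl _ h3

end Run7.h964
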